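import Pool.Agent.Q196.SR.Calc

/-!
Local minima of `(1 - |φ|²) exp (- t f)` for large `t`.
-/

set_option autoImplicit false

namespace Pool.Agent.Q196.SR

open scoped ContDiff RealInnerProductSpace ENNReal Topology
open MeasureTheory Set Metric Filter Pool.Agent.Y503.RB

theorem fderiv2_apply {F : Type*} [NormedAddCommGroup F] [NormedSpace ℝ F] {g : ℂ → F} {z : ℂ}
    (hg : ContDiffAt ℝ ∞ g z) (u v : ℂ) :
    fderiv ℝ (fderiv ℝ g) z u v = fderiv ℝ (fun w => fderiv ℝ g w v) z u := by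
  have h1 : HasFDerivAt (fderiv ℝ g) (fderiv ℝ (fderiv ℝ g) z) z :=
    ((smf hg).differentiableAt (by simp)).hasFDerivAt
  have h2 := h1.clm_apply (hasFDerivAt_const v z)
  have h3 : fderiv ℝ (fun w => fderiv ℝ g w v) z = _ := h2.fderiv
  rw [h3]
  simp

theorem inner_fderiv {φ : ℂ → E4} {z : ℂ} (hφ : DifferentiableAt ℝ φ z) (a : E4) (u : ℂ) :
    fderiv ℝ (fun w => (⟪a, φ w⟫ : ℝ)) z u = ⟪a, fderiv ℝ φ z u⟫ := by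
  have h1 : HasFDerivAt (fun w => (⟪a, φ w⟫ : ℝ)) ((innerSL ℝ a).comp (fderiv ℝ φ z)) z :=
    ((innerSL ℝ a).hasFDerivAt).comp z hφ.hasFDerivAt
  rw [h1.fderiv]
  simp

theorem inner_fderiv2 {φ : ℂ → E4} {z : ℂ} (hφ : ContDiffAt ℝ ∞ φ z) (a : E4) (u v : ℂ) :
    fderiv ℝ (fderiv ℝ (fun w => (⟪a, φ w⟫ : ℝ))) z u v = ⟪a, d2 φ u v z⟫ := by
  rw [fderiv2_apply (contDiffAt_const.inner ℝ hφ)]
  have h1 : (fun w => fderiv ℝ (fun w => (⟪a, φ w⟫ : ℝ)) w v) =ᶠ[𝓝 z]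
      fun w => ⟪a, fderiv ℝ φ w v⟫ := by
    filter_upwards [evd hφ] with w hw
    exact inner_fderiv hw a v
  rw [h1.fderiv_eq]
  have h2 : DifferentiableAt ℝ (fun w => fderiv ℝ φ w v) z :=
    ((smf hφ).clm_apply contDiffAt_const).differentiableAt (by simp)
  rw [inner_fderiv h2]
  rfl

/-- `1 - |φ|²`. -/
noncomputable def rh (φ : ℂ → E4) (z : ℂ) : ℝ := 1 - ‖φ z‖ ^ 2

/-- The function `(1 - |φ|²) exp (- t (f + ⟨a, φ⟩))`. -/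
noncomputable def PP (φ : ℂ → E4) (f : ℂ → ℝ) (t : ℝ) (a : E4) (z : ℂ) : ℝ :=
  rh φ z * Real.exp (-(t * (f z + ⟪a, φ z⟫)))

theorem rh_smooth {φ : ℂ → E4} {z : ℂ} (hφ : ContDiffAt ℝ ∞ φ z) : ContDiffAt ℝ ∞ (rh φ) z :=
  contDiffAt_const.sub (hφ.norm_sq ℝ)

/-- First order condition. -/
def E1 (φ : ℂ → E4) (f : ℂ → ℝ) (t : ℝ) (a : E4) (z : ℂ) : Prop :=
  ∀ u : ℂ, fderiv ℝ (rh φ) z u = t * rh φ z * (fderiv ℝ f z u + ⟪a, fderiv ℝ φ z u⟫)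

/-- Second order condition. -/
def E2 (φ : ℂ → E4) (f : ℂ → ℝ) (t : ℝ) (a : E4) (z : ℂ) : Prop :=
  ∀ u : ℂ, 0 ≤ rh φ z * fderiv ℝ (fderiv ℝ (rh φ)) z u u - (fderiv ℝ (rh φ) z u) ^ 2 -
    t * rh φ z ^ 2 * (fderiv ℝ (fderiv ℝ f) z u u + ⟪a, d2 φ u u z⟫)

theorem fa_fderiv {φ : ℂ → E4} {f : ℂ → ℝ} {z : ℂ} (hφ : DifferentiableAt ℝ φ z)
    (hf : DifferentiableAt ℝ f z) (a : E4) (u : ℂ) :
    fderiv ℝ (fun w => f w + ⟪a, φ w⟫) z u = fderiv ℝ f z u + ⟪a, fderiv ℝ φ z u⟫ := by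
  have h1 : DifferentiableAt ℝ (fun w => (⟪a, φ w⟫ : ℝ)) z :=
    (differentiableAt_const a).inner ℝ hφ
  have h2 : fderiv ℝ (fun w => f w + ⟪a, φ w⟫) z = fderiv ℝ f z +
      fderiv ℝ (fun w => (⟪a, φ w⟫ : ℝ)) z := fderiv_fun_add hf h1
  rw [h2, ContinuousLinearMap.add_apply, inner_fderiv hφ]

theorem fa_fderiv2 {φ : ℂ → E4} {f : ℂ → ℝ} {z : ℂ} (hφ : ContDiffAt ℝ ∞ φ z)
    (hf : ContDiffAt ℝ ∞ f z) (a : E4) (u v : ℂ) :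
    fderiv ℝ (fderiv ℝ (fun w => f w + ⟪a, φ w⟫)) z u v =
      fderiv ℝ (fderiv ℝ f) z u v + ⟪a, d2 φ u v z⟫ := by
  have hi : ContDiffAt ℝ ∞ (fun w => (⟪a, φ w⟫ : ℝ)) z := contDiffAt_const.inner ℝ hφ
  have h1 : fderiv ℝ (fun w => f w + ⟪a, φ w⟫) =ᶠ[𝓝 z] fun w => fderiv ℝ f w +
      fderiv ℝ (fun w => (⟪a, φ w⟫ : ℝ)) w := by
    filter_upwards [evd hf, evd hi] with w h1 h2
    exact fderiv_fun_add h1 h2
  have h3 : DifferentiableAt ℝ (fderiv ℝ f) z := (smf hf).differentiableAt (by simp)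
  have h4 : DifferentiableAt ℝ (fderiv ℝ (fun w => (⟪a, φ w⟫ : ℝ))) z :=
    (smf hi).differentiableAt (by simp)
  have h5 : fderiv ℝ (fun w => fderiv ℝ f w + fderiv ℝ (fun w => (⟪a, φ w⟫ : ℝ)) w) z =
      fderiv ℝ (fderiv ℝ f) z + fderiv ℝ (fderiv ℝ (fun w => (⟪a, φ w⟫ : ℝ))) z :=
    fderiv_fun_add h3 h4
  rw [h1.fderiv_eq, h5, ContinuousLinearMap.add_apply, ContinuousLinearMap.add_apply,
    inner_fderiv2 hφ]

theorem PP_crit {φ : ℂ → E4} {f : ℂ → ℝ} {t : ℝ} {a : E4} {z : ℂ} (hφ : ContDiffAt ℝ ∞ φ z)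
    (hf : ContDiffAt ℝ ∞ f z) (hc : fderiv ℝ (PP φ f t a) z = 0) : E1 φ f t a z := by
  intro u
  have hφ1 : DifferentiableAt ℝ φ z := hφ.differentiableAt (by simp)
  have hf1 : DifferentiableAt ℝ f z := hf.differentiableAt (by simp)
  have hr : DifferentiableAt ℝ (rh φ) z := (rh_smooth hφ).differentiableAt (by simp)
  have hi : ContDiffAt ℝ ∞ (fun w => f w + ⟪a, φ w⟫) z := hf.add (contDiffAt_const.inner ℝ hφ)
  have := P_crit hr (hi.differentiableAt (by simp)) hc u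
  rw [this, fa_fderiv hφ1 hf1]

theorem PP_hess {φ : ℂ → E4} {f : ℂ → ℝ} {t : ℝ} {a : E4} {z : ℂ} (hφ : ContDiffAt ℝ ∞ φ z)
    (hf : ContDiffAt ℝ ∞ f z) (hc : fderiv ℝ (PP φ f t a) z = 0) (u v : ℂ) :
    fderiv ℝ (fderiv ℝ (PP φ f t a)) z u v =
      Real.exp (-(t * (f z + ⟪a, φ z⟫))) * (fderiv ℝ (fderiv ℝ (rh φ)) z u v -
        t * fderiv ℝ (rh φ) z u * (fderiv ℝ f z v + ⟪a, fderiv ℝ φ z v⟫) -
        t * rh φ z * (fderiv ℝ (fderiv ℝ f) z u v + ⟪a, d2 φ u v z⟫)) := by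
  have hφ1 : DifferentiableAt ℝ φ z := hφ.differentiableAt (by simp)
  have hf1 : DifferentiableAt ℝ f z := hf.differentiableAt (by simp)
  have hi : ContDiffAt ℝ ∞ (fun w => f w + ⟪a, φ w⟫) z := hf.add (contDiffAt_const.inner ℝ hφ)
  have h1 := P_hess (rh_smooth hφ) hi hc u v
  rw [fa_fderiv hφ1 hf1, fa_fderiv2 hφ hf] at h1
  exact h1

theorem PP_min {φ : ℂ → E4} {f : ℂ → ℝ} {t : ℝ} {a : E4} {z : ℂ} (hφ : ContDiffAt ℝ ∞ φ z)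
    (hf : ContDiffAt ℝ ∞ f z) (hr : 0 < rh φ z) (hm : IsLocalMin (PP φ f t a) z) :
    E1 φ f t a z ∧ E2 φ f t a z := by
  have hc := hm.fderiv_eq_zero
  have h1 := PP_crit hφ hf hc
  refine ⟨h1, fun u => ?_⟩
  have hi : ContDiffAt ℝ ∞ (fun w => f w + ⟪a, φ w⟫) z := hf.add (contDiffAt_const.inner ℝ hφ)
  have hs : ContDiffAt ℝ ∞ (PP φ f t a) z := by
    unfold PP
    exact (rh_smooth hφ).mul (contDiffAt_const.mul hi).neg.exp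
  have h2 := Pool.Agent.Y640.RB.soc (PP φ f t a) z hs hm u
  rw [PP_hess hφ hf hc] at h2
  have h3 := nonneg_of_mul_nonneg_right h2 (Real.exp_pos _)
  have h4 := mul_nonneg hr.le h3
  have h5 := h1 u
  have h6 : rh φ z * (fderiv ℝ (fderiv ℝ (rh φ)) z u u -
        t * fderiv ℝ (rh φ) z u * (fderiv ℝ f z u + ⟪a, fderiv ℝ φ z u⟫) -
        t * rh φ z * (fderiv ℝ (fderiv ℝ f) z u u + ⟪a, d2 φ u u z⟫)) =
      rh φ z * fderiv ℝ (fderiv ℝ (rh φ)) z u u - fderiv ℝ (rh φ) z u *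
        (t * rh φ z * (fderiv ℝ f z u + ⟪a, fderiv ℝ φ z u⟫)) -
        t * rh φ z ^ 2 * (fderiv ℝ (fderiv ℝ f) z u u + ⟪a, d2 φ u u z⟫) := by ring
  rw [h6, ← h5, ← sq] at h4
  exact h4

theorem lower_bound {F : Type*} [NormedAddCommGroup F] [NormedSpace ℝ F] {g : ℂ → F}
    {g' : ℂ →L[ℝ] F} {w : ℂ} (h : HasStrictFDerivAt g g' w) (hi : Function.Injective g') :
    ∃ c > 0, ∀ᶠ p : ℂ × ℂ in 𝓝 (w, w), c * ‖p.1 - p.2‖ ≤ ‖g p.1 - g p.2‖ := by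
  obtain ⟨K, hK, hK2⟩ := LinearMap.exists_antilipschitzWith (g' : ℂ →ₗ[ℝ] F)
    (LinearMap.ker_eq_bot.mpr hi)
  have hK0 : (0 : ℝ) < K := by exact_mod_cast hK
  refine ⟨(K : ℝ)⁻¹ / 2, by positivity, ?_⟩
  have h1 := h.isLittleO.def (c := (K : ℝ)⁻¹ / 2) (by positivity)
  filter_upwards [h1] with p hp
  have h2 : ‖p.1 - p.2‖ ≤ K * ‖g' (p.1 - p.2)‖ := by
    have := hK2.le_mul_dist p.1 p.2
    rw [dist_eq_norm, dist_eq_norm] at this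
    have h3 : (g' : ℂ →ₗ[ℝ] F) p.1 - (g' : ℂ →ₗ[ℝ] F) p.2 = g' (p.1 - p.2) := by
      simp
    rwa [h3] at this
  have h3 : (K : ℝ)⁻¹ * ‖p.1 - p.2‖ ≤ ‖g' (p.1 - p.2)‖ := by
    rw [inv_mul_le_iff₀ hK0]
    exact h2
  have h4 : ‖g' (p.1 - p.2)‖ ≤ ‖g p.1 - g p.2‖ + ‖g p.1 - g p.2 - g' (p.1 - p.2)‖ := by
    have : g' (p.1 - p.2) = (g p.1 - g p.2) - (g p.1 - g p.2 - g' (p.1 - p.2)) := by abel
    conv_lhs => rw [this]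
    exact norm_sub_le _ _
  linarith

theorem upper_bound {F : Type*} [NormedAddCommGroup F] [NormedSpace ℝ F] {g : ℂ → F}
    {w : ℂ} (h : ContDiffAt ℝ ∞ g w) :
    ∃ K > 0, ∀ᶠ p : ℂ × ℂ in 𝓝 (w, w), ‖g p.1 - g p.2‖ ≤ K * ‖p.1 - p.2‖ := by
  have h1 : ContDiffAt ℝ 1 g w := h.of_le (by exact_mod_cast le_top)
  have h2 := (h1.hasStrictFDerivAt (by simp)).isBigO_sub
  obtain ⟨K, hK, hK2⟩ := h2.exists_pos
  exact ⟨K, hK, hK2.bound⟩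

end Pool.Agent.Q196.SR
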