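import Pool.Agent.Q196.SR.NCore
import Pool.Agent.Q196.SR.Close
import Pool.Agent.Y232.RB.Ref
import Pool.Agent.Y297.RB.Lf
import Pool.Agent.Y977.RB.NFT

/-!
A linear function with few local maxima on the disc.
-/

set_option autoImplicit false

namespace Pool.Agent.Q196.SR

open scoped ContDiff RealInnerProductSpace ENNReal Topology
open MeasureTheory Set Metric Filter Pool.Agent.Y503.RB

theorem sff_lin_left (φ : ℂ → E4) (n : E4) (a b : ℝ) (v z : ℂ) :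
    sff φ n (a + b * Complex.I) v z = a * sff φ n 1 v z + b * sff φ n Complex.I v z := by
  unfold sff
  rw [d2_lin_left, inner_add_right, inner_smul_right, inner_smul_right]

theorem sff_symm (φ : ℂ → E4) (n : E4) (u v z : ℂ) (h : ContDiffAt ℝ ∞ φ z) :
    sff φ n u v z = sff φ n v u z := by
  unfold sff
  rw [Pool.Agent.Y640.RB.sym φ z h u v]

theorem sff_quad (φ : ℂ → E4) (n : E4) (a b : ℝ) (z : ℂ) (h : ContDiffAt ℝ ∞ φ z) :
    sff φ n (a + b * Complex.I) (a + b * Complex.I) z =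
      a ^ 2 * sff φ n 1 1 z + 2 * a * b * sff φ n 1 Complex.I z +
        b ^ 2 * sff φ n Complex.I Complex.I z := by
  rw [sff_lin_left, sff_symm φ n 1 _ z h, sff_symm φ n Complex.I _ z h, sff_lin_left,
    sff_lin_left, sff_symm φ n Complex.I 1 z h]
  ring

theorem sff_nondeg {φ : ℂ → E4} {n : E4} {z : ℂ} (hsm : ContDiffAt ℝ ∞ φ z)
    (hdet : sffDet φ n z ≠ 0) {u : ℂ} (h0 : ∀ v : ℂ, sff φ n u v z = 0) : u = 0 := by
  have hu : u = (u.re : ℂ) + (u.im : ℂ) * Complex.I := (Complex.re_add_im u).symm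
  have h1 : u.re * sff φ n 1 1 z + u.im * sff φ n Complex.I 1 z = 0 := by
    rw [← sff_lin_left, ← hu]
    exact h0 1
  have h2 : u.re * sff φ n 1 Complex.I z + u.im * sff φ n Complex.I Complex.I z = 0 := by
    rw [← sff_lin_left, ← hu]
    exact h0 Complex.I
  rw [sff_symm φ n Complex.I 1 z hsm] at h1
  unfold sffDet at hdet
  have h3 : u.re * (sff φ n 1 1 z * sff φ n Complex.I Complex.I z -
      sff φ n 1 Complex.I z ^ 2) = 0 := by
    linear_combination (sff φ n Complex.I Complex.I z) * h1 - (sff φ n 1 Complex.I z) * h2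
  have h4 : u.im * (sff φ n 1 1 z * sff φ n Complex.I Complex.I z -
      sff φ n 1 Complex.I z ^ 2) = 0 := by
    linear_combination (sff φ n 1 1 z) * h2 - (sff φ n 1 Complex.I z) * h1
  apply Complex.ext
  · exact (mul_eq_zero.mp h3).resolve_right hdet
  · exact (mul_eq_zero.mp h4).resolve_right hdet

theorem negDef_of_max {φ : ℂ → E4} {n : E4} {z : ℂ} (hsm : ContDiffAt ℝ ∞ φ z)
    (hdet : sffDet φ n z ≠ 0) (hmax : IsLocalMax (fun w => (⟪n, φ w⟫ : ℝ)) z) :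
    NegDef φ n z := by
  have hmin : IsLocalMin (fun w => (⟪-n, φ w⟫ : ℝ)) z := by
    have h1 : (fun w => (⟪-n, φ w⟫ : ℝ)) = fun w => -(⟪n, φ w⟫ : ℝ) := by
      funext w
      rw [inner_neg_left]
    rw [h1]
    exact hmax.neg
  have hs : ContDiffAt ℝ ∞ (fun w => (⟪-n, φ w⟫ : ℝ)) z := contDiffAt_const.inner ℝ hsm
  have h2 := Pool.Agent.Y640.RB.soc (fun w => (⟪-n, φ w⟫ : ℝ)) z hs hmin
  have h3 := inner_of_semidef (e := -sff φ n 1 1 z) (f := -sff φ n 1 Complex.I z)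
    (g := -sff φ n Complex.I Complex.I z) (by
      intro a b
      have h4 := h2 (a + b * Complex.I)
      rw [inner_fderiv2 hsm] at h4
      have h5 : (⟪-n, d2 φ (a + b * Complex.I) (a + b * Complex.I) z⟫ : ℝ) =
          -sff φ n (a + b * Complex.I) (a + b * Complex.I) z := by
        unfold sff
        rw [inner_neg_left]
      rw [h5, sff_quad φ n a b z hsm] at h4
      linarith) (by
      unfold sffDet at hdet
      intro h0
      apply hdet
      linarith)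
  refine ⟨by linarith [h3.1], ?_⟩
  unfold sffDet
  linarith [h3.2]

/-- The integral of the Jacobian. -/
theorem int_jac {φ N₁ N₂ : ℂ → E4} {U A : Set ℂ} (hP : Patch φ U) (hF : Frame φ N₁ N₂ U)
    (hA : MeasurableSet A) (hAU : A ⊆ U) :
    ∫⁻ x in {x : E4 | (zc x ∈ U ∧ NegDef φ (nor N₁ N₂ (x 2) (zc x)) (zc x) ∧ x 3 ∈ Ioo 0 1) ∧
        zc x ∈ A ∧ x 2 ∈ Ico 0 (2 * Real.pi)},
      ENNReal.ofReal |(fderiv ℝ (nmap N₁ N₂) x).det| ≤
      ENNReal.ofReal (1 / 4) * ∫⁻ z in A, ncurvAt φ z := by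
  have hae : AEMeasurable (fun q : ℝ × ℂ => ENNReal.ofReal (ndens φ (nor N₁ N₂ q.1 q.2) q.2))
      (volume.restrict (Ico 0 (2 * Real.pi) ×ˢ A)) :=
    (aem_ndens hP hF).mono_measure (Measure.restrict_mono (prod_mono subset_rfl hAU) le_rfl)
  have h1 := Pool.Agent.Y919.RB.FUB A
    (fun q : ℝ × ℂ => ENNReal.ofReal (ndens φ (nor N₁ N₂ q.1 q.2) q.2)) hA hae
  have hm : MeasurableSet {x : E4 | (zc x ∈ U ∧ NegDef φ (nor N₁ N₂ (x 2) (zc x)) (zc x) ∧
      x 3 ∈ Ioo 0 1) ∧ zc x ∈ A ∧ x 2 ∈ Ico 0 (2 * Real.pi)} := by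
    have h2 : {x : E4 | (zc x ∈ U ∧ NegDef φ (nor N₁ N₂ (x 2) (zc x)) (zc x) ∧
        x 3 ∈ Ioo 0 1) ∧ zc x ∈ A ∧ x 2 ∈ Ico 0 (2 * Real.pi)} =
        ((Pool.Agent.Y421.RB.Q ⁻¹' nset φ N₁ N₂ U) ∩ (fun x : E4 => x 3) ⁻¹' Ioo 0 1) ∩
        (zc ⁻¹' A ∩ (fun x : E4 => x 2) ⁻¹' Ico 0 (2 * Real.pi)) := by
      ext x
      simp only [mem_ofPred_eq, mem_inter_iff, mem_preimage, nset, Pool.Agent.Y421.RB.Q_apply]
      tauto
    rw [h2]
    refine MeasurableSet.inter (MeasurableSet.inter ?_ ?_) (MeasurableSet.inter ?_ ?_)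
    · exact ((isOpen_nset hP hF).preimage Pool.Agent.Y421.RB.Q.continuous).measurableSet
    · exact measurable_coord 3 measurableSet_Ioo
    · exact continuous_zc.measurable hA
    · exact measurable_coord 2 measurableSet_Ico
  calc ∫⁻ x in {x : E4 | (zc x ∈ U ∧ NegDef φ (nor N₁ N₂ (x 2) (zc x)) (zc x) ∧
        x 3 ∈ Ioo 0 1) ∧ zc x ∈ A ∧ x 2 ∈ Ico 0 (2 * Real.pi)},
        ENNReal.ofReal |(fderiv ℝ (nmap N₁ N₂) x).det|
      = ∫⁻ x in {x : E4 | (zc x ∈ U ∧ NegDef φ (nor N₁ N₂ (x 2) (zc x)) (zc x) ∧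
        x 3 ∈ Ioo 0 1) ∧ zc x ∈ A ∧ x 2 ∈ Ico 0 (2 * Real.pi)},
        ENNReal.ofReal (x 3 ^ 3) *
          ENNReal.ofReal (ndens φ (nor N₁ N₂ (x 2) (zc x)) (zc x)) := by
        refine setLIntegral_congr_fun hm ?_
        intro x hx
        have h2 := (ndet hP hF hx.1.1).2
        have h3 : 0 < x 3 := hx.1.2.2.1
        beta_reduce
        rw [h2, abs_of_pos h3, ENNReal.ofReal_mul (by positivity)]
        congr 2
        unfold ndens
        rw [if_pos hx.1.2.1, abs_of_pos hx.1.2.1.2]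
    _ ≤ ∫⁻ x in {x : E4 | zc x ∈ A ∧ x 2 ∈ Ico 0 (2 * Real.pi) ∧ x 3 ∈ Ioo 0 1},
        ENNReal.ofReal (x 3 ^ 3) *
          ENNReal.ofReal (ndens φ (nor N₁ N₂ (x 2) (zc x)) (zc x)) := by
        refine lintegral_mono_set ?_
        intro x hx
        exact ⟨hx.2.1, hx.2.2, hx.1.2.2⟩
    _ = ENNReal.ofReal (1 / 4) * ∫⁻ z in A, ∫⁻ θ in Ico 0 (2 * Real.pi),
        ENNReal.ofReal (ndens φ (nor N₁ N₂ θ z) z) := h1
    _ ≤ ENNReal.ofReal (1 / 4) * ∫⁻ z in A, ncurvAt φ z := by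
        refine mul_le_mul_right (setLIntegral_mono' hA fun z hz => ?_) _
        exact ncurv_le hF (hAU hz)

/-- A direction in which the disc has few local maxima. -/
theorem good_dir {φ : ℂ → E4} {U : Set ℂ} (hP : Patch φ U) (m : ℕ) (Z : Set E4)
    (hZ : volume Z = 0)
    (hT : ∫⁻ z in U, ncurvAt φ z < ENNReal.ofReal (2 * Real.pi ^ 2 * (m + 1))) :
    ∃ (v : E4) (r : ℝ), ‖v‖ = 1 ∧ 0 < r ∧ r • v ∉ Z ∧
      (∀ z ∈ U, fderiv ℝ (fun w => (⟪v, φ w⟫ : ℝ)) z = 0 → ∀ u : ℂ,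
        (∀ w : ℂ, fderiv ℝ (fderiv ℝ (fun w => (⟪v, φ w⟫ : ℝ))) z u w = 0) → u = 0) ∧
      {z : ℂ | z ∈ U ∧ IsLocalMax (fun w => (⟪v, φ w⟫ : ℝ)) z}.encard ≤ m := by
  classical
  obtain ⟨N₁, N₂, U', h, hU⟩ := Pool.Agent.Y232.RB.Ref.cover Pool.Agent.Y297.RB.lf hP
  have hdm : ∀ j, MeasurableSet (disjointed U' j) :=
    fun j => MeasurableSet.disjointed (fun i => (h i).1.measurableSet) j
  set A : ℕ → Set ℂ := fun j => disjointed U' j with hA
  have hsub : ∀ j, A j ⊆ U' j := fun j => disjointed_subset U' j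
  have hP' : ∀ j, Patch φ (U' j) := fun j => Pool.Agent.Y232.RB.Ref.patch_mono hP (h j).2.2 (h j).1
  have hcov : ∀ z ∈ U, ∃ j, z ∈ A j := by
    intro z hz
    have h1 : z ∈ ⋃ j, disjointed U' j := by
      rw [iUnion_disjointed]
      exact hU hz
    exact mem_iUnion.1 h1
  set P : ℕ → Set E4 := fun j => {x | zc x ∈ U' j ∧
    NegDef φ (nor (N₁ j) (N₂ j) (x 2) (zc x)) (zc x) ∧ x 3 ∈ Ioo 0 1} with hPd
  set Q : ℕ → Set E4 := fun j => {x | x ∈ P j ∧ zc x ∈ A j ∧ x 2 ∈ Ico 0 (2 * Real.pi)} with hQd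
  have hPo : ∀ j, IsOpen (P j) := by
    intro j
    have h2 : P j = (Pool.Agent.Y421.RB.Q ⁻¹' nset φ (N₁ j) (N₂ j) (U' j)) ∩
        (fun x : E4 => x 3) ⁻¹' Ioo 0 1 := by
      ext x
      simp only [hPd, mem_ofPred_eq, mem_inter_iff, mem_preimage, nset,
        Pool.Agent.Y421.RB.Q_apply]
      tauto
    rw [h2]
    have hc3 : Continuous (fun x : E4 => x 3) := by fun_prop
    exact ((isOpen_nset (hP' j) (h j).2.1).preimage Pool.Agent.Y421.RB.Q.continuous).inter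
      (isOpen_Ioo.preimage hc3)
  have hQm : ∀ j, MeasurableSet (Q j) := by
    intro j
    exact (hPo j).measurableSet.inter ((continuous_zc.measurable (hdm j)).inter
      (measurable_coord 2 measurableSet_Ico))
  have hdet : ∀ j, ∀ x ∈ P j, (fderiv ℝ (nmap (N₁ j) (N₂ j)) x).det ≠ 0 := by
    intro j x hx h0
    have h1 := (ndet (hP' j) (h j).2.1 hx.1).2
    rw [h0, abs_zero] at h1
    have h3 : 0 < x 3 := hx.2.2.1
    have h4 := hx.2.1.2
    have h5 : 0 < √(fffDet φ (zc x)) :=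
      Real.sqrt_pos.mpr (Pool.Agent.Y421.RB.fffDet_pos ((hP' j).imm _ hx.1))
    have h6 : 0 < |sffDet φ (nor (N₁ j) (N₂ j) (x 2) (zc x)) (zc x)| := abs_pos.mpr h4.ne'
    have h7 : 0 < |x 3| ^ 3 * (|sffDet φ (nor (N₁ j) (N₂ j) (x 2) (zc x)) (zc x)| /
        √(fffDet φ (zc x))) := by positivity
    linarith
  have hsum : ∑' j, ∫⁻ x in Q j, ENNReal.ofReal |(fderiv ℝ (nmap (N₁ j) (N₂ j)) x).det| <
      ((m + 1 : ℕ) : ℝ≥0∞) * ENNReal.ofReal (Real.pi ^ 2 / 2) := by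
    calc ∑' j, ∫⁻ x in Q j, ENNReal.ofReal |(fderiv ℝ (nmap (N₁ j) (N₂ j)) x).det|
        ≤ ∑' j, ENNReal.ofReal (1 / 4) * ∫⁻ z in A j, ncurvAt φ z :=
          ENNReal.tsum_le_tsum fun j => int_jac (hP' j) (h j).2.1 (hdm j) (hsub j)
      _ = ENNReal.ofReal (1 / 4) * ∫⁻ z in ⋃ j, A j, ncurvAt φ z := by
          rw [ENNReal.tsum_mul_left, lintegral_iUnion hdm]
          intro i j hij
          exact disjoint_disjointed U' hij
      _ ≤ ENNReal.ofReal (1 / 4) * ∫⁻ z in U, ncurvAt φ z := by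
          refine mul_le_mul_right (lintegral_mono_set ?_) _
          exact iUnion_subset fun j => (hsub j).trans (h j).2.2
      _ < ENNReal.ofReal (1 / 4) * ENNReal.ofReal (2 * Real.pi ^ 2 * (m + 1)) := by
          refine ENNReal.mul_lt_mul_right ?_ ?_ hT
          · simp
          · exact ENNReal.ofReal_ne_top
      _ = ((m + 1 : ℕ) : ℝ≥0∞) * ENNReal.ofReal (Real.pi ^ 2 / 2) := by
          rw [← ENNReal.ofReal_mul (by norm_num), ← ENNReal.ofReal_natCast,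
            ← ENNReal.ofReal_mul (by positivity)]
          congr 1
          push_cast
          ring
  obtain ⟨y, hy0, hy1, hyZ, hreg, hcnt⟩ := core_abs (ι := ℕ) (fun j => nmap (N₁ j) (N₂ j))
    (fun j => {x | zc x ∈ U' j}) P Q hPo
    (fun j x hx => (ndet (hP' j) (h j).2.1 hx.1).1.contDiffWithinAt) hdet hQm
    (fun j x hx => hx.1)
    (fun j x hx => (ndet (hP' j) (h j).2.1 hx).1.differentiableAt (by simp)) Z hZ m hsum
  set r := ‖y‖ with hr
  set v : E4 := r⁻¹ • y with hvd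
  have hv : ‖v‖ = 1 := by
    rw [hvd, norm_smul, Real.norm_eq_abs, abs_of_pos (inv_pos.mpr hy0), ← hr,
      inv_mul_cancel₀ hy0.ne']
  have hyr : r • v = y := by
    rw [hvd, smul_smul, mul_inv_cancel₀ hy0.ne', one_smul]
  have hsm : ∀ z ∈ U, ContDiffAt ℝ ∞ φ z := fun z hz =>
    hP.smooth.contDiffAt (hP.isOpen.mem_nhds hz)
  -- critical points
  have hcrit : ∀ z ∈ U, fderiv ℝ (fun w => (⟪v, φ w⟫ : ℝ)) z = 0 →
      ∀ j, z ∈ U' j → ∃ θ ∈ Ico 0 (2 * Real.pi), nor (N₁ j) (N₂ j) θ z = v ∧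
        nmap (N₁ j) (N₂ j) (mk4 z θ r) = y ∧ sffDet φ v z ≠ 0 := by
    intro z hz hc j hj
    have hperp : ∀ u : ℂ, (⟪v, d1 φ u z⟫ : ℝ) = 0 := by
      intro u
      have h1 := inner_fderiv ((hsm z hz).differentiableAt (by simp)) v u
      rw [hc] at h1
      exact h1.symm
    obtain ⟨θ, hθ, hn⟩ := Pool.Agent.Y977.RB.frame φ (N₁ j) (N₂ j) (U' j) (hP' j) (h j).2.1 z hj v
      hv hperp
    have hmap : nmap (N₁ j) (N₂ j) (mk4 z θ r) = y := by
      unfold nmap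
      rw [mk4_zc, mk4_two, mk4_three, ← hn, hyr]
    refine ⟨θ, hθ, hn.symm, hmap, ?_⟩
    intro h0
    have h1 := hreg j (mk4 z θ r) (by simpa using hj) hmap
    have h2 := (ndet (hP' j) (h j).2.1 (x := mk4 z θ r) (by simpa using hj)).2
    rw [mk4_zc, mk4_two, mk4_three, ← hn, h0] at h2
    simp at h2
    exact h1 h2
  refine ⟨v, r, hv, hy0, by rwa [hyr], ?_, ?_⟩
  · intro z hz hc u hu
    obtain ⟨j, hj⟩ := mem_iUnion.mp (hU hz)
    obtain ⟨θ, -, -, -, hd⟩ := hcrit z hz hc j hj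
    refine sff_nondeg (hsm z hz) hd fun w => ?_
    have h1 := hu w
    rw [inner_fderiv2 (hsm z hz)] at h1
    exact h1
  · refine encard_le_of_finset fun s hs' => ?_
    have hpt : ∀ z : ℂ, ∃ (j : ℕ) (θ : ℝ), (z ∈ s → mk4 z θ r ∈ Q j ∧
        nmap (N₁ j) (N₂ j) (mk4 z θ r) = y) := by
      intro z
      by_cases hz : z ∈ s
      · obtain ⟨hz1, hz2⟩ := hs' z hz
        obtain ⟨j, hj⟩ := hcov z hz1
        have hc : fderiv ℝ (fun w => (⟪v, φ w⟫ : ℝ)) z = 0 := hz2.fderiv_eq_zero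
        obtain ⟨θ, hθ, hn, hmap, hd⟩ := hcrit z hz1 hc j (hsub j hj)
        refine ⟨j, θ, fun _ => ⟨⟨⟨?_, ?_, ?_⟩, ?_, ?_⟩, hmap⟩⟩
        · simpa using hsub j hj
        · rw [mk4_zc, mk4_two, hn]
          exact negDef_of_max (hsm z hz1) hd hz2
        · rw [mk4_three]
          exact ⟨hy0, hy1⟩
        · simpa using hj
        · simpa using hθ
      · exact ⟨0, 0, fun h => absurd h hz⟩
    choose j θ hθ using hpt
    have hinj : Function.Injective (fun z : ℂ => (j z, mk4 z (θ z) r)) := by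
      intro a b hab
      have := congrArg (fun p : ℕ × E4 => zc p.2) hab
      simpa using this
    have := hcnt (s.map ⟨_, hinj⟩) ?_
    · simpa using this
    · intro p hp
      obtain ⟨z, hz, rfl⟩ := Finset.mem_map.mp hp
      exact hθ z hz

end Pool.Agent.Q196.SR
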