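import Pool.Agent.Q196.SR.Generic
import Pool.Agent.Q196.SR.GoodDir

/-!
Normal vectors at the boundary form a null set.
-/

set_option autoImplicit false

namespace Pool.Agent.Q196.SR

open scoped ContDiff RealInnerProductSpace ENNReal Topology
open MeasureTheory Set Metric Filter Pool.Agent.Y503.RB

theorem half_patch {φ : ℂ → E4} (h : SliceDisc φ) :
    ∃ U : Set ℂ, closedBall 0 1 ⊆ U ∧ Patch (fun w => (1 / 2 : ℝ) • φ w) U ∧
      ∀ z ∈ U, DifferentiableAt ℝ φ z := by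
  obtain ⟨W, hW, hsub, hs⟩ := h.smooth
  have hc : ContinuousOn (fderiv ℝ φ) W := hs.continuousOn_fderiv_of_isOpen hW (by simp)
  have hO1 := hc.isOpen_inter_preimage hW
    (ContinuousLinearMap.isOpen_injective (𝕜 := ℝ) (E := ℂ) (F := E4))
  have hO2 := hs.continuousOn.norm.isOpen_inter_preimage hW isOpen_Iio (t := Iio 2)
  have hd : ∀ z ∈ W, DifferentiableAt ℝ φ z := fun z hz =>
    (hs.contDiffAt (hW.mem_nhds hz)).differentiableAt (by simp)
  refine ⟨_, ?_, ⟨hO1.inter hO2, ?_, ?_, ?_⟩, fun z hz => hd z hz.1.1⟩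
  · intro z hz
    refine ⟨⟨hsub hz, h.imm z hz⟩, ⟨hsub hz, ?_⟩⟩
    show ‖φ z‖ < 2
    have : ‖φ z‖ ≤ 1 := by
      rcases eq_or_lt_of_le (mem_closedBall.mp hz) with h1 | h1
      · exact (h.bdry z h1).le
      · exact (h.inside z h1).le
    linarith
  · have h3 : ContDiffOn ℝ ∞ (fun w => (1 / 2 : ℝ) • φ w) W := hs.const_smul (1 / 2 : ℝ)
    refine h3.mono ?_
    intro z hz
    exact hz.1.1
  · intro z hz
    have h1 : fderiv ℝ (fun w => (1 / 2 : ℝ) • φ w) z = (1 / 2 : ℝ) • fderiv ℝ φ z :=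
      fderiv_fun_const_smul (hd z hz.1.1) _
    rw [h1]
    intro a b hab
    have h2 : (1 / 2 : ℝ) • fderiv ℝ φ z a = (1 / 2 : ℝ) • fderiv ℝ φ z b := hab
    exact hz.1.2 (smul_right_injective E4 (by norm_num : (1 / 2 : ℝ) ≠ 0) h2)
  · intro z hz
    have h1 : ‖φ z‖ < 2 := hz.2.2
    show ‖(1 / 2 : ℝ) • φ z‖ < 1
    rw [norm_smul]
    norm_num
    linarith

theorem cyl_null : volume {x : E4 | zc x ∈ sphere (0 : ℂ) 1} = 0 := by
  have hset : {x : E4 | zc x ∈ sphere (0 : ℂ) 1} =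
      Pool.Agent.Y919.RB.coE ⁻¹' ((univ : Set ℝ) ×ˢ ((univ : Set ℝ) ×ˢ sphere (0 : ℂ) 1)) := by
    ext x
    simp only [mem_ofPred_eq, mem_preimage, Pool.Agent.Y919.RB.coE_apply, mem_prod, mem_univ,
      true_and]
  have hm : MeasurableSet ((univ : Set ℝ) ×ˢ ((univ : Set ℝ) ×ˢ sphere (0 : ℂ) 1)) :=
    MeasurableSet.univ.prod (MeasurableSet.univ.prod isClosed_sphere.measurableSet)
  rw [hset, Pool.Agent.Y919.RB.coE_mp.measure_preimage hm.nullMeasurableSet]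
  have h1 : volume (sphere (0 : ℂ) 1) = 0 := Measure.addHaar_sphere volume 0 1
  have h2 : (volume : Measure (ℝ × ℂ)) ((univ : Set ℝ) ×ˢ sphere (0 : ℂ) 1) = 0 := by
    rw [Measure.volume_eq_prod, Measure.prod_prod, h1, mul_zero]
  rw [Measure.volume_eq_prod, Measure.prod_prod, h2, mul_zero]

/-- Vectors normal to the disc at a boundary point. -/
theorem bd_null {φ : ℂ → E4} (h : SliceDisc φ) :
    volume {y : E4 | ∃ z ∈ sphere (0 : ℂ) 1, ∀ u : ℂ, (⟪y, fderiv ℝ φ z u⟫ : ℝ) = 0} = 0 := by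
  obtain ⟨U, hU, hP, hd⟩ := half_patch h
  obtain ⟨N₁, N₂, U', h1, h2⟩ := Pool.Agent.Y232.RB.Ref.cover Pool.Agent.Y297.RB.lf hP
  set G : ℕ → E4 → E4 := fun j x => x 2 • N₁ j (zc x) + x 3 • N₂ j (zc x) with hG
  have hsub : {y : E4 | ∃ z ∈ sphere (0 : ℂ) 1, ∀ u : ℂ, (⟪y, fderiv ℝ φ z u⟫ : ℝ) = 0} ⊆
      ⋃ j, G j '' {x | zc x ∈ U' j ∧ zc x ∈ sphere (0 : ℂ) 1} := by
    rintro y ⟨z, hz, hy⟩
    have hzU := hU (sphere_subset_closedBall hz)
    obtain ⟨j, hj⟩ := mem_iUnion.mp (h2 hzU)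
    have hf : ∀ u, fderiv ℝ (fun w => (1 / 2 : ℝ) • φ w) z u = (1 / 2 : ℝ) • fderiv ℝ φ z u := by
      intro u
      have : fderiv ℝ (fun w => (1 / 2 : ℝ) • φ w) z = (1 / 2 : ℝ) • fderiv ℝ φ z :=
        fderiv_fun_const_smul (hd z hzU) _
      rw [this]
      rfl
    obtain ⟨α, β, hαβ⟩ := span_of_orth
      (Pool.Agent.Y232.RB.Ref.patch_mono hP (h1 j).2.2 (h1 j).1) (h1 j).2.1 hj (v := y) (by
        intro u
        rw [hf, inner_smul_right, hy u, mul_zero])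
    refine mem_iUnion.mpr ⟨j, mk4 z α β, ⟨by simpa using hj, by simpa using hz⟩, ?_⟩
    simp only [hG, mk4_zc, mk4_two, mk4_three]
    exact hαβ.symm
  refine measure_mono_null hsub (measure_iUnion_null fun j => ?_)
  refine addHaar_image_eq_zero_of_differentiableOn_of_addHaar_eq_zero volume ?_
    (measure_mono_null (fun x hx => hx.2) cyl_null)
  intro x hx
  have hUn : U' j ∈ 𝓝 (zc x) := (h1 j).1.mem_nhds hx.1
  have hN1 : DifferentiableAt ℝ (N₁ j) (zc x) :=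
    ((h1 j).2.1.smooth₁.contDiffAt hUn).differentiableAt (by simp)
  have hN2 : DifferentiableAt ℝ (N₂ j) (zc x) :=
    ((h1 j).2.1.smooth₂.contDiffAt hUn).differentiableAt (by simp)
  have hzc : DifferentiableAt ℝ (zc : E4 → ℂ) x := by
    have : (zc : E4 → ℂ) = fun x => Pool.Agent.Y977.RB.zcL x :=
      funext fun x => (Pool.Agent.Y977.RB.zcL_apply x).symm
    rw [this]
    exact Pool.Agent.Y977.RB.zcL.differentiableAt
  have h3 : DifferentiableAt ℝ (fun x : E4 => N₁ j (zc x)) x :=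
    DifferentiableAt.comp (f := zc) (g := N₁ j) x hN1 hzc
  have h4 : DifferentiableAt ℝ (fun x : E4 => N₂ j (zc x)) x :=
    DifferentiableAt.comp (f := zc) (g := N₂ j) x hN2 hzc
  have hp : ∀ i : Fin 4, DifferentiableAt ℝ (fun y : E4 => y i) x := fun i =>
    (EuclideanSpace.proj (𝕜 := ℝ) i : E4 →L[ℝ] ℝ).differentiableAt
  exact (((hp 2).smul h3).add ((hp 3).smul h4)).differentiableWithinAt

end Pool.Agent.Q196.SR
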