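import Pool.Agent.Q196.SR.MainA
import Pool.Agent.Q196.SR.Bdry

/-!
Total curvature and Willmore energy of slice discs.
-/

set_option autoImplicit false

namespace Pool.Agent.Q196.SR

open scoped ContDiff RealInnerProductSpace ENNReal Topology
open MeasureTheory Set Metric Filter Pool.Agent.Y503.RB

/-- Slice discs of small total curvature. -/
theorem curvature_criterion {φ : ℂ → E4} (hφ : SliceDisc φ) (m : ℕ)
    (hT : ∫⁻ z in ball (0 : ℂ) 1, ncurvAt φ z < ENNReal.ofReal (2 * Real.pi ^ 2 * (m + 1))) :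
    ∃ (q : E4) (F : E4 → E4), BallDiffeo q F ∧ (∀ z ∈ closedBall (0 : ℂ) 1, φ z ≠ q) ∧
      SliceDisc (fun w => F (φ w)) ∧ MorseDisc (fun w => F (φ w)) m := by
  obtain ⟨v, r, hv, hr, hrZ, hm, hmax⟩ := good_dir hφ.patch m _ (bd_null hφ) hT
  refine convex_criterion (h := fun x => (⟪v, x⟫ : ℝ)) (V := univ) hφ isOpen_univ (subset_univ _)
    (contDiff_const.inner ℝ contDiff_id).contDiffOn ?_ hm ?_ hmax
  · refine ⟨convex_closedBall _ _, fun x _ y _ α β _ _ _ => ?_⟩
    simp only [inner_add_right, inner_smul_right, smul_eq_mul]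
    exact le_rfl
  · intro z hz h0
    apply hrZ
    refine ⟨z, hz, fun u => ?_⟩
    have h1 := inner_fderiv ((sd_at hφ (sphere_subset_closedBall hz)).differentiableAt (by simp)) v u
    rw [h0] at h1
    rw [inner_smul_left, ← h1]
    simp

/-- Mean curvature vector at `φ z`: half of the trace of the second fundamental form with values
in the normal plane. -/
noncomputable def meanCurv (φ : ℂ → E4) (z : ℂ) : E4 :=
  (2 * fffDet φ z)⁻¹ • (Submodule.span ℝ {d1 φ 1 z, d1 φ Complex.I z})ᗮ.starProjection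
    (fff φ Complex.I Complex.I z • d2 φ 1 1 z - (2 * fff φ 1 Complex.I z) • d2 φ 1 Complex.I z +
      fff φ 1 1 z • d2 φ Complex.I Complex.I z)

/-- Willmore energy of the disc: integral of `|H|²` with respect to the area. -/
noncomputable def willmore (φ : ℂ → E4) : ℝ≥0∞ :=
  ∫⁻ z in ball (0 : ℂ) 1, ENNReal.ofReal (‖meanCurv φ z‖ ^ 2 * √(fffDet φ z))

theorem meanCurv_inner {φ : ℂ → E4} {z : ℂ} {n : E4} (hn : ∀ v : ℂ, (⟪n, d1 φ v z⟫ : ℝ) = 0) :
    (⟪n, meanCurv φ z⟫ : ℝ) = (2 * fffDet φ z)⁻¹ * (fff φ Complex.I Complex.I z * sff φ n 1 1 z -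
      2 * fff φ 1 Complex.I z * sff φ n 1 Complex.I z +
      fff φ 1 1 z * sff φ n Complex.I Complex.I z) := by
  have hmem : n ∈ (Submodule.span ℝ {d1 φ 1 z, d1 φ Complex.I z})ᗮ := by
    rw [Submodule.mem_orthogonal]
    intro u hu
    obtain ⟨a, b, rfl⟩ := Submodule.mem_span_pair.mp hu
    rw [inner_add_left, inner_smul_left, inner_smul_left, real_inner_comm, hn 1,
      real_inner_comm, hn Complex.I]
    simp
  unfold meanCurv
  rw [inner_smul_right, ← Submodule.inner_starProjection_left_eq_right,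
    Submodule.starProjection_eq_self_iff.mpr hmem, inner_add_right, inner_sub_right,
    inner_smul_right, inner_smul_right, inner_smul_right]
  rfl

theorem disc_ineq {E F G a b c : ℝ} (hE : 0 < E) (hD : 0 < E * G - F ^ 2) :
    4 * (E * G - F ^ 2) * (a * c - b ^ 2) ≤ (G * a - 2 * F * b + E * c) ^ 2 := by
  have h1 : E ^ 2 * ((G * a - 2 * F * b + E * c) ^ 2 - 4 * (E * G - F ^ 2) * (a * c - b ^ 2)) =
      (E * (E * c - G * a) - 2 * F * (E * b - F * a)) ^ 2 +
        4 * (E * G - F ^ 2) * (E * b - F * a) ^ 2 := by ring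
  have h2 : 0 ≤ E ^ 2 * ((G * a - 2 * F * b + E * c) ^ 2 -
      4 * (E * G - F ^ 2) * (a * c - b ^ 2)) := by
    rw [h1]
    positivity
  have h3 : 0 < E ^ 2 := by positivity
  have h4 := nonneg_of_mul_nonneg_right h2 h3
  linarith

/-- Pointwise comparison. -/
theorem ndens_le {φ : ℂ → E4} {z : ℂ} (hi : Function.Injective (fderiv ℝ φ z)) {n : E4}
    (hn : ∀ v : ℂ, (⟪n, d1 φ v z⟫ : ℝ) = 0) :
    ndens φ n z ≤ ⟪n, meanCurv φ z⟫ ^ 2 * √(fffDet φ z) := by
  have hD : 0 < fffDet φ z := Pool.Agent.Y421.RB.fffDet_pos hi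
  have hs : 0 < √(fffDet φ z) := Real.sqrt_pos.mpr hD
  unfold ndens
  split_ifs with h
  · have hE : 0 < fff φ 1 1 z := by
      have h1 : d1 φ 1 z ≠ 0 := by
        intro h0
        have : fderiv ℝ φ z 1 = fderiv ℝ φ z 0 := by rw [map_zero]; exact h0
        exact one_ne_zero (hi this)
      exact real_inner_self_pos.2 h1
    have h1 := disc_ineq (E := fff φ 1 1 z) (F := fff φ 1 Complex.I z)
      (G := fff φ Complex.I Complex.I z) (a := sff φ n 1 1 z) (b := sff φ n 1 Complex.I z)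
      (c := sff φ n Complex.I Complex.I z) hE hD
    have h2 : 4 * fffDet φ z * sffDet φ n z ≤ (fff φ Complex.I Complex.I z * sff φ n 1 1 z -
      2 * fff φ 1 Complex.I z * sff φ n 1 Complex.I z +
      fff φ 1 1 z * sff φ n Complex.I Complex.I z) ^ 2 := h1
    rw [meanCurv_inner hn, mul_pow, div_le_iff₀ hs, mul_assoc, Real.mul_self_sqrt hD.le]
    have h3 : (2 * fffDet φ z)⁻¹ ^ 2 * (fff φ Complex.I Complex.I z * sff φ n 1 1 z -
      2 * fff φ 1 Complex.I z * sff φ n 1 Complex.I z +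
      fff φ 1 1 z * sff φ n Complex.I Complex.I z) ^ 2 * fffDet φ z =
      (fff φ Complex.I Complex.I z * sff φ n 1 1 z -
      2 * fff φ 1 Complex.I z * sff φ n 1 Complex.I z +
      fff φ 1 1 z * sff φ n Complex.I Complex.I z) ^ 2 / (4 * fffDet φ z) := by
      field_simp
      ring
    rw [h3, le_div_iff₀ (by positivity)]
    linarith
  · positivity

theorem ndens_neg {φ : ℂ → E4} {z : ℂ} {n : E4} (h : NegDef φ n z) : ndens φ (-n) z = 0 := by
  unfold ndens
  rw [if_neg]
  rintro ⟨h1, -⟩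
  have h2 := h.1
  unfold sff at h1 h2
  rw [inner_neg_left] at h1
  linarith

theorem ndens_pair {φ : ℂ → E4} {z : ℂ} (hi : Function.Injective (fderiv ℝ φ z)) {n : E4}
    (hn : ∀ v : ℂ, (⟪n, d1 φ v z⟫ : ℝ) = 0) :
    ENNReal.ofReal (ndens φ n z) + ENNReal.ofReal (ndens φ (-n) z) ≤
      ENNReal.ofReal (⟪n, meanCurv φ z⟫ ^ 2 * √(fffDet φ z)) := by
  have hn' : ∀ v : ℂ, (⟪-n, d1 φ v z⟫ : ℝ) = 0 := fun v => by rw [inner_neg_left, hn v, neg_zero]
  by_cases h : NegDef φ n z
  · rw [ndens_neg h, ENNReal.ofReal_zero, add_zero]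
    exact ENNReal.ofReal_le_ofReal (ndens_le hi hn)
  · have h1 : ndens φ n z = 0 := by
      unfold ndens
      rw [if_neg h]
    rw [h1, ENNReal.ofReal_zero, zero_add]
    have h2 := ndens_le hi hn'
    rw [inner_neg_left, neg_sq] at h2
    exact ENNReal.ofReal_le_ofReal h2

theorem int_half (a b : ℝ) :
    ∫ θ in (0 : ℝ)..Real.pi, (a * Real.cos θ + b * Real.sin θ) ^ 2 = (a ^ 2 + b ^ 2) * (Real.pi / 2) := by
  have h1 : ∀ θ : ℝ, (a * Real.cos θ + b * Real.sin θ) ^ 2 =
      a ^ 2 * Real.cos θ ^ 2 + 2 * a * b * (Real.sin θ * Real.cos θ) + b ^ 2 * Real.sin θ ^ 2 := by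
    intro θ
    ring
  simp_rw [h1]
  rw [intervalIntegral.integral_add, intervalIntegral.integral_add,
    intervalIntegral.integral_const_mul, intervalIntegral.integral_const_mul,
    intervalIntegral.integral_const_mul, integral_cos_sq, integral_sin_sq, integral_sin_mul_cos₁]
  · simp
    ring
  all_goals
    apply Continuous.intervalIntegrable
    fun_prop

/-- Comparison of the curvature with the mean curvature. -/
theorem ncurvAt_le {φ : ℂ → E4} {z : ℂ} (hi : Function.Injective (fderiv ℝ φ z)) :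
    ncurvAt φ z ≤ ENNReal.ofReal (Real.pi / 2) *
      ENNReal.ofReal (‖meanCurv φ z‖ ^ 2 * √(fffDet φ z)) := by
  unfold ncurvAt
  refine iSup₂_le fun L hL => ?_
  set g : ℝ → ℝ≥0∞ := fun θ => ENNReal.ofReal (ndens φ (L ⟨Real.cos θ, Real.sin θ⟩) z) with hg
  have hpi := Real.pi_pos
  have hsplit : ∫⁻ θ in Ico 0 (2 * Real.pi), g θ =
      (∫⁻ θ in Ico 0 Real.pi, g θ) + ∫⁻ θ in Ico 0 Real.pi, g (θ + Real.pi) := by
    have h1 : Ico 0 (2 * Real.pi) = Ico 0 Real.pi ∪ Ico Real.pi (2 * Real.pi) :=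
      (Ico_union_Ico_eq_Ico hpi.le (by linarith)).symm
    rw [h1, lintegral_union measurableSet_Ico (by
      rw [Set.disjoint_left]
      intro x hx hx2
      exact absurd hx.2 (not_lt.mpr hx2.1))]
    congr 1
    have h2 := (measurePreserving_add_right (volume : Measure ℝ) Real.pi).setLIntegral_comp_emb
      (MeasurableEquiv.addRight Real.pi).measurableEmbedding g (Ico 0 Real.pi)
    rw [h2, image_add_const_Ico, zero_add]
    congr 3
    ring
  have hneg : ∀ θ : ℝ, g (θ + Real.pi) =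
      ENNReal.ofReal (ndens φ (-(L ⟨Real.cos θ, Real.sin θ⟩)) z) := by
    intro θ
    simp only [hg]
    have h3 : (⟨-Real.cos θ, -Real.sin θ⟩ : ℂ) = -⟨Real.cos θ, Real.sin θ⟩ := rfl
    rw [Real.cos_add_pi, Real.sin_add_pi, ← L.map_neg, h3]
  set a : ℝ := ⟪L 1, meanCurv φ z⟫ with ha
  set b : ℝ := ⟪L Complex.I, meanCurv φ z⟫ with hb
  have hLt : ∀ θ : ℝ, (⟪L ⟨Real.cos θ, Real.sin θ⟩, meanCurv φ z⟫ : ℝ) =
      a * Real.cos θ + b * Real.sin θ := by
    intro θ
    have h2 : ∀ x y : ℝ, (⟨x, y⟩ : ℂ) = x • (1 : ℂ) + y • Complex.I := by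
      intro x y
      apply Complex.ext <;> simp
    rw [h2, L.map_add, L.map_smul, L.map_smul, inner_add_left, inner_smul_left, inner_smul_left]
    simp
    ring
  have hbess : a ^ 2 + b ^ 2 ≤ ‖meanCurv φ z‖ ^ 2 := by
    have i1 : (⟪L 1, L 1⟫ : ℝ) = 1 := by
      rw [L.inner_map_map]
      simp [Complex.inner]
    have i2 : (⟪L Complex.I, L Complex.I⟫ : ℝ) = 1 := by
      rw [L.inner_map_map]
      simp [Complex.inner]
    have i3 : (⟪L 1, L Complex.I⟫ : ℝ) = 0 := by
      rw [L.inner_map_map]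
      simp [Complex.inner]
    have h1 : (0 : ℝ) ≤ ‖meanCurv φ z - (a • L 1 + b • L Complex.I)‖ ^ 2 := by positivity
    rw [← real_inner_self_eq_norm_sq] at h1 ⊢
    simp only [inner_sub_left, inner_sub_right, inner_add_left, inner_add_right, inner_smul_left,
      inner_smul_right, conj_trivial, i1, i2, i3, real_inner_comm (L 1) (L Complex.I),
      real_inner_comm (L 1) (meanCurv φ z), real_inner_comm (L Complex.I) (meanCurv φ z)] at h1
    rw [← ha, ← hb] at h1
    nlinarith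
  calc ∫⁻ θ in Ico 0 (2 * Real.pi), g θ
      = (∫⁻ θ in Ico 0 Real.pi, g θ) + ∫⁻ θ in Ico 0 Real.pi, g (θ + Real.pi) := hsplit
    _ ≤ ∫⁻ θ in Ico 0 Real.pi, (g θ + g (θ + Real.pi)) := le_lintegral_add _ _
    _ ≤ ∫⁻ θ in Ico 0 Real.pi,
          ENNReal.ofReal ((a * Real.cos θ + b * Real.sin θ) ^ 2 * √(fffDet φ z)) := by
        refine lintegral_mono fun θ => ?_
        beta_reduce
        rw [hneg, ← hLt]
        exact ndens_pair hi (hL _)
    _ = ENNReal.ofReal ((a ^ 2 + b ^ 2) * (Real.pi / 2) * √(fffDet φ z)) := by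
        rw [← int_half, ← intervalIntegral.integral_mul_const,
          intervalIntegral.integral_of_le hpi.le, integral_Ioc_eq_integral_Ioo,
          ← integral_Ico_eq_integral_Ioo, ofReal_integral_eq_lintegral_ofReal]
        · have hc : Continuous fun θ : ℝ =>
              (a * Real.cos θ + b * Real.sin θ) ^ 2 * √(fffDet φ z) := by fun_prop
          exact (hc.continuousOn.integrableOn_Icc (a := 0) (b := Real.pi)).mono_set
            Ico_subset_Icc_self
        · exact Eventually.of_forall fun θ => by positivity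
    _ ≤ ENNReal.ofReal (Real.pi / 2) *
      ENNReal.ofReal (‖meanCurv φ z‖ ^ 2 * √(fffDet φ z)) := by
        rw [← ENNReal.ofReal_mul (by positivity)]
        refine ENNReal.ofReal_le_ofReal ?_
        have h1 : 0 ≤ Real.pi / 2 * √(fffDet φ z) := by positivity
        nlinarith [mul_le_mul_of_nonneg_right hbess h1]

theorem total_le_willmore {φ : ℂ → E4} (hφ : SliceDisc φ) :
    ∫⁻ z in ball (0 : ℂ) 1, ncurvAt φ z ≤ ENNReal.ofReal (Real.pi / 2) * willmore φ := by
  unfold willmore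
  rw [← lintegral_const_mul' _ _ ENNReal.ofReal_ne_top]
  refine setLIntegral_mono' isOpen_ball.measurableSet fun z hz => ?_
  exact ncurvAt_le (hφ.imm z (ball_subset_closedBall hz))

/-- Slice discs of small Willmore energy. -/
theorem willmore_criterion {φ : ℂ → E4} (hφ : SliceDisc φ) (m : ℕ)
    (hW : willmore φ < ENNReal.ofReal (4 * Real.pi * (m + 1))) :
    ∫⁻ z in ball (0 : ℂ) 1, ncurvAt φ z < ENNReal.ofReal (2 * Real.pi ^ 2 * (m + 1)) := by
  refine lt_of_le_of_lt (total_le_willmore hφ) ?_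
  have h1 : ENNReal.ofReal (Real.pi / 2) * willmore φ <
      ENNReal.ofReal (Real.pi / 2) * ENNReal.ofReal (4 * Real.pi * (m + 1)) := by
    refine ENNReal.mul_lt_mul_right ?_ ENNReal.ofReal_ne_top hW
    simp [Real.pi_pos]
  refine lt_of_lt_of_eq h1 ?_
  rw [← ENNReal.ofReal_mul (by positivity)]
  congr 1
  ring

end Pool.Agent.Q196.SR
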