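import Pool.Agent.Q196.SR.Generic
import Pool.Agent.Y232.RB.Ref
import Pool.Agent.Y297.RB.Lf

/-!
Sard: for almost all linear perturbations the critical points are nondegenerate; the convex
function criterion.
-/

set_option autoImplicit false

namespace Pool.Agent.Q196.SR

open scoped ContDiff RealInnerProductSpace ENNReal Topology
open MeasureTheory Set Metric Filter Pool.Agent.Y503.RB

theorem Lam_diff {h : E4 → ℝ} {t : ℝ} (ht : 0 < t) {φ N₁ N₂ : ℂ → E4} {U : Set ℂ}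
    (hP : Patch φ U) (hF : Frame φ N₁ N₂ U) (hh : ∀ z ∈ U, ContDiffAt ℝ ∞ h (φ z))
    {x : E4} (hx : zc x ∈ U) : DifferentiableAt ℝ (Lam h t φ N₁ N₂) x := by
  have hUn : U ∈ 𝓝 (zc x) := hP.isOpen.mem_nhds hx
  have hφ : ContDiffAt ℝ ∞ φ (zc x) := hP.smooth.contDiffAt hUn
  have hrz : 0 < rh φ (zc x) := by
    have := hP.inside _ hx
    unfold rh
    nlinarith [norm_nonneg (φ (zc x))]
  have hN1 : DifferentiableAt ℝ N₁ (zc x) := (hF.smooth₁.contDiffAt hUn).differentiableAt (by simp)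
  have hN2 : DifferentiableAt ℝ N₂ (zc x) := (hF.smooth₂.contDiffAt hUn).differentiableAt (by simp)
  have hA : DifferentiableAt ℝ (Av h t φ) (zc x) :=
    (Av_smooth ht hφ hrz (hh _ hx)).differentiableAt (by simp)
  have hzc : DifferentiableAt ℝ (zc : E4 → ℂ) x := by
    have : (zc : E4 → ℂ) = fun x => Pool.Agent.Y977.RB.zcL x :=
      funext fun x => (Pool.Agent.Y977.RB.zcL_apply x).symm
    rw [this]
    exact Pool.Agent.Y977.RB.zcL.differentiableAt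
  have h1 : DifferentiableAt ℝ (fun x : E4 => Av h t φ (zc x)) x :=
    DifferentiableAt.comp (f := zc) (g := Av h t φ) x hA hzc
  have h2 : DifferentiableAt ℝ (fun x : E4 => N₁ (zc x)) x :=
    DifferentiableAt.comp (f := zc) (g := N₁) x hN1 hzc
  have h3 : DifferentiableAt ℝ (fun x : E4 => N₂ (zc x)) x :=
    DifferentiableAt.comp (f := zc) (g := N₂) x hN2 hzc
  have hp : ∀ i : Fin 4, DifferentiableAt ℝ (fun y : E4 => y i) x := fun i =>
    (EuclideanSpace.proj (𝕜 := ℝ) i : E4 →L[ℝ] ℝ).differentiableAt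
  exact (h1.add ((hp 2).smul h2)).add ((hp 3).smul h3)

/-- Critical points come from the parametrisation. -/
theorem exists_param {h : E4 → ℝ} {t : ℝ} (ht : 0 < t) {φ N₁ N₂ : ℂ → E4} {U : Set ℂ}
    (hP : Patch φ U) (hF : Frame φ N₁ N₂ U) (hh : ∀ z ∈ U, ContDiffAt ℝ ∞ h (φ z))
    {z : ℂ} (hz : z ∈ U) {a : E4} (hE : E1 φ (fun w => h (φ w)) t a z) :
    ∃ x : E4, zc x = z ∧ Lam h t φ N₁ N₂ x = a := by
  have hφ : DifferentiableAt ℝ φ z :=
    (hP.smooth.contDiffAt (hP.isOpen.mem_nhds hz)).differentiableAt (by simp)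
  have hrz : 0 < rh φ z := by
    have := hP.inside _ hz
    unfold rh
    nlinarith [norm_nonneg (φ z)]
  obtain ⟨α, β, hαβ⟩ := span_of_orth hP hF hz (v := a - Av h t φ z) (by
    intro u
    rw [inner_sub_left, Av_inner hφ ((hh z hz).differentiableAt (by simp)), hE u]
    have : t * rh φ z ≠ 0 := by positivity
    rw [mul_div_cancel_left₀ _ this]
    ring)
  refine ⟨mk4 z α β, mk4_zc _ _ _, ?_⟩
  unfold Lam
  rw [mk4_zc, mk4_two, mk4_three, add_assoc, ← hαβ]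
  abel

/-- For almost all `a` all critical points in the disc are nondegenerate. -/
theorem ae_nondeg {h : E4 → ℝ} {t : ℝ} (ht : 0 < t) {φ : ℂ → E4} {U : Set ℂ}
    (hP : Patch φ U) (hh : ∀ z ∈ U, ContDiffAt ℝ ∞ h (φ z)) :
    ∃ B : Set E4, volume B = 0 ∧ ∀ a ∉ B, ∀ z ∈ U,
      fderiv ℝ (PP φ (fun w => h (φ w)) t a) z = 0 → ∀ u : ℂ,
        (∀ v : ℂ, fderiv ℝ (fderiv ℝ (PP φ (fun w => h (φ w)) t a)) z u v = 0) → u = 0 := by
  obtain ⟨N₁, N₂, U', h1, h2⟩ := Pool.Agent.Y232.RB.Ref.cover Pool.Agent.Y297.RB.lf hP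
  refine ⟨⋃ j, Lam h t φ (N₁ j) (N₂ j) '' {x | zc x ∈ U' j ∧
    (fderiv ℝ (Lam h t φ (N₁ j) (N₂ j)) x).det = 0}, ?_, ?_⟩
  · refine measure_iUnion_null fun j => ?_
    refine addHaar_image_eq_zero_of_det_fderivWithin_eq_zero volume
      (f' := fun x => fderiv ℝ (Lam h t φ (N₁ j) (N₂ j)) x) ?_ fun x hx => hx.2
    intro x hx
    exact (Lam_diff ht (Pool.Agent.Y232.RB.Ref.patch_mono hP (h1 j).2.2 (h1 j).1) (h1 j).2.1
      (fun z hz => hh z ((h1 j).2.2 hz)) hx.1).hasFDerivAt.hasFDerivWithinAt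
  · intro a ha z hz hc u hu
    obtain ⟨j, hj⟩ := mem_iUnion.mp (h2 hz)
    have hP' := Pool.Agent.Y232.RB.Ref.patch_mono hP (h1 j).2.2 (h1 j).1
    have hh' : ∀ z ∈ U' j, ContDiffAt ℝ ∞ h (φ z) := fun z hz => hh z ((h1 j).2.2 hz)
    have hφ : ContDiffAt ℝ ∞ φ z := hP.smooth.contDiffAt (hP.isOpen.mem_nhds hz)
    have hf : ContDiffAt ℝ ∞ (fun w => h (φ w)) z := (hh z hz).comp z hφ
    obtain ⟨x, hxz, hxa⟩ := exists_param ht hP' (h1 j).2.1 hh' hj (PP_crit hφ hf hc)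
    subst hxz
    subst hxa
    refine nondeg_of_reg ht hP' (h1 j).2.1 hh' hj hc ?_ hu
    intro h0
    exact ha (mem_iUnion.mpr ⟨j, x, ⟨hj, h0⟩, rfl⟩)

end Pool.Agent.Q196.SR
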