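import Pool.Agent.Q196.SR.Push

/-!
The function `(1 - |x|²) exp (- t H (x))` for convex `H`.
-/

set_option autoImplicit false

namespace Pool.Agent.Q196.SR

open scoped ContDiff RealInnerProductSpace ENNReal Topology
open MeasureTheory Set Metric Filter Pool.Agent.Y503.RB

/-- `(1 - |x|²) exp (- t H (x))`. -/
noncomputable def gfun (H : E4 → ℝ) (t : ℝ) (x : E4) : ℝ :=
  (1 - ‖x‖ ^ 2) * Real.exp (-(t * H x))

theorem gfun_fderiv {H : E4 → ℝ} {t : ℝ} {x : E4} (hH : DifferentiableAt ℝ H x) (w : E4) :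
    fderiv ℝ (gfun H t) x w =
      Real.exp (-(t * H x)) * (-(2 * ⟪x, w⟫) - t * (1 - ‖x‖ ^ 2) * fderiv ℝ H x w) := by
  have h1 : HasFDerivAt (fun x : E4 => 1 - ‖x‖ ^ 2) (-(2 • (innerSL ℝ x))) x := by
    have := (hasStrictFDerivAt_norm_sq x).hasFDerivAt
    exact this.const_sub 1
  have h2 : HasFDerivAt (fun x : E4 => Real.exp (-(t * H x)))
      (Real.exp (-(t * H x)) • (-(t • fderiv ℝ H x))) x := by
    have := ((hH.hasFDerivAt.const_mul t).neg).exp
    exact this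
  have h3 := h1.mul h2
  have h4 : gfun H t = fun x => (1 - ‖x‖ ^ 2) * Real.exp (-(t * H x)) := rfl
  rw [h4]
  have h5 := h3.fderiv
  have h6 : fderiv ℝ (fun x : E4 => (1 - ‖x‖ ^ 2) * Real.exp (-(t * H x))) x =
      (1 - ‖x‖ ^ 2) • (Real.exp (-(t * H x)) • (-(t • fderiv ℝ H x))) +
        Real.exp (-(t * H x)) • (-(2 • (innerSL ℝ x))) := h5
  rw [h6]
  simp
  ring

theorem gfun_smooth {H : E4 → ℝ} {t : ℝ} {V : Set E4} (hV : ContDiffOn ℝ ∞ H V) :
    ContDiffOn ℝ ∞ (gfun H t) V := by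
  unfold gfun
  refine ContDiffOn.mul ?_ ?_
  · exact (contDiff_const.sub (contDiff_norm_sq ℝ)).contDiffOn
  · exact (contDiffOn_const.mul hV).neg.exp

theorem convex_grad {H : E4 → ℝ} (hc : ConvexOn ℝ (closedBall (0 : E4) 1) H) {x q : E4}
    (hx : ‖x‖ ≤ 1) (hq : ‖q‖ ≤ 1) (hd : DifferentiableAt ℝ H x) :
    H x + fderiv ℝ H x (q - x) ≤ H q := by
  have h1 : HasDerivAt (fun s : ℝ => H (x + s • (q - x))) (fderiv ℝ H x (q - x)) 0 := by
    have h2 : HasDerivAt (fun s : ℝ => x + s • (q - x)) (q - x) 0 := by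
      simpa using ((hasDerivAt_id (0 : ℝ)).smul_const (q - x)).const_add x
    have h3 : HasFDerivAt H (fderiv ℝ H x) (x + (0 : ℝ) • (q - x)) := by
      simpa using hd.hasFDerivAt
    exact h3.comp_hasDerivAt 0 h2
  have h4 := hasDerivWithinAt_iff_tendsto_slope.mp (h1.hasDerivWithinAt (s := Ioi 0))
  have h5 : Ioi (0 : ℝ) \ {0} = Ioi 0 := by
    ext s
    simp only [mem_diff, mem_Ioi, mem_singleton_iff]
    exact ⟨fun h => h.1, fun h => ⟨h, h.ne'⟩⟩
  rw [h5] at h4
  have h6 : ∀ᶠ s in 𝓝[>] (0 : ℝ), slope (fun s : ℝ => H (x + s • (q - x))) 0 s ≤ H q - H x := by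
    have h7 : ∀ᶠ s in 𝓝[>] (0 : ℝ), s ∈ Ioo (0 : ℝ) 1 := Ioo_mem_nhdsGT one_pos
    filter_upwards [h7] with s hs
    have h8 := hc.2 (by simpa using hx : x ∈ closedBall (0 : E4) 1)
      (by simpa using hq : q ∈ closedBall (0 : E4) 1)
      (by linarith [hs.2] : 0 ≤ 1 - s) hs.1.le (by ring)
    have h9 : (1 - s) • x + s • q = x + s • (q - x) := by
      rw [smul_sub, sub_smul, one_smul]
      abel
    rw [h9] at h8
    simp only [slope, sub_zero, zero_smul, add_zero, vsub_eq_sub, smul_eq_mul] at h8 ⊢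
    rw [inv_mul_le_iff₀ hs.1]
    linarith
  have := le_of_tendsto h4 h6
  linarith

theorem exists_rad {H : E4 → ℝ} {V : Set E4} (hV : IsOpen V) (hVs : closedBall (0 : E4) 1 ⊆ V)
    (hs : ContDiffOn ℝ ∞ H V) (hc : ConvexOn ℝ (closedBall (0 : E4) 1) H) {t : ℝ} (ht : 0 < t) :
    ∃ q : E4, Rad (gfun H t) q ∧
      ∀ w : E4, -(2 * ⟪q, w⟫) = t * (1 - ‖q‖ ^ 2) * fderiv ℝ H q w := by
  have hg := gfun_smooth (t := t) hs
  have hcont : ContinuousOn (gfun H t) (closedBall (0 : E4) 1) := hg.continuousOn.mono hVs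
  obtain ⟨q, hq, hmax⟩ := (isCompact_closedBall (0 : E4) 1).exists_isMaxOn
    ⟨0, by simp⟩ hcont
  have hq1 : ‖q‖ ≤ 1 := by simpa using hq
  have hdH : ∀ x : E4, ‖x‖ ≤ 1 → DifferentiableAt ℝ H x := fun x hx =>
    (hs.contDiffAt (hV.mem_nhds (hVs (by simpa using hx)))).differentiableAt (by simp)
  have hzero : ∀ x : E4, ‖x‖ = 1 → gfun H t x = 0 := by
    intro x hx
    simp [gfun, hx]
  have hpos : ∀ x : E4, ‖x‖ < 1 → 0 < gfun H t x := by
    intro x hx
    unfold gfun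
    have : 0 < 1 - ‖x‖ ^ 2 := by nlinarith [norm_nonneg x]
    positivity
  have hqlt : ‖q‖ < 1 := by
    rcases hq1.lt_or_eq with h | h
    · exact h
    · exfalso
      have h1 : gfun H t 0 ≤ gfun H t q := hmax (by simp : (0 : E4) ∈ closedBall (0 : E4) 1)
      rw [hzero q h] at h1
      exact absurd (hpos 0 (by simp)) (not_lt.mpr h1)
  refine ⟨q, ⟨hqlt, ⟨V, hV, hVs, hg⟩, hpos, hzero, ?_, ?_⟩, ?_⟩
  · intro x hx hxq
    rw [gfun_fderiv (hdH x hx)]
    have h1 := convex_grad hc hx hq1 (hdH x hx)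
    have h2 : gfun H t x ≤ gfun H t q := hmax (by simpa using hx)
    have h3 : (1 - ‖x‖ ^ 2) * (1 + t * (H q - H x)) ≤ 1 - ‖q‖ ^ 2 := by
      have h4 : 0 ≤ 1 - ‖x‖ ^ 2 := by nlinarith [norm_nonneg x]
      calc (1 - ‖x‖ ^ 2) * (1 + t * (H q - H x))
          ≤ (1 - ‖x‖ ^ 2) * Real.exp (t * (H q - H x)) := by
            refine mul_le_mul_of_nonneg_left ?_ h4
            have := Real.add_one_le_exp (t * (H q - H x))
            linarith
        _ = gfun H t x * Real.exp (t * H q) := by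
            unfold gfun
            rw [mul_assoc, ← Real.exp_add]
            congr 2
            ring
        _ ≤ gfun H t q * Real.exp (t * H q) :=
            mul_le_mul_of_nonneg_right h2 (Real.exp_pos _).le
        _ = 1 - ‖q‖ ^ 2 := by
            unfold gfun
            rw [mul_assoc, ← Real.exp_add]
            simp
    have h5 : fderiv ℝ H x (x - q) = -fderiv ℝ H x (q - x) := by
      rw [← map_neg, neg_sub]
    have h6 := normsq_eq q x
    have h7 : (⟪x, x - q⟫ : ℝ) = ⟪q, x - q⟫ + ‖x - q‖ ^ 2 := by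
      have : x = q + (x - q) := by abel
      conv_lhs => rw [this]
      rw [add_sub_cancel_left, inner_add_left, real_inner_self_eq_norm_sq]
    have h8 := normsq_sub_pos hxq
    have h9 : 0 ≤ 1 - ‖x‖ ^ 2 := by nlinarith [norm_nonneg x]
    have h10 : -(2 * ⟪x, x - q⟫) - t * (1 - ‖x‖ ^ 2) * fderiv ℝ H x (x - q) < 0 := by
      rw [h5, h7]
      have h11 : t * (1 - ‖x‖ ^ 2) * fderiv ℝ H x (q - x) ≤
          t * (1 - ‖x‖ ^ 2) * (H q - H x) :=
        mul_le_mul_of_nonneg_left (by linarith) (by positivity)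
      nlinarith
    exact mul_neg_of_pos_of_neg (Real.exp_pos _) h10
  · intro x hx
    refine ⟨2 * Real.exp (-(t * H x)), by positivity, fun w => ?_⟩
    rw [gfun_fderiv (hdH x hx.le), hx]
    ring
  · intro w
    have hnh : closedBall (0 : E4) 1 ∈ 𝓝 q :=
      mem_of_superset (isOpen_ball.mem_nhds (by simpa using hqlt)) ball_subset_closedBall
    have h1 : IsLocalMax (gfun H t) q := hmax.isLocalMax hnh
    have h2 := h1.fderiv_eq_zero
    have h3 := gfun_fderiv (t := t) (hdH q hq1) w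
    rw [h2] at h3
    simp only [ContinuousLinearMap.zero_apply] at h3
    have h4 := (mul_eq_zero.mp h3.symm).resolve_left (Real.exp_pos _).ne'
    linarith

end Pool.Agent.Q196.SR
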