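import Pool.Agent.Q196.SR.Push

/-!
The push is a diffeomorphism of the closed ball minus a point.
-/

set_option autoImplicit false

namespace Pool.Agent.Q196.SR

open scoped ContDiff RealInnerProductSpace ENNReal Topology
open MeasureTheory Set Metric Filter Pool.Agent.Y503.RB

/-- `F` is a diffeomorphism from the closed unit ball minus the interior point `q` to the closed
unit ball minus its centre, and the identity on the unit sphere. -/
structure BallDiffeo (q : E4) (F : E4 → E4) : Prop where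
  lt : ‖q‖ < 1
  bij : BijOn F (closedBall 0 1 \ {q}) (closedBall 0 1 \ {0})
  smooth : ∀ x ∈ closedBall (0 : E4) 1 \ {q}, ContDiffAt ℝ ∞ F x
  imm : ∀ x ∈ closedBall (0 : E4) 1 \ {q}, Function.Injective (fderiv ℝ F x)
  fix : ∀ x ∈ sphere (0 : E4) 1, F x = x

theorem lam_unique {q x : E4} (hq : ‖q‖ < 1) (hx : x ≠ q) {μ : ℝ} (hμ : 0 < μ)
    (h : ‖x - q‖ ^ 2 * μ ^ 2 + 2 * ⟪q, x - q⟫ * μ = 1 - ‖q‖ ^ 2) : lam q x = μ := by
  have h1 := lam_root hq hx
  have h2 := lam_pos hq hx
  have h3 := normsq_sub_pos hx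
  have h4 := one_sub_pos hq
  set l := lam q x
  set A := ‖x - q‖ ^ 2
  set B := (⟪q, x - q⟫ : ℝ)
  have h5 : (l - μ) * (A * (l + μ) + 2 * B) = 0 := by linarith
  rcases mul_eq_zero.mp h5 with h6 | h6
  · linarith
  · exfalso
    have h7 : A * l + 2 * B = -(A * μ) := by linarith
    have h8 : 1 - ‖q‖ ^ 2 = l * (A * l + 2 * B) := by rw [← h1]; ring
    rw [h7] at h8
    have h9 : 0 < l * (A * μ) := by positivity
    linarith

theorem Rad.diffeo {g : E4 → ℝ} {q : E4} (h : Rad g q) : BallDiffeo q (pushG g q) := by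
  have hle : ∀ x ∈ closedBall (0 : E4) 1 \ {q}, ‖x‖ ≤ 1 ∧ x ≠ q := fun x hx =>
    ⟨by simpa using hx.1, by simpa using hx.2⟩
  have hg0 : ∀ x : E4, ‖x‖ ≤ 1 → 0 ≤ g x := by
    intro x hx
    rcases hx.lt_or_eq with h1 | h1
    · exact (h.pos x h1).le
    · exact (h.zero x h1).ge
  refine ⟨h.lt, ⟨?_, ?_, ?_⟩, ?_, ?_, fun x hx => push_fix h (by simpa using hx)⟩
  · intro x hx
    obtain ⟨h1, h2⟩ := hle x hx
    have h3 := push_normsq h.lt h2 (h.frac_pos h1 h2)
    have h4 := h.frac_pos h1 h2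
    have h5 : 0 ≤ g x / g q := div_nonneg (hg0 x h1) h.max_pos.le
    refine ⟨?_, ?_⟩
    · rw [mem_closedBall_zero_iff]
      nlinarith [norm_nonneg (pushG g q x)]
    · rw [mem_singleton_iff]
      intro h0
      rw [h0, norm_zero] at h3
      linarith
  · intro x hx y hy hxy
    obtain ⟨hx1, hx2⟩ := hle x hx
    obtain ⟨hy1, hy2⟩ := hle y hy
    have h1 := push_normsq h.lt hx2 (h.frac_pos hx1 hx2)
    have h2 := push_normsq h.lt hy2 (h.frac_pos hy1 hy2)
    rw [hxy, h2] at h1
    have h3 : g y / g q = g x / g q := by linarith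
    have h4 : g x = g y := by
      have := h.max_pos.ne'
      field_simp at h3
      exact h3.symm
    have h5 : ex q x = ex q y := by
      have h6 : 0 < √(1 - g y / g q) := Real.sqrt_pos.mpr (h.frac_pos hy1 hy2)
      unfold pushG at hxy
      rw [h4] at hxy
      exact smul_right_injective E4 h6.ne' hxy
    exact h.inj hx1 hx2 hy1 hy2 h4 h5
  · intro y hy
    have hy1 : ‖y‖ ≤ 1 := by simpa using hy.1
    have hy0 : y ≠ 0 := by simpa using hy.2
    have hyn : 0 < ‖y‖ := norm_pos_iff.mpr hy0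
    set e : E4 := ‖y‖⁻¹ • y with he
    have he1 : ‖e‖ = 1 := by
      rw [he, norm_smul, norm_inv, norm_norm, inv_mul_cancel₀ hyn.ne']
    have heq : e ≠ q := bd_ne h he1
    have hcont : ContinuousOn (fun s : ℝ => g (q + s • (e - q))) (Icc 0 1) := by
      intro s hs
      have h1 : ContinuousAt g (q + s • (e - q)) :=
        (h.smooth _ (seg_norm h.lt he1 hs)).continuousAt
      have h2 : Continuous (fun s : ℝ => q + s • (e - q)) := by fun_prop
      exact (ContinuousAt.comp (f := fun s : ℝ => q + s • (e - q)) (g := g) h1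
        h2.continuousAt).continuousWithinAt
    have hmem : (1 - ‖y‖ ^ 2) * g q ∈ Icc (g (q + (1 : ℝ) • (e - q))) (g (q + (0 : ℝ) • (e - q))) := by
      have h1 : q + (1 : ℝ) • (e - q) = e := by rw [one_smul]; abel
      have h2 : q + (0 : ℝ) • (e - q) = q := by rw [zero_smul, add_zero]
      rw [h1, h2, h.zero e he1]
      have := h.max_pos
      constructor
      · have : 0 ≤ 1 - ‖y‖ ^ 2 := by nlinarith
        positivity
      · nlinarith [sq_nonneg ‖y‖]
    obtain ⟨s, hs, hsv⟩ := intermediate_value_Icc' zero_le_one hcont hmem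
    have hsv' : g (q + s • (e - q)) = (1 - ‖y‖ ^ 2) * g q := hsv
    have hs0 : s ≠ 0 := by
      rintro rfl
      rw [zero_smul, add_zero] at hsv'
      have := h.max_pos
      have : 0 < ‖y‖ ^ 2 * g q := by positivity
      nlinarith
    have hspos : 0 < s := lt_of_le_of_ne hs.1 (Ne.symm hs0)
    set x := q + s • (e - q) with hx
    have hxq : x - q = s • (e - q) := by rw [hx]; abel
    have hxne : x ≠ q := by
      intro h0
      rw [h0, sub_self] at hxq
      rcases smul_eq_zero.mp hxq.symm with h1 | h1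
      · exact hs0 h1
      · exact heq (sub_eq_zero.mp h1)
    have hx1 : ‖x‖ ≤ 1 := seg_norm h.lt he1 hs
    have hlam : lam q x = s⁻¹ := by
      refine lam_unique h.lt hxne (inv_pos.mpr hspos) ?_
      rw [hxq, norm_smul, inner_smul_right, Real.norm_eq_abs, mul_pow, sq_abs]
      have h1 : ‖e‖ ^ 2 = ‖q‖ ^ 2 + 2 * ⟪q, e - q⟫ + ‖e - q‖ ^ 2 := normsq_eq q e
      rw [he1] at h1
      field_simp
      linarith
    have hex : ex q x = e := by
      unfold ex
      rw [hlam, hxq, smul_smul, inv_mul_cancel₀ hs0, one_smul]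
      abel
    refine ⟨x, ⟨by simpa using hx1, by simpa using hxne⟩, ?_⟩
    unfold pushG
    rw [hex, hsv', mul_div_assoc, div_self h.max_pos.ne', mul_one, sub_sub_cancel,
      Real.sqrt_sq hyn.le, he, smul_smul, mul_inv_cancel₀ hyn.ne', one_smul]
  · intro x hx
    obtain ⟨h1, h2⟩ := hle x hx
    exact push_smooth h.lt (h.smooth _ h1) h2 (h.frac_pos h1 h2)
  · intro x hx
    obtain ⟨h1, h2⟩ := hle x hx
    have hd : DifferentiableAt ℝ (pushG g q) x :=
      (push_smooth h.lt (h.smooth _ h1) h2 (h.frac_pos h1 h2)).differentiableAt (by simp)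
    rw [injective_iff_map_eq_zero]
    intro u hu
    have h3 : HasDerivAt (fun s : ℝ => x + s • u) u 0 := by
      simpa using ((hasDerivAt_id (0 : ℝ)).smul_const u).const_add x
    have h4 : HasDerivAt (fun s : ℝ => pushG g q (x + s • u)) (fderiv ℝ (pushG g q) x u) 0 := by
      have h5 : HasFDerivAt (pushG g q) (fderiv ℝ (pushG g q) x) (x + (0 : ℝ) • u) := by
        simpa using hd.hasFDerivAt
      exact h5.comp_hasDerivAt 0 h3
    rw [hu] at h4
    exact push_imm_aux h h3 (by simpa using h1) (by simpa using h2) h4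

end Pool.Agent.Q196.SR
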