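import Pool.Agent.Q196.SR.Gfun

/-!
Second derivatives of `ρ exp (- t f)`, second derivative test.
-/

set_option autoImplicit false

namespace Pool.Agent.Q196.SR

open scoped ContDiff RealInnerProductSpace ENNReal Topology
open MeasureTheory Set Metric Filter Pool.Agent.Y503.RB

theorem evd {F : Type*} [NormedAddCommGroup F] [NormedSpace ℝ F] {f : ℂ → F} {z : ℂ}
    (hf : ContDiffAt ℝ ∞ f z) : ∀ᶠ w in 𝓝 z, DifferentiableAt ℝ f w := by
  have h1 : ContDiffAt ℝ 1 f z := hf.of_le (by exact_mod_cast le_top)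
  filter_upwards [h1.eventually (by simp)] with w hw
  exact hw.differentiableAt (by simp)

theorem smf {F : Type*} [NormedAddCommGroup F] [NormedSpace ℝ F] {f : ℂ → F} {z : ℂ}
    (hf : ContDiffAt ℝ ∞ f z) : ContDiffAt ℝ ∞ (fderiv ℝ f) z :=
  hf.fderiv_right (by simp)

theorem P_fderiv {ρ f : ℂ → ℝ} {t : ℝ} {z : ℂ} (hρ : DifferentiableAt ℝ ρ z)
    (hf : DifferentiableAt ℝ f z) :
    fderiv ℝ (fun w => ρ w * Real.exp (-(t * f w))) z =
      Real.exp (-(t * f z)) • (fderiv ℝ ρ z - (t * ρ z) • fderiv ℝ f z) := by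
  have h2 : HasFDerivAt (fun w => Real.exp (-(t * f w)))
      (Real.exp (-(t * f z)) • (-(t • fderiv ℝ f z))) z :=
    ((hf.hasFDerivAt.const_mul t).neg).exp
  have h3 := hρ.hasFDerivAt.mul h2
  have h6 : fderiv ℝ (fun w => ρ w * Real.exp (-(t * f w))) z =
      ρ z • (Real.exp (-(t * f z)) • (-(t • fderiv ℝ f z))) +
        Real.exp (-(t * f z)) • fderiv ℝ ρ z := h3.fderiv
  rw [h6]
  ext u
  simp
  ring

theorem P_crit {ρ f : ℂ → ℝ} {t : ℝ} {z : ℂ} (hρ : DifferentiableAt ℝ ρ z)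
    (hf : DifferentiableAt ℝ f z)
    (hc : fderiv ℝ (fun w => ρ w * Real.exp (-(t * f w))) z = 0) (u : ℂ) :
    fderiv ℝ ρ z u = t * ρ z * fderiv ℝ f z u := by
  rw [P_fderiv hρ hf] at hc
  have h1 := (smul_eq_zero.mp hc).resolve_left (Real.exp_pos _).ne'
  have h2 := congrArg (fun L : ℂ →L[ℝ] ℝ => L u) h1
  simp at h2
  linarith

theorem P_hess {ρ f : ℂ → ℝ} {t : ℝ} {z : ℂ} (hρ : ContDiffAt ℝ ∞ ρ z)
    (hf : ContDiffAt ℝ ∞ f z)
    (hc : fderiv ℝ (fun w => ρ w * Real.exp (-(t * f w))) z = 0) (u v : ℂ) :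
    fderiv ℝ (fderiv ℝ (fun w => ρ w * Real.exp (-(t * f w)))) z u v =
      Real.exp (-(t * f z)) * (fderiv ℝ (fderiv ℝ ρ) z u v -
        t * fderiv ℝ ρ z u * fderiv ℝ f z v - t * ρ z * fderiv ℝ (fderiv ℝ f) z u v) := by
  have hρ1 : DifferentiableAt ℝ ρ z := hρ.differentiableAt (by simp)
  have hf1 : DifferentiableAt ℝ f z := hf.differentiableAt (by simp)
  have hev : fderiv ℝ (fun w => ρ w * Real.exp (-(t * f w))) =ᶠ[𝓝 z] fun w =>
      Real.exp (-(t * f w)) • (fderiv ℝ ρ w - (t * ρ w) • fderiv ℝ f w) := by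
    filter_upwards [evd hρ, evd hf] with w h1 h2
    exact P_fderiv h1 h2
  rw [hev.fderiv_eq]
  have hρ2 : HasFDerivAt (fderiv ℝ ρ) (fderiv ℝ (fderiv ℝ ρ) z) z :=
    ((smf hρ).differentiableAt (by simp)).hasFDerivAt
  have hf2 : HasFDerivAt (fderiv ℝ f) (fderiv ℝ (fderiv ℝ f) z) z :=
    ((smf hf).differentiableAt (by simp)).hasFDerivAt
  have h2 : HasFDerivAt (fun w => Real.exp (-(t * f w)))
      (Real.exp (-(t * f z)) • (-(t • fderiv ℝ f z))) z :=
    ((hf1.hasFDerivAt.const_mul t).neg).exp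
  have h3 : HasFDerivAt (fun w => fderiv ℝ ρ w - (t * ρ w) • fderiv ℝ f w)
      (fderiv ℝ (fderiv ℝ ρ) z - ((t * ρ z) • fderiv ℝ (fderiv ℝ f) z +
        (t • fderiv ℝ ρ z).smulRight (fderiv ℝ f z))) z :=
    hρ2.sub ((hρ1.hasFDerivAt.const_mul t).smul hf2)
  have h4 := h2.smul h3
  have h0 : fderiv ℝ ρ z - (t * ρ z) • fderiv ℝ f z = 0 := by
    rw [P_fderiv hρ1 hf1] at hc
    exact (smul_eq_zero.mp hc).resolve_left (Real.exp_pos _).ne'
  have h5 : fderiv ℝ (fun w => Real.exp (-(t * f w)) •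
      (fderiv ℝ ρ w - (t * ρ w) • fderiv ℝ f w)) z =
      Real.exp (-(t * f z)) • (fderiv ℝ (fderiv ℝ ρ) z - ((t * ρ z) • fderiv ℝ (fderiv ℝ f) z +
        (t • fderiv ℝ ρ z).smulRight (fderiv ℝ f z))) +
      (Real.exp (-(t * f z)) • (-(t • fderiv ℝ f z))).smulRight
        (fderiv ℝ ρ z - (t * ρ z) • fderiv ℝ f z) := h4.fderiv
  rw [h5, h0]
  simp
  ring

theorem bil_bound (B : ℂ →L[ℝ] ℂ →L[ℝ] ℝ) (u : ℂ) :
    B u u ≤ (|B 1 1| + |B 1 Complex.I| + |B Complex.I 1| + |B Complex.I Complex.I|) * ‖u‖ ^ 2 := by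
  have h : u = u.re • (1 : ℂ) + u.im • Complex.I := by
    apply Complex.ext <;> simp
  have e : B u u = u.re * u.re * B 1 1 + u.re * u.im * B 1 Complex.I +
      u.im * u.re * B Complex.I 1 + u.im * u.im * B Complex.I Complex.I := by
    conv_lhs => rw [h]
    simp only [map_add, map_smul, ContinuousLinearMap.add_apply, ContinuousLinearMap.smul_apply,
      smul_eq_mul]
    ring
  have h1 : |u.re| ≤ ‖u‖ := Complex.abs_re_le_norm u
  have h2 : |u.im| ≤ ‖u‖ := Complex.abs_im_le_norm u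
  have h3 : ∀ a b c : ℝ, |a| ≤ ‖u‖ → |b| ≤ ‖u‖ → a * b * c ≤ |c| * ‖u‖ ^ 2 := by
    intro a b c ha hb
    calc a * b * c ≤ |a * b * c| := le_abs_self _
      _ = |a| * |b| * |c| := by rw [abs_mul, abs_mul]
      _ ≤ ‖u‖ * ‖u‖ * |c| := by
        refine mul_le_mul_of_nonneg_right ?_ (abs_nonneg _)
        exact mul_le_mul ha hb (abs_nonneg _) (norm_nonneg _)
      _ = _ := by ring
  rw [e]
  have := h3 _ _ (B 1 1) h1 h1
  have := h3 _ _ (B 1 Complex.I) h1 h2
  have := h3 _ _ (B Complex.I 1) h2 h1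
  have := h3 _ _ (B Complex.I Complex.I) h2 h2
  linarith

theorem d2_cont {f : ℂ → ℝ} {w : ℂ} (hf : ContDiffAt ℝ ∞ f w) (a b : ℂ) :
    ContinuousAt (fun z => fderiv ℝ (fderiv ℝ f) z a b) w :=
  (((smf (smf hf)).clm_apply contDiffAt_const).clm_apply contDiffAt_const).continuousAt

theorem d1_cont {F : Type*} [NormedAddCommGroup F] [NormedSpace ℝ F] {f : ℂ → F} {w : ℂ}
    (hf : ContDiffAt ℝ ∞ f w) (a : ℂ) :
    ContinuousAt (fun z => fderiv ℝ f z a) w :=
  ((smf hf).clm_apply contDiffAt_const).continuousAt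

/-- Second derivative test. -/
theorem localMax_test {f : ℂ → ℝ} {w : ℂ} (hf : ContDiffAt ℝ ∞ f w) (h0 : fderiv ℝ f w = 0)
    (h2 : ∀ u : ℂ, u ≠ 0 → fderiv ℝ (fderiv ℝ f) w u u < 0) : IsLocalMax f w := by
  -- negative definite on the unit circle
  have hcomp : IsCompact (sphere (0 : ℂ) 1) := isCompact_sphere 0 1
  have hcont : Continuous (fun u : ℂ => fderiv ℝ (fderiv ℝ f) w u u) := by
    have : Continuous (fun u : ℂ => fderiv ℝ (fderiv ℝ f) w u) :=
      (fderiv ℝ (fderiv ℝ f) w).continuous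
    exact this.clm_apply continuous_id
  obtain ⟨u₀, hu₀, hmax⟩ := hcomp.exists_isMaxOn ⟨1, by simp⟩ hcont.continuousOn
  set c : ℝ := -(fderiv ℝ (fderiv ℝ f) w u₀ u₀) with hc
  have hcpos : 0 < c := by
    have hne : u₀ ≠ 0 := by
      rintro rfl
      simp at hu₀
    have := h2 u₀ hne
    linarith
  have hneg : ∀ u : ℂ, fderiv ℝ (fderiv ℝ f) w u u ≤ -c * ‖u‖ ^ 2 := by
    intro u
    by_cases hu : u = 0
    · simp [hu]
    · have hn : 0 < ‖u‖ := norm_pos_iff.mpr hu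
      set v : ℂ := ‖u‖⁻¹ • u with hv
      have hv1 : v ∈ sphere (0 : ℂ) 1 := by
        simp [hv, hn.ne']
      have h3 : fderiv ℝ (fderiv ℝ f) w v v ≤ -c := by
        have := hmax hv1
        simpa [hc] using this
      have h4 : u = ‖u‖ • v := by
        rw [hv, smul_smul, mul_inv_cancel₀ hn.ne', one_smul]
      have h5 : fderiv ℝ (fderiv ℝ f) w u u = ‖u‖ ^ 2 * fderiv ℝ (fderiv ℝ f) w v v := by
        conv_lhs => rw [h4]
        simp only [map_smul, ContinuousLinearMap.smul_apply, smul_eq_mul]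
        ring
      rw [h5]
      nlinarith [sq_nonneg ‖u‖]
  have hev : ∀ᶠ z in 𝓝 w, DifferentiableAt ℝ f z ∧ DifferentiableAt ℝ (fderiv ℝ f) z ∧
      (|(fderiv ℝ (fderiv ℝ f) z - fderiv ℝ (fderiv ℝ f) w) 1 1| +
        |(fderiv ℝ (fderiv ℝ f) z - fderiv ℝ (fderiv ℝ f) w) 1 Complex.I| +
        |(fderiv ℝ (fderiv ℝ f) z - fderiv ℝ (fderiv ℝ f) w) Complex.I 1| +
        |(fderiv ℝ (fderiv ℝ f) z - fderiv ℝ (fderiv ℝ f) w) Complex.I Complex.I|) < c := by
    have h3c : ContinuousAt (fun z =>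
        (|(fderiv ℝ (fderiv ℝ f) z - fderiv ℝ (fderiv ℝ f) w) 1 1| +
        |(fderiv ℝ (fderiv ℝ f) z - fderiv ℝ (fderiv ℝ f) w) 1 Complex.I| +
        |(fderiv ℝ (fderiv ℝ f) z - fderiv ℝ (fderiv ℝ f) w) Complex.I 1| +
        |(fderiv ℝ (fderiv ℝ f) z - fderiv ℝ (fderiv ℝ f) w) Complex.I Complex.I|)) w := by
      simp only [ContinuousLinearMap.sub_apply]
      exact ((((d2_cont hf 1 1).sub continuousAt_const).abs.add
        ((d2_cont hf 1 Complex.I).sub continuousAt_const).abs).add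
        ((d2_cont hf Complex.I 1).sub continuousAt_const).abs).add
        ((d2_cont hf Complex.I Complex.I).sub continuousAt_const).abs
    have h3 := h3c.eventually (gt_mem_nhds (a := c) (by simpa using hcpos))
    filter_upwards [evd hf, evd (smf hf), h3] with z a b c'
    exact ⟨a, b, c'⟩
  obtain ⟨r, hr, hball⟩ := Metric.eventually_nhds_iff_ball.mp hev
  refine Metric.eventually_nhds_iff_ball.mpr ⟨r, hr, fun z hz => ?_⟩
  set u : ℂ := z - w with hu
  have hseg : ∀ s ∈ Icc (0 : ℝ) 1, w + s • u ∈ ball w r := by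
    intro s hs
    rw [mem_ball, dist_eq_norm, add_sub_cancel_left, norm_smul, Real.norm_eq_abs,
      abs_of_nonneg hs.1]
    have h3 : ‖u‖ < r := by
      rw [mem_ball, dist_eq_norm] at hz
      exact hz
    nlinarith [norm_nonneg u, hs.1, hs.2]
  have hline : ∀ s : ℝ, HasDerivAt (fun s : ℝ => w + s • u) u s := by
    intro s
    simpa using ((hasDerivAt_id s).smul_const u).const_add w
  have hg : ∀ s ∈ Icc (0 : ℝ) 1, HasDerivAt (fun s : ℝ => f (w + s • u))
      (fderiv ℝ f (w + s • u) u) s := fun s hs =>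
    (hball _ (hseg s hs)).1.hasFDerivAt.comp_hasDerivAt s (hline s)
  have hg1 : ∀ s ∈ Icc (0 : ℝ) 1, HasDerivAt (fun s : ℝ => fderiv ℝ f (w + s • u) u)
      (fderiv ℝ (fderiv ℝ f) (w + s • u) u u) s := by
    intro s hs
    have h3 := (hball _ (hseg s hs)).2.1.hasFDerivAt.comp_hasDerivAt s (hline s)
    have h4 := h3.clm_apply (hasDerivAt_const s u)
    simpa using h4
  have hle : ∀ s ∈ Icc (0 : ℝ) 1, fderiv ℝ (fderiv ℝ f) (w + s • u) u u ≤ 0 := by
    intro s hs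
    have h3 := (hball _ (hseg s hs)).2.2
    have h4 : fderiv ℝ (fderiv ℝ f) (w + s • u) u u = fderiv ℝ (fderiv ℝ f) w u u +
        (fderiv ℝ (fderiv ℝ f) (w + s • u) - fderiv ℝ (fderiv ℝ f) w) u u := by
      simp
    have h5 : (fderiv ℝ (fderiv ℝ f) (w + s • u) - fderiv ℝ (fderiv ℝ f) w) u u ≤
        c * ‖u‖ ^ 2 := by
      have h6 := bil_bound (fderiv ℝ (fderiv ℝ f) (w + s • u) - fderiv ℝ (fderiv ℝ f) w) u
      exact h6.trans (mul_le_mul_of_nonneg_right h3.le (sq_nonneg _))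
    have h6 := hneg u
    rw [h4]
    linarith
  have hanti1 : AntitoneOn (fun s : ℝ => fderiv ℝ f (w + s • u) u) (Icc 0 1) := by
    refine antitoneOn_of_deriv_nonpos (convex_Icc 0 1)
      (fun s hs => (hg1 s hs).continuousAt.continuousWithinAt)
      (fun s hs => ?_) (fun s hs => ?_)
    · exact (hg1 s (interior_subset hs)).differentiableAt.differentiableWithinAt
    · rw [(hg1 s (interior_subset hs)).deriv]
      exact hle s (interior_subset hs)
  have hnp : ∀ s ∈ Icc (0 : ℝ) 1, fderiv ℝ f (w + s • u) u ≤ 0 := by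
    intro s hs
    have h3 := hanti1 (left_mem_Icc.mpr zero_le_one) hs hs.1
    simp only [zero_smul, add_zero, h0, ContinuousLinearMap.zero_apply] at h3
    exact h3
  have hanti : AntitoneOn (fun s : ℝ => f (w + s • u)) (Icc 0 1) := by
    refine antitoneOn_of_deriv_nonpos (convex_Icc 0 1)
      (fun s hs => (hg s hs).continuousAt.continuousWithinAt)
      (fun s hs => ?_) (fun s hs => ?_)
    · exact (hg s (interior_subset hs)).differentiableAt.differentiableWithinAt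
    · rw [(hg s (interior_subset hs)).deriv]
      exact hnp s (interior_subset hs)
  have h3 := hanti (left_mem_Icc.mpr zero_le_one) (right_mem_Icc.mpr zero_le_one) zero_le_one
  simp only [zero_smul, add_zero, one_smul] at h3
  have h4 : w + u = z := by
    rw [hu]
    ring
  rwa [h4] at h3

end Pool.Agent.Q196.SR
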