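import Pool.Agent.Q196.SR.Close

/-!
Limits of critical points.
-/

set_option autoImplicit false

namespace Pool.Agent.Q196.SR

open scoped ContDiff RealInnerProductSpace ENNReal Topology
open MeasureTheory Set Metric Filter Pool.Agent.Y503.RB

theorem d2_contE {φ : ℂ → E4} {w : ℂ} (hφ : ContDiffAt ℝ ∞ φ w) (u v : ℂ) :
    ContinuousAt (fun z => d2 φ u v z) w := by
  have h1 : ContDiffAt ℝ ∞ (fun z => fderiv ℝ φ z v) w := (smf hφ).clm_apply contDiffAt_const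
  exact d1_cont h1 u

/-- No limits on the boundary. -/
theorem no_bdry {φ : ℂ → E4} {f : ℂ → ℝ} {w : ℂ} (hφ : ContDiffAt ℝ ∞ φ w)
    (hf : ContDiffAt ℝ ∞ f w) (hr : rh φ w = 0) (htr : fderiv ℝ (rh φ) w w ≠ 0)
    (hd : fderiv ℝ f w ≠ 0) {z : ℕ → ℂ} {t : ℕ → ℝ} {a : ℕ → E4}
    (hz : Tendsto z atTop (𝓝 w)) (ha : Tendsto a atTop (𝓝 0))
    (h1 : ∀ n, E1 φ f (t n) (a n) (z n)) (h2 : ∀ n, E2 φ f (t n) (a n) (z n)) : False := by
  obtain ⟨u, hu⟩ : ∃ u : ℂ, fderiv ℝ f w u ≠ 0 := by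
    by_contra hc
    push Not at hc
    exact hd (ContinuousLinearMap.ext hc)
  have hrs := rh_smooth hφ
  have hR : Tendsto (fun n => rh φ (z n)) atTop (𝓝 0) := by
    rw [← hr]
    exact hrs.continuousAt.tendsto.comp hz
  have hRu : ∀ v : ℂ, Tendsto (fun n => fderiv ℝ (rh φ) (z n) v) atTop
      (𝓝 (fderiv ℝ (rh φ) w v)) := fun v => (d1_cont hrs v).tendsto.comp hz
  have hRuu : ∀ v : ℂ, Tendsto (fun n => fderiv ℝ (fderiv ℝ (rh φ)) (z n) v v) atTop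
      (𝓝 (fderiv ℝ (fderiv ℝ (rh φ)) w v v)) := fun v => (d2_cont hrs v v).tendsto.comp hz
  have hFu : ∀ v : ℂ, Tendsto (fun n => fderiv ℝ f (z n) v + ⟪a n, fderiv ℝ φ (z n) v⟫) atTop
      (𝓝 (fderiv ℝ f w v)) := by
    intro v
    have h3 : Tendsto (fun n => fderiv ℝ f (z n) v) atTop (𝓝 (fderiv ℝ f w v)) :=
      (d1_cont hf v).tendsto.comp hz
    have h4 : Tendsto (fun n => fderiv ℝ φ (z n) v) atTop (𝓝 (fderiv ℝ φ w v)) :=
      (d1_cont hφ v).tendsto.comp hz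
    simpa using h3.add (ha.inner h4)
  have hFuu : ∀ v : ℂ, Tendsto (fun n => fderiv ℝ (fderiv ℝ f) (z n) v v +
      ⟪a n, d2 φ v v (z n)⟫) atTop (𝓝 (fderiv ℝ (fderiv ℝ f) w v v)) := by
    intro v
    have h3 : Tendsto (fun n => fderiv ℝ (fderiv ℝ f) (z n) v v) atTop
      (𝓝 (fderiv ℝ (fderiv ℝ f) w v v)) := (d2_cont hf v v).tendsto.comp hz
    have h4 : Tendsto (fun n => d2 φ v v (z n)) atTop (𝓝 (d2 φ v v w)) :=
      (d2_contE hφ v v).tendsto.comp hz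
    simpa using h3.add (ha.inner h4)
  -- `t ρ` has a limit
  have hk : Tendsto (fun n => t n * rh φ (z n)) atTop
      (𝓝 (fderiv ℝ (rh φ) w u / fderiv ℝ f w u)) := by
    refine ((hRu u).div (hFu u) hu).congr' ?_
    filter_upwards [(hFu u).eventually_ne hu] with n hn
    show fderiv ℝ (rh φ) (z n) u / _ = _
    rw [h1 n u]
    field_simp
  have hk2 : Tendsto (fun n => t n * rh φ (z n) ^ 2) atTop (𝓝 0) := by
    have := hk.mul hR
    rw [mul_zero] at this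
    refine this.congr fun n => ?_
    ring
  have h3 := (((hR.mul (hRuu w)).sub ((hRu w).pow 2)).sub (hk2.mul (hFuu w)))
  have h4 := ge_of_tendsto' h3 (fun n => h2 n w)
  have h5 : 0 < (fderiv ℝ (rh φ) w w) ^ 2 := by positivity
  simp only [zero_mul, zero_sub, sub_zero] at h4
  linarith

/-- Limits inside the disc are critical points with semidefinite second derivative. -/
theorem inner_lim {φ : ℂ → E4} {f : ℂ → ℝ} {w : ℂ} (hφ : ContDiffAt ℝ ∞ φ w)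
    (hf : ContDiffAt ℝ ∞ f w) (hr : 0 < rh φ w) {z : ℕ → ℂ} {t : ℕ → ℝ} {a : ℕ → E4}
    (hz : Tendsto z atTop (𝓝 w)) (ha : Tendsto a atTop (𝓝 0)) (ht : Tendsto t atTop atTop)
    (h1 : ∀ n, E1 φ f (t n) (a n) (z n)) (h2 : ∀ n, E2 φ f (t n) (a n) (z n)) :
    fderiv ℝ f w = 0 ∧ ∀ u : ℂ, fderiv ℝ (fderiv ℝ f) w u u ≤ 0 := by
  have hrs := rh_smooth hφ
  have hR : Tendsto (fun n => rh φ (z n)) atTop (𝓝 (rh φ w)) :=
    hrs.continuousAt.tendsto.comp hz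
  have hRu : ∀ v : ℂ, Tendsto (fun n => fderiv ℝ (rh φ) (z n) v) atTop
      (𝓝 (fderiv ℝ (rh φ) w v)) := fun v => (d1_cont hrs v).tendsto.comp hz
  have hRuu : ∀ v : ℂ, Tendsto (fun n => fderiv ℝ (fderiv ℝ (rh φ)) (z n) v v) atTop
      (𝓝 (fderiv ℝ (fderiv ℝ (rh φ)) w v v)) := fun v => (d2_cont hrs v v).tendsto.comp hz
  have hFu : ∀ v : ℂ, Tendsto (fun n => fderiv ℝ f (z n) v + ⟪a n, fderiv ℝ φ (z n) v⟫) atTop
      (𝓝 (fderiv ℝ f w v)) := by
    intro v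
    have h3 : Tendsto (fun n => fderiv ℝ f (z n) v) atTop (𝓝 (fderiv ℝ f w v)) :=
      (d1_cont hf v).tendsto.comp hz
    have h4 : Tendsto (fun n => fderiv ℝ φ (z n) v) atTop (𝓝 (fderiv ℝ φ w v)) :=
      (d1_cont hφ v).tendsto.comp hz
    simpa using h3.add (ha.inner h4)
  have hFuu : ∀ v : ℂ, Tendsto (fun n => fderiv ℝ (fderiv ℝ f) (z n) v v +
      ⟪a n, d2 φ v v (z n)⟫) atTop (𝓝 (fderiv ℝ (fderiv ℝ f) w v v)) := by
    intro v
    have h3 : Tendsto (fun n => fderiv ℝ (fderiv ℝ f) (z n) v v) atTop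
      (𝓝 (fderiv ℝ (fderiv ℝ f) w v v)) := (d2_cont hf v v).tendsto.comp hz
    have h4 : Tendsto (fun n => d2 φ v v (z n)) atTop (𝓝 (d2 φ v v w)) :=
      (d2_contE hφ v v).tendsto.comp hz
    simpa using h3.add (ha.inner h4)
  have hti : Tendsto (fun n => (t n)⁻¹) atTop (𝓝 0) := ht.inv_tendsto_atTop
  have hev : ∀ᶠ n in atTop, 0 < rh φ (z n) ∧ 0 < t n :=
    (hR.eventually (lt_mem_nhds hr)).and (ht.eventually_gt_atTop 0)
  constructor
  · ext v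
    have h3 : Tendsto (fun n => (t n)⁻¹ * (fderiv ℝ (rh φ) (z n) v / rh φ (z n))) atTop
        (𝓝 (0 * (fderiv ℝ (rh φ) w v / rh φ w))) := hti.mul ((hRu v).div hR hr.ne')
    rw [zero_mul] at h3
    refine tendsto_nhds_unique ((hFu v)) (h3.congr' ?_)
    filter_upwards [hev] with n hn
    obtain ⟨hn1, hn2⟩ := hn
    rw [h1 n v]
    field_simp
  · intro v
    have h3 : Tendsto (fun n => (t n)⁻¹ * ((rh φ (z n) * fderiv ℝ (fderiv ℝ (rh φ)) (z n) v v -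
        (fderiv ℝ (rh φ) (z n) v) ^ 2) / rh φ (z n) ^ 2)) atTop
        (𝓝 (0 * ((rh φ w * fderiv ℝ (fderiv ℝ (rh φ)) w v v -
        (fderiv ℝ (rh φ) w v) ^ 2) / rh φ w ^ 2))) :=
      hti.mul (((hR.mul (hRuu v)).sub ((hRu v).pow 2)).div (hR.pow 2) (by positivity))
    rw [zero_mul] at h3
    refine le_of_tendsto_of_tendsto (hFuu v) h3 ?_
    filter_upwards [hev] with n hn
    obtain ⟨hn1, hn2⟩ := hn
    have h4 := h2 n v
    rw [← div_eq_inv_mul, div_div, le_div_iff₀ (by positivity)]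
    linarith

/-- Different critical points have different limits. -/
theorem no_merge {φ : ℂ → E4} {f : ℂ → ℝ} {w : ℂ} (hφ : ContDiffAt ℝ ∞ φ w)
    (hf : ContDiffAt ℝ ∞ f w) (hr : 0 < rh φ w)
    (hm : ∀ u : ℂ, (∀ v : ℂ, fderiv ℝ (fderiv ℝ f) w u v = 0) → u = 0)
    {z z' : ℕ → ℂ} {t : ℕ → ℝ} {a : ℕ → E4}
    (hz : Tendsto z atTop (𝓝 w)) (hz' : Tendsto z' atTop (𝓝 w))
    (ha : Tendsto a atTop (𝓝 0)) (ht : Tendsto t atTop atTop)
    (h1 : ∀ n, E1 φ f (t n) (a n) (z n)) (h1' : ∀ n, E1 φ f (t n) (a n) (z' n))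
    (hne : ∀ n, z n ≠ z' n) : False := by
  have hrs := rh_smooth hφ
  -- the gradient of `f`
  set F : ℂ → ℝ × ℝ := fun x => (fderiv ℝ f x 1, fderiv ℝ f x Complex.I) with hF
  have hF1 : ∀ v : ℂ, ContDiffAt ℝ ∞ (fun x => fderiv ℝ f x v) w := fun v =>
    (smf hf).clm_apply contDiffAt_const
  have hFs : ContDiffAt ℝ ∞ F w := (hF1 1).prodMk (hF1 Complex.I)
  have hFd : HasStrictFDerivAt F (fderiv ℝ F w) w := by
    have h3 : ContDiffAt ℝ 1 F w := hFs.of_le (by exact_mod_cast le_top)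
    exact h3.hasStrictFDerivAt (by simp)
  have hinj : Function.Injective (fderiv ℝ F w) := by
    rw [injective_iff_map_eq_zero]
    intro u hu
    have h3 : fderiv ℝ F w = (fderiv ℝ (fun x => fderiv ℝ f x 1) w).prod
        (fderiv ℝ (fun x => fderiv ℝ f x Complex.I) w) :=
      DifferentiableAt.fderiv_prodMk ((hF1 1).differentiableAt (by simp))
        ((hF1 Complex.I).differentiableAt (by simp))
    rw [h3, ContinuousLinearMap.prod_apply, Prod.mk_eq_zero] at hu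
    rw [← fderiv2_apply hf, ← fderiv2_apply hf] at hu
    refine hm u fun v => ?_
    have h4 : v = v.re • (1 : ℂ) + v.im • Complex.I := by
      apply Complex.ext <;> simp
    rw [h4, map_add, map_smul, map_smul, hu.1, hu.2]
    simp
  obtain ⟨c, hc, hlow⟩ := lower_bound hFd hinj
  -- the perturbation
  set S : ℂ → ℝ × ℝ := fun x => ((rh φ x)⁻¹ * fderiv ℝ (rh φ) x 1,
    (rh φ x)⁻¹ * fderiv ℝ (rh φ) x Complex.I) with hS
  have hSs : ContDiffAt ℝ ∞ S w := by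
    have h3 : ∀ v : ℂ, ContDiffAt ℝ ∞ (fun x => (rh φ x)⁻¹ * fderiv ℝ (rh φ) x v) w := fun v =>
      (hrs.inv hr.ne').mul ((smf hrs).clm_apply contDiffAt_const)
    exact (h3 1).prodMk (h3 Complex.I)
  obtain ⟨K, hK, hup⟩ := upper_bound hSs
  set T : ℂ → E4 × E4 := fun x => (fderiv ℝ φ x 1, fderiv ℝ φ x Complex.I) with hT
  have hTs : ContDiffAt ℝ ∞ T w :=
    ((smf hφ).clm_apply contDiffAt_const).prodMk ((smf hφ).clm_apply contDiffAt_const)
  obtain ⟨M, hM, hup2⟩ := upper_bound hTs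
  have hzz : Tendsto (fun n => (z n, z' n)) atTop (𝓝 (w, w)) := by
    rw [nhds_prod_eq]
    exact hz.prodMk hz'
  have hRz : ∀ᶠ n in atTop, 0 < rh φ (z n) :=
    (hrs.continuousAt.tendsto.comp hz).eventually (lt_mem_nhds hr)
  have hRz' : ∀ᶠ n in atTop, 0 < rh φ (z' n) :=
    (hrs.continuousAt.tendsto.comp hz').eventually (lt_mem_nhds hr)
  have hti : Tendsto (fun n => (t n)⁻¹) atTop (𝓝 0) := ht.inv_tendsto_atTop
  have hsmall : ∀ᶠ n in atTop, (t n)⁻¹ * K + ‖a n‖ * M < c := by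
    have h3 : Tendsto (fun n => (t n)⁻¹ * K + ‖a n‖ * M) atTop (𝓝 (0 * K + ‖(0 : E4)‖ * M)) :=
      (hti.mul_const K).add (ha.norm.mul_const M)
    simp only [zero_mul, norm_zero, add_zero] at h3
    exact h3.eventually (gt_mem_nhds hc)
  have hall := ((((hzz.eventually hlow).and (hzz.eventually hup)).and
    (hzz.eventually hup2)).and ((hRz.and hRz').and (ht.eventually_gt_atTop 0))).and hsmall
  obtain ⟨n, ⟨⟨⟨hA, hB⟩, hC⟩, ⟨hD, hE⟩, hG⟩, hH⟩ := hall.exists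
  simp only at hA hB hC
  have hkey : ∀ x : ℂ, 0 < rh φ x → E1 φ f (t n) (a n) x → ∀ v : ℂ,
      fderiv ℝ f x v = (t n)⁻¹ * ((rh φ x)⁻¹ * fderiv ℝ (rh φ) x v) - ⟪a n, fderiv ℝ φ x v⟫ := by
    intro x hx h3 v
    rw [h3 v]
    field_simp
    ring
  have hdiff : F (z n) - F (z' n) = (t n)⁻¹ • (S (z n) - S (z' n)) -
      (⟪a n, (T (z n) - T (z' n)).1⟫, ⟪a n, (T (z n) - T (z' n)).2⟫) := by
    apply Prod.ext
    · simp only [hF, hS, hT, Prod.fst_sub, Prod.smul_fst, smul_eq_mul, inner_sub_right]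
      rw [hkey _ hD (h1 n) 1, hkey _ hE (h1' n) 1]
      ring
    · simp only [hF, hS, hT, Prod.snd_sub, Prod.smul_snd, smul_eq_mul, inner_sub_right]
      rw [hkey _ hD (h1 n) Complex.I, hkey _ hE (h1' n) Complex.I]
      ring
  have hpos : 0 < ‖z n - z' n‖ := norm_pos_iff.mpr (sub_ne_zero.mpr (hne n))
  have h5 : ‖((⟪a n, (T (z n) - T (z' n)).1⟫ : ℝ), (⟪a n, (T (z n) - T (z' n)).2⟫ : ℝ))‖ ≤
      ‖a n‖ * (M * ‖z n - z' n‖) := by
    rw [Prod.norm_mk]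
    refine max_le ?_ ?_
    · refine (norm_inner_le_norm _ _).trans (mul_le_mul_of_nonneg_left ?_ (norm_nonneg _))
      exact (norm_fst_le _).trans hC
    · refine (norm_inner_le_norm _ _).trans (mul_le_mul_of_nonneg_left ?_ (norm_nonneg _))
      exact (norm_snd_le _).trans hC
  have h6 : ‖F (z n) - F (z' n)‖ ≤ ((t n)⁻¹ * K + ‖a n‖ * M) * ‖z n - z' n‖ := by
    rw [hdiff]
    refine (norm_sub_le _ _).trans ?_
    rw [norm_smul, Real.norm_eq_abs, abs_of_pos (inv_pos.mpr hG)]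
    have := mul_le_mul_of_nonneg_left hB (inv_pos.mpr hG).le
    nlinarith
  have h7 : ((t n)⁻¹ * K + ‖a n‖ * M) * ‖z n - z' n‖ < c * ‖z n - z' n‖ :=
    mul_lt_mul_of_pos_right hH hpos
  linarith

end Pool.Agent.Q196.SR
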