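import Pool.Agent.Q196.SR.Close2

/-!
Compactness: for large `t` there are at most as many local minima as `f` has local maxima.
-/

set_option autoImplicit false

namespace Pool.Agent.Q196.SR

open scoped ContDiff RealInnerProductSpace ENNReal Topology
open MeasureTheory Set Metric Filter Pool.Agent.Y503.RB

theorem symm2 {f : ℂ → ℝ} {w : ℂ} (hf : ContDiffAt ℝ ∞ f w) (u v : ℂ) :
    fderiv ℝ (fderiv ℝ f) w u v = fderiv ℝ (fderiv ℝ f) w v u := by
  have h : IsSymmSndFDerivAt ℝ f w := hf.isSymmSndFDerivAt (by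
    simp only [minSmoothness_of_isRCLikeNormedField]
    exact ENat.LEInfty.out)
  exact h u v

theorem negdef {f : ℂ → ℝ} {w : ℂ} (hf : ContDiffAt ℝ ∞ f w)
    (h1 : ∀ u : ℂ, fderiv ℝ (fderiv ℝ f) w u u ≤ 0)
    (hm : ∀ u : ℂ, (∀ v : ℂ, fderiv ℝ (fderiv ℝ f) w u v = 0) → u = 0) {u : ℂ} (hu : u ≠ 0) :
    fderiv ℝ (fderiv ℝ f) w u u < 0 := by
  refine lt_of_le_of_ne (h1 u) fun h0 => hu (hm u fun v => ?_)
  by_contra hc
  set b := fderiv ℝ (fderiv ℝ f) w u v with hb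
  set c := fderiv ℝ (fderiv ℝ f) w v v with hcd
  have h2 : ∀ s : ℝ, c + 2 * s * b ≤ 0 := by
    intro s
    have h3 := h1 (v + s • u)
    simp only [map_add, map_smul, ContinuousLinearMap.add_apply,
      ContinuousLinearMap.smul_apply, smul_eq_mul] at h3
    rw [h0, symm2 hf v u] at h3
    linarith
  have h3 := h2 ((1 - c) / (2 * b))
  have h4 : 2 * ((1 - c) / (2 * b)) * b = 1 - c := by
    field_simp
  linarith

theorem exists_inj {S : Set ℂ} {m : ℕ} (h : (m : ℕ∞) < S.encard) :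
    ∃ x : Fin (m + 1) → ℂ, Function.Injective x ∧ ∀ i, x i ∈ S := by
  have h1 : ((m + 1 : ℕ) : ℕ∞) ≤ S.encard := by
    have := Order.add_one_le_of_lt h
    exact_mod_cast this
  obtain ⟨t, ht, hcard⟩ := Set.exists_subset_encard_eq h1
  have hfin : t.Finite := Set.finite_of_encard_eq_coe hcard
  have h2 : hfin.toFinset.card = m + 1 := by
    have := hfin.encard_eq_coe_toFinset_card
    rw [hcard] at this
    exact_mod_cast this.symm
  let e := (hfin.toFinset.equivFinOfCardEq h2).symm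
  refine ⟨fun i => (e i : ℂ), fun i j hij => e.injective (Subtype.ext hij), fun i => ht ?_⟩
  exact hfin.mem_toFinset.mp (e i).2

theorem sd_le_one {φ : ℂ → E4} (h : SliceDisc φ) {z : ℂ} (hz : z ∈ closedBall (0 : ℂ) 1) :
    ‖φ z‖ ≤ 1 := by
  rcases eq_or_lt_of_le (mem_closedBall.mp hz) with h1 | h1
  · exact (h.bdry z h1).le
  · exact (h.inside z h1).le

theorem sd_at {φ : ℂ → E4} (h : SliceDisc φ) {z : ℂ} (hz : z ∈ closedBall (0 : ℂ) 1) :
    ContDiffAt ℝ ∞ φ z := by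
  obtain ⟨W, hW, hsub, hs⟩ := h.smooth
  exact hs.contDiffAt (hW.mem_nhds (hsub hz))

theorem rh_pos {φ : ℂ → E4} (h : SliceDisc φ) {z : ℂ} (hz : z ∈ ball (0 : ℂ) 1) : 0 < rh φ z := by
  have := h.inside z hz
  unfold rh
  nlinarith [norm_nonneg (φ z)]

theorem rh_zero {φ : ℂ → E4} (h : SliceDisc φ) {z : ℂ} (hz : z ∈ sphere (0 : ℂ) 1) :
    rh φ z = 0 := by
  have := h.bdry z hz
  unfold rh
  rw [this]
  ring

theorem rh_trans {φ : ℂ → E4} (h : SliceDisc φ) {z : ℂ} (hz : z ∈ sphere (0 : ℂ) 1) :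
    fderiv ℝ (rh φ) z z ≠ 0 := by
  have h1 := h.trans z hz
  have h2 : fderiv ℝ (rh φ) z = -fderiv ℝ (fun w => ‖φ w‖ ^ 2) z := by
    have : rh φ = fun w => 1 - ‖φ w‖ ^ 2 := rfl
    rw [this, fderiv_const_sub]
  rw [h2, ContinuousLinearMap.neg_apply]
  linarith

theorem close {φ : ℂ → E4} {f : ℂ → ℝ} {m : ℕ} (h : SliceDisc φ)
    (hf : ∀ z ∈ closedBall (0 : ℂ) 1, ContDiffAt ℝ ∞ f z)
    (hm : ∀ z ∈ ball (0 : ℂ) 1, fderiv ℝ f z = 0 → ∀ u : ℂ,
      (∀ v : ℂ, fderiv ℝ (fderiv ℝ f) z u v = 0) → u = 0)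
    (hbd : ∀ z ∈ sphere (0 : ℂ) 1, fderiv ℝ f z ≠ 0)
    (hmax : {z : ℂ | z ∈ ball (0 : ℂ) 1 ∧ IsLocalMax f z}.encard ≤ m) :
    ∃ N : ℕ, ∀ (t : ℝ) (a : E4), (N : ℝ) + 1 ≤ t → ‖a‖ ≤ 1 / ((N : ℝ) + 1) →
      {z : ℂ | z ∈ ball (0 : ℂ) 1 ∧ IsLocalMin (PP φ f t a) z}.encard ≤ m := by
  by_contra hcon
  push Not at hcon
  choose t a ht ha hc using hcon
  choose x hxi hx using fun n => exists_inj (hc n)
  have hK : IsCompact (Set.pi univ (fun _ : Fin (m + 1) => closedBall (0 : ℂ) 1)) :=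
    isCompact_univ_pi fun _ => isCompact_closedBall 0 1
  obtain ⟨y, hy, θ, hθ, hlim⟩ := hK.tendsto_subseq (x := x)
    (fun n i _ => ball_subset_closedBall (hx n i).1)
  have hlim' : ∀ i, Tendsto (fun n => x (θ n) i) atTop (𝓝 (y i)) := fun i =>
    (tendsto_pi_nhds.mp hlim) i
  have hyc : ∀ i, y i ∈ closedBall (0 : ℂ) 1 := fun i => hy i (mem_univ i)
  have htt : Tendsto (fun n => t (θ n)) atTop atTop := by
    have h1 : Tendsto t atTop atTop := by
      refine tendsto_atTop_mono (f := fun n : ℕ => (n : ℝ)) (fun n => ?_)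
        tendsto_natCast_atTop_atTop
      linarith [ht n]
    exact h1.comp hθ.tendsto_atTop
  have haa : Tendsto (fun n => a (θ n)) atTop (𝓝 0) := by
    have h1 : Tendsto a atTop (𝓝 0) := by
      rw [tendsto_zero_iff_norm_tendsto_zero]
      exact squeeze_zero (fun n => norm_nonneg _) ha tendsto_one_div_add_atTop_nhds_zero_nat
    exact h1.comp hθ.tendsto_atTop
  have hE : ∀ i n, E1 φ f (t (θ n)) (a (θ n)) (x (θ n) i) ∧
      E2 φ f (t (θ n)) (a (θ n)) (x (θ n) i) := by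
    intro i n
    obtain ⟨h1, h2⟩ := hx (θ n) i
    exact PP_min (sd_at h (ball_subset_closedBall h1)) (hf _ (ball_subset_closedBall h1))
      (rh_pos h h1) h2
  have hyb : ∀ i, y i ∈ ball (0 : ℂ) 1 := by
    intro i
    rcases eq_or_lt_of_le (mem_closedBall.mp (hyc i)) with h1 | h1
    · exfalso
      exact no_bdry (sd_at h (hyc i)) (hf _ (hyc i)) (rh_zero h h1) (rh_trans h h1) (hbd _ h1)
        (hlim' i) haa (fun n => (hE i n).1) (fun n => (hE i n).2)
    · exact h1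
  have hyl : ∀ i, fderiv ℝ f (y i) = 0 ∧ ∀ u : ℂ, fderiv ℝ (fderiv ℝ f) (y i) u u ≤ 0 := fun i =>
    inner_lim (sd_at h (hyc i)) (hf _ (hyc i)) (rh_pos h (hyb i)) (hlim' i) haa htt
      (fun n => (hE i n).1) (fun n => (hE i n).2)
  have hymax : ∀ i, IsLocalMax f (y i) := fun i =>
    localMax_test (hf _ (hyc i)) (hyl i).1 fun u hu =>
      negdef (hf _ (hyc i)) (hyl i).2 (hm _ (hyb i) (hyl i).1) hu
  have hyi : Function.Injective y := by
    intro i j hij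
    by_contra hne
    refine no_merge (sd_at h (hyc i)) (hf _ (hyc i)) (rh_pos h (hyb i))
      (hm _ (hyb i) (hyl i).1) (hlim' i) (by rw [hij]; exact hlim' j) haa htt
      (fun n => (hE i n).1) (fun n => (hE j n).1) (fun n hn => hne (hxi (θ n) hn))
  have h1 : ((m + 1 : ℕ) : ℕ∞) ≤ {z : ℂ | z ∈ ball (0 : ℂ) 1 ∧ IsLocalMax f z}.encard := by
    have h2 : ((Finset.univ.map ⟨y, hyi⟩ : Finset ℂ) : Set ℂ) ⊆
        {z : ℂ | z ∈ ball (0 : ℂ) 1 ∧ IsLocalMax f z} := by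
      intro z hz
      simp only [Finset.coe_map, Function.Embedding.coeFn_mk, Finset.coe_univ, image_univ,
        mem_range] at hz
      obtain ⟨i, rfl⟩ := hz
      exact ⟨hyb i, hymax i⟩
    have h3 := Set.encard_le_encard h2
    rw [Set.encard_coe_eq_coe_finsetCard] at h3
    simpa using h3
  have h2 := h1.trans hmax
  have h3 : m + 1 ≤ m := by exact_mod_cast h2
  omega

end Pool.Agent.Q196.SR
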