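import Pool.Agent.Q196.SR.Close3

/-!
Generic linear perturbations give Morse functions.
-/

set_option autoImplicit false

namespace Pool.Agent.Q196.SR

open scoped ContDiff RealInnerProductSpace ENNReal Topology
open MeasureTheory Set Metric Filter Pool.Agent.Y503.RB

/-- Gradient. -/
noncomputable def gr (h : E4 → ℝ) (x : E4) : E4 :=
  ∑ i : Fin 4, fderiv ℝ h x (EuclideanSpace.single i (1 : ℝ)) • EuclideanSpace.single i (1 : ℝ)

theorem sum_single (w : E4) : ∑ i : Fin 4, w i • (EuclideanSpace.single i (1 : ℝ) : E4) = w := by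
  ext j
  fin_cases j <;> simp [Fin.sum_univ_four]

theorem inner_gr (h : E4 → ℝ) (x w : E4) : (⟪gr h x, w⟫ : ℝ) = fderiv ℝ h x w := by
  conv_rhs => rw [← sum_single w, map_sum]
  unfold gr
  rw [sum_inner]
  refine Finset.sum_congr rfl fun i _ => ?_
  rw [inner_smul_left, map_smul, smul_eq_mul, EuclideanSpace.inner_single_left]
  simp
  ring

theorem gr_smooth {h : E4 → ℝ} {x : E4} (hh : ContDiffAt ℝ ∞ h x) : ContDiffAt ℝ ∞ (gr h) x := by
  unfold gr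
  refine ContDiffAt.sum fun i _ => ?_
  have h1 : ContDiffAt ℝ ∞ (fderiv ℝ h) x := hh.fderiv_right (by simp)
  exact (h1.clm_apply contDiffAt_const).smul contDiffAt_const

/-- The vector `a` for which a point is critical (one solution). -/
noncomputable def Av (h : E4 → ℝ) (t : ℝ) (φ : ℂ → E4) (z : ℂ) : E4 :=
  -((2 / (t * rh φ z)) • φ z) - gr h (φ z)

theorem Av_smooth {h : E4 → ℝ} {t : ℝ} (ht : 0 < t) {φ : ℂ → E4} {z : ℂ}
    (hφ : ContDiffAt ℝ ∞ φ z) (hr : 0 < rh φ z) (hh : ContDiffAt ℝ ∞ h (φ z)) :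
    ContDiffAt ℝ ∞ (Av h t φ) z := by
  have h1 : ContDiffAt ℝ ∞ (fun z => 2 / (t * rh φ z)) z :=
    contDiffAt_const.div (contDiffAt_const.mul (rh_smooth hφ)) (by positivity)
  have h2 : ContDiffAt ℝ ∞ (fun z => (2 / (t * rh φ z)) • φ z) z := h1.fun_smul hφ
  have h3 : ContDiffAt ℝ ∞ (fun z => gr h (φ z)) z := (gr_smooth hh).comp z hφ
  exact h2.neg.sub h3

theorem rh_fderiv {φ : ℂ → E4} {z : ℂ} (hφ : DifferentiableAt ℝ φ z) (u : ℂ) :
    fderiv ℝ (rh φ) z u = -(2 * ⟪φ z, fderiv ℝ φ z u⟫) := by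
  have h2 : fderiv ℝ (rh φ) z = -fderiv ℝ (fun w => ‖φ w‖ ^ 2) z := by
    have : rh φ = fun w => 1 - ‖φ w‖ ^ 2 := rfl
    rw [this, fderiv_const_sub]
  rw [h2, ContinuousLinearMap.neg_apply, (hφ.hasFDerivAt.norm_sq).fderiv]
  simp

theorem comp_fderiv {h : E4 → ℝ} {φ : ℂ → E4} {z : ℂ} (hφ : DifferentiableAt ℝ φ z)
    (hh : DifferentiableAt ℝ h (φ z)) (u : ℂ) :
    fderiv ℝ (fun w => h (φ w)) z u = fderiv ℝ h (φ z) (fderiv ℝ φ z u) := by
  have h1 : HasFDerivAt (fun w => h (φ w)) ((fderiv ℝ h (φ z)).comp (fderiv ℝ φ z)) z :=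
    hh.hasFDerivAt.comp z hφ.hasFDerivAt
  rw [h1.fderiv]
  rfl

theorem Av_inner {h : E4 → ℝ} {t : ℝ} {φ : ℂ → E4} {z : ℂ}
    (hφ : DifferentiableAt ℝ φ z) (hh : DifferentiableAt ℝ h (φ z)) (u : ℂ) :
    (⟪Av h t φ z, fderiv ℝ φ z u⟫ : ℝ) =
      fderiv ℝ (rh φ) z u / (t * rh φ z) - fderiv ℝ (fun w => h (φ w)) z u := by
  rw [rh_fderiv hφ, comp_fderiv hφ hh]
  unfold Av
  rw [inner_sub_left, inner_neg_left, inner_smul_left, inner_gr]
  simp
  ring

/-- Parametrisation of all pairs (critical point, parameter). -/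
noncomputable def Lam (h : E4 → ℝ) (t : ℝ) (φ N₁ N₂ : ℂ → E4) (x : E4) : E4 :=
  Av h t φ (zc x) + x 2 • N₁ (zc x) + x 3 • N₂ (zc x)

theorem span_of_orth {φ N₁ N₂ : ℂ → E4} {U : Set ℂ} (hP : Patch φ U) (hF : Frame φ N₁ N₂ U)
    {z : ℂ} (hz : z ∈ U) {v : E4} (hv : ∀ u : ℂ, ⟪v, fderiv ℝ φ z u⟫ = (0 : ℝ)) :
    ∃ α β : ℝ, v = α • N₁ z + β • N₂ z := by
  by_cases h0 : v = 0
  · exact ⟨0, 0, by simp [h0]⟩
  · have hn : 0 < ‖v‖ := norm_pos_iff.mpr h0
    obtain ⟨θ, -, hθ⟩ := Pool.Agent.Y977.RB.frame φ N₁ N₂ U hP hF z hz (‖v‖⁻¹ • v)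
      (by rw [norm_smul, norm_inv, norm_norm, inv_mul_cancel₀ hn.ne'])
      (fun u => by
        unfold d1
        rw [inner_smul_left, hv u]
        simp)
    refine ⟨‖v‖ * Real.cos θ, ‖v‖ * Real.sin θ, ?_⟩
    have h1 : ‖v‖ • (‖v‖⁻¹ • v) = v := by
      rw [smul_smul, mul_inv_cancel₀ hn.ne', one_smul]
    have h2 : ‖v‖ • (‖v‖⁻¹ • v) = (‖v‖ * Real.cos θ) • N₁ z + (‖v‖ * Real.sin θ) • N₂ z := by
      rw [hθ]
      unfold nor
      rw [smul_add, smul_smul, smul_smul]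
    exact h1.symm.trans h2

/-- If `x` is a regular point of the parametrisation then the critical point is nondegenerate. -/
theorem nondeg_of_reg {h : E4 → ℝ} {t : ℝ} (ht : 0 < t) {φ N₁ N₂ : ℂ → E4} {U : Set ℂ}
    (hP : Patch φ U) (hF : Frame φ N₁ N₂ U) (hh : ∀ z ∈ U, ContDiffAt ℝ ∞ h (φ z))
    {x : E4} (hx : zc x ∈ U)
    (hcrit : fderiv ℝ (PP φ (fun w => h (φ w)) t (Lam h t φ N₁ N₂ x)) (zc x) = 0)
    (hdet : (fderiv ℝ (Lam h t φ N₁ N₂) x).det ≠ 0) {u : ℂ}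
    (hu : ∀ v : ℂ, fderiv ℝ (fderiv ℝ (PP φ (fun w => h (φ w)) t (Lam h t φ N₁ N₂ x)))
      (zc x) u v = 0) : u = 0 := by
  set z := zc x with hz
  set a := Lam h t φ N₁ N₂ x with ha
  have hUn : U ∈ 𝓝 z := hP.isOpen.mem_nhds hx
  have hφ : ContDiffAt ℝ ∞ φ z := hP.smooth.contDiffAt hUn
  have hφ1 : DifferentiableAt ℝ φ z := hφ.differentiableAt (by simp)
  have hr : ∀ w ∈ U, 0 < rh φ w := by
    intro w hw
    have := hP.inside w hw
    unfold rh
    nlinarith [norm_nonneg (φ w)]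
  have hrz := hr z hx
  have hf : ContDiffAt ℝ ∞ (fun w => h (φ w)) z := (hh z hx).comp z hφ
  have hN1 : ContDiffAt ℝ ∞ N₁ z := hF.smooth₁.contDiffAt hUn
  have hN2 : ContDiffAt ℝ ∞ N₂ z := hF.smooth₂.contDiffAt hUn
  have hA : ContDiffAt ℝ ∞ (Av h t φ) z := Av_smooth ht hφ hrz (hh z hx)
  -- the frozen field
  set B : ℂ → E4 := fun w => Av h t φ w + x 2 • N₁ w + x 3 • N₂ w with hB
  have hBs : ContDiffAt ℝ ∞ B z :=
    (hA.add (hN1.const_smul (x 2))).add (hN2.const_smul (x 3))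
  have hB1 : DifferentiableAt ℝ B z := hBs.differentiableAt (by simp)
  have hBz : B z = a := rfl
  have hrs := rh_smooth hφ
  have hE1 := PP_crit hφ hf hcrit
  -- the identity in a neighbourhood
  have hid : ∀ v : ℂ, (fun w => (⟪B w, fderiv ℝ φ w v⟫ : ℝ)) =ᶠ[𝓝 z]
      fun w => fderiv ℝ (rh φ) w v / (t * rh φ w) - fderiv ℝ (fun w => h (φ w)) w v := by
    intro v
    filter_upwards [hUn] with w hw
    have h1 : DifferentiableAt ℝ φ w :=
      (hP.smooth.contDiffAt (hP.isOpen.mem_nhds hw)).differentiableAt (by simp)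
    have h2 := hF.norm₁ w hw v
    have h3 := hF.norm₂ w hw v
    unfold d1 at h2 h3
    simp only [hB]
    rw [inner_add_left, inner_add_left, inner_smul_left, inner_smul_left, h2, h3,
      Av_inner h1 ((hh w hw).differentiableAt (by simp))]
    simp
  have hK : ∀ v : ℂ, (⟪fderiv ℝ B z u, fderiv ℝ φ z v⟫ : ℝ) = 0 := by
    intro v
    have hφv : DifferentiableAt ℝ (fun w => fderiv ℝ φ w v) z :=
      ((smf hφ).clm_apply contDiffAt_const).differentiableAt (by simp)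
    have h1 : fderiv ℝ (fun w => (⟪B w, fderiv ℝ φ w v⟫ : ℝ)) z u =
        ⟪B z, fderiv ℝ (fun w => fderiv ℝ φ w v) z u⟫ + ⟪fderiv ℝ B z u, fderiv ℝ φ z v⟫ := by
      rw [fderiv_inner_apply ℝ hB1 hφv]
    have hrv : HasFDerivAt (fun w => fderiv ℝ (rh φ) w v)
        (fderiv ℝ (fun w => fderiv ℝ (rh φ) w v) z) z :=
      (((smf hrs).clm_apply contDiffAt_const).differentiableAt (by simp)).hasFDerivAt
    have hfv : HasFDerivAt (fun w => fderiv ℝ (fun w => h (φ w)) w v)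
        (fderiv ℝ (fun w => fderiv ℝ (fun w => h (φ w)) w v) z) z :=
      (((smf hf).clm_apply contDiffAt_const).differentiableAt (by simp)).hasFDerivAt
    have hrd : HasFDerivAt (rh φ) (fderiv ℝ (rh φ) z) z :=
      (hrs.differentiableAt (by simp)).hasFDerivAt
    have hinv : HasFDerivAt (fun w => (t * rh φ w)⁻¹)
        (-((t * rh φ z) ^ 2)⁻¹ • (t • fderiv ℝ (rh φ) z)) z :=
      (hasDerivAt_inv (by positivity : t * rh φ z ≠ 0)).comp_hasFDerivAt z (hrd.const_mul t)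
    have h2 : HasFDerivAt (fun w => fderiv ℝ (rh φ) w v * (t * rh φ w)⁻¹ -
        fderiv ℝ (fun w => h (φ w)) w v) _ z := (hrv.mul hinv).sub hfv
    have h3 : fderiv ℝ (fun w => fderiv ℝ (rh φ) w v / (t * rh φ w) -
        fderiv ℝ (fun w => h (φ w)) w v) z u =
        fderiv ℝ (rh φ) z v * (-((t * rh φ z) ^ 2)⁻¹ * (t * fderiv ℝ (rh φ) z u)) +
        (t * rh φ z)⁻¹ * fderiv ℝ (fun w => fderiv ℝ (rh φ) w v) z u -
        fderiv ℝ (fun w => fderiv ℝ (fun w => h (φ w)) w v) z u := by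
      simp only [div_eq_mul_inv]
      rw [h2.fderiv]
      simp
    have h4 := h1.symm.trans (by rw [(hid v).fderiv_eq])
    rw [h3, ← fderiv2_apply hrs, ← fderiv2_apply hf] at h4
    have h5 := hu v
    rw [PP_hess hφ hf hcrit] at h5
    have h6 := (mul_eq_zero.mp h5).resolve_left (Real.exp_pos _).ne'
    have h7 : d2 φ u v z = fderiv ℝ (fun w => fderiv ℝ φ w v) z u := rfl
    rw [hBz] at h4
    rw [h7] at h6
    have h8 := hE1 v
    have h9 : (t * rh φ z)⁻¹ * (t * rh φ z) = 1 := inv_mul_cancel₀ (by positivity)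
    set q := (⟪a, fderiv ℝ (fun w => fderiv ℝ φ w v) z u⟫ : ℝ)
    set X := fderiv ℝ (fderiv ℝ (rh φ)) z u v
    set Y := fderiv ℝ (fderiv ℝ (fun w => h (φ w))) z u v
    set r := rh φ z
    set ru := fderiv ℝ (rh φ) z u
    set fv := fderiv ℝ (fun w => h (φ w)) z v + ⟪a, fderiv ℝ φ z v⟫
    have h10 : (⟪fderiv ℝ B z u, fderiv ℝ φ z v⟫ : ℝ) =
        fderiv ℝ (rh φ) z v * (-((t * r) ^ 2)⁻¹ * (t * ru)) + (t * r)⁻¹ * X - Y - q := by
      linarith
    rw [h10, h8]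
    have h11 : t * r * fv * (-((t * r) ^ 2)⁻¹ * (t * ru)) + (t * r)⁻¹ * X - Y - q =
        (t * r)⁻¹ * (X - t * ru * fv - t * r * (Y + q)) := by
      have htr : t * r ≠ 0 := by positivity
      field_simp
      ring
    rw [h11, h6, mul_zero]
  obtain ⟨α, β, hαβ⟩ := span_of_orth hP hF hx hK
  -- kernel vector
  by_contra hne
  apply hdet
  have hzc : HasFDerivAt (zc : E4 → ℂ) Pool.Agent.Y977.RB.zcL x := by
    have : (zc : E4 → ℂ) = fun x => Pool.Agent.Y977.RB.zcL x :=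
      funext fun x => (Pool.Agent.Y977.RB.zcL_apply x).symm
    rw [this]
    exact Pool.Agent.Y977.RB.zcL.hasFDerivAt
  have hA' : HasFDerivAt (fun y : E4 => Av h t φ (zc y))
      ((fderiv ℝ (Av h t φ) z).comp Pool.Agent.Y977.RB.zcL) x :=
    HasFDerivAt.comp (f := zc) (g := Av h t φ) x (hA.differentiableAt (by simp)).hasFDerivAt hzc
  have hN1' : HasFDerivAt (fun y : E4 => N₁ (zc y))
      ((fderiv ℝ N₁ z).comp Pool.Agent.Y977.RB.zcL) x :=
    HasFDerivAt.comp (f := zc) (g := N₁) x (hN1.differentiableAt (by simp)).hasFDerivAt hzc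
  have hN2' : HasFDerivAt (fun y : E4 => N₂ (zc y))
      ((fderiv ℝ N₂ z).comp Pool.Agent.Y977.RB.zcL) x :=
    HasFDerivAt.comp (f := zc) (g := N₂) x (hN2.differentiableAt (by simp)).hasFDerivAt hzc
  have hp : ∀ i : Fin 4, HasFDerivAt (fun y : E4 => y i)
      (EuclideanSpace.proj (𝕜 := ℝ) i : E4 →L[ℝ] ℝ) x := fun i =>
    (EuclideanSpace.proj (𝕜 := ℝ) i : E4 →L[ℝ] ℝ).hasFDerivAt
  have hL : HasFDerivAt (Lam h t φ N₁ N₂) _ x :=
    (hA'.add ((hp 2).smul hN1')).add ((hp 3).smul hN2')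
  have hBd : HasFDerivAt B _ z :=
    ((hA.differentiableAt (by simp)).hasFDerivAt.add
      ((hN1.differentiableAt (by simp)).hasFDerivAt.const_smul (x 2))).add
      ((hN2.differentiableAt (by simp)).hasFDerivAt.const_smul (x 3))
  set y : E4 := mk4 u (-α) (-β) with hy
  have hy0 : y ≠ 0 := by
    intro h0
    apply hne
    have := congrArg zc h0
    rw [hy, mk4_zc] at this
    rw [this]
    apply Complex.ext <;> simp [zc]
  have hker : fderiv ℝ (Lam h t φ N₁ N₂) x y = 0 := by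
    rw [hL.fderiv]
    rw [hBd.fderiv] at hαβ
    have hzy : Pool.Agent.Y977.RB.zcL y = u := by
      rw [Pool.Agent.Y977.RB.zcL_apply, hy, mk4_zc]
    have hy2 : y 2 = -α := by rw [hy, mk4_two]
    have hy3 : y 3 = -β := by rw [hy, mk4_three]
    have hαβ' : fderiv ℝ (Av h t φ) z u + x 2 • fderiv ℝ N₁ z u + x 3 • fderiv ℝ N₂ z u =
        α • N₁ z + β • N₂ z := hαβ
    have hgoal : fderiv ℝ (Av h t φ) z (Pool.Agent.Y977.RB.zcL y) +
        (x 2 • fderiv ℝ N₁ z (Pool.Agent.Y977.RB.zcL y) + y 2 • N₁ z) +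
        (x 3 • fderiv ℝ N₂ z (Pool.Agent.Y977.RB.zcL y) + y 3 • N₂ z) = 0 := by
      rw [hzy, hy2, hy3, neg_smul, neg_smul]
      have h1 : fderiv ℝ (Av h t φ) z u + (x 2 • fderiv ℝ N₁ z u + -(α • N₁ z)) +
          (x 3 • fderiv ℝ N₂ z u + -(β • N₂ z)) =
          (fderiv ℝ (Av h t φ) z u + x 2 • fderiv ℝ N₁ z u + x 3 • fderiv ℝ N₂ z u) -
            (α • N₁ z + β • N₂ z) := by abel
      rw [h1, hαβ', sub_self]
    exact hgoal
  by_contra hdet2
  apply hy0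
  let e := (fderiv ℝ (Lam h t φ N₁ N₂) x).toContinuousLinearEquivOfDetNeZero hdet2
  have h1 : e y = 0 := hker
  exact e.map_eq_zero_iff.mp h1

end Pool.Agent.Q196.SR
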