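import Pool.Agent.Q196.SR.Sard
import Pool.Agent.Q196.SR.Amb
import Pool.Agent.Q196.SR.Gfun

/-!
The convex function criterion.
-/

set_option autoImplicit false

namespace Pool.Agent.Q196.SR

open scoped ContDiff RealInnerProductSpace ENNReal Topology
open MeasureTheory Set Metric Filter Pool.Agent.Y503.RB

/-- First and second derivatives and local maxima of `1 - c P`. -/
theorem affine_calc {F P : ℂ → ℝ} {c : ℝ} (hc : 0 < c) {z : ℂ} (hP : ContDiffAt ℝ ∞ P z)
    (he : F =ᶠ[𝓝 z] fun w => 1 - c * P w) :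
    (fderiv ℝ F z = 0 → fderiv ℝ P z = 0) ∧
    (∀ u v : ℂ, fderiv ℝ (fderiv ℝ F) z u v = -c * fderiv ℝ (fderiv ℝ P) z u v) ∧
    (IsLocalMax F z → IsLocalMin P z) := by
  have h1 : fderiv ℝ F =ᶠ[𝓝 z] fun w => (-c) • fderiv ℝ P w := by
    filter_upwards [he.eventually_nhds, evd hP] with w hw hPw
    have h2 : fderiv ℝ F w = fderiv ℝ (fun w => 1 - c * P w) w := Filter.EventuallyEq.fderiv_eq hw
    rw [h2, fderiv_const_sub, fderiv_const_mul hPw, neg_smul]
  have hd : DifferentiableAt ℝ (fderiv ℝ P) z := (smf hP).differentiableAt (by simp)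
  refine ⟨?_, ?_, ?_⟩
  · intro h
    have h2 := h1.self_of_nhds
    rw [h] at h2
    exact (smul_eq_zero.mp h2.symm).resolve_left (neg_ne_zero.mpr hc.ne')
  · intro u v
    rw [h1.fderiv_eq, fderiv_fun_const_smul hd]
    simp
  · intro h
    have h2 := he.self_of_nhds
    filter_upwards [h, he] with w hw hew
    rw [hew, h2] at hw
    have : c * P z ≤ c * P w := by linarith
    exact le_of_mul_le_mul_left this hc

theorem eq_of_inner {a b : E4} (h : ∀ w : E4, (⟪a, w⟫ : ℝ) = ⟪b, w⟫) : a = b := by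
  have h1 := h (a - b)
  have h2 : (⟪a - b, a - b⟫ : ℝ) = 0 := by
    rw [inner_sub_left, h1, sub_self]
  exact sub_eq_zero.mp (inner_self_eq_zero.mp h2)

/-- A convex function whose restriction to the disc has at most `m` local maxima. -/
theorem convex_criterion {φ : ℂ → E4} {h : E4 → ℝ} {V : Set E4} {m : ℕ} (hφ : SliceDisc φ)
    (hV : IsOpen V) (hVs : closedBall (0 : E4) 1 ⊆ V) (hs : ContDiffOn ℝ ∞ h V)
    (hc : ConvexOn ℝ (closedBall (0 : E4) 1) h)
    (hmorse : ∀ z ∈ ball (0 : ℂ) 1, fderiv ℝ (fun w => h (φ w)) z = 0 → ∀ u : ℂ,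
      (∀ v : ℂ, fderiv ℝ (fderiv ℝ (fun w => h (φ w))) z u v = 0) → u = 0)
    (hbd : ∀ z ∈ sphere (0 : ℂ) 1, fderiv ℝ (fun w => h (φ w)) z ≠ 0)
    (hmax : {z : ℂ | z ∈ ball (0 : ℂ) 1 ∧ IsLocalMax (fun w => h (φ w)) z}.encard ≤ m) :
    ∃ (q : E4) (F : E4 → E4), BallDiffeo q F ∧ (∀ z ∈ closedBall (0 : ℂ) 1, φ z ≠ q) ∧
      SliceDisc (fun w => F (φ w)) ∧ MorseDisc (fun w => F (φ w)) m := by
  have hle : ∀ z ∈ closedBall (0 : ℂ) 1, ‖φ z‖ ≤ 1 := fun z hz => sd_le_one hφ hz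
  have hh : ∀ z ∈ closedBall (0 : ℂ) 1, ContDiffAt ℝ ∞ h (φ z) := fun z hz =>
    hs.contDiffAt (hV.mem_nhds (hVs (by simpa using hle z hz)))
  have hf : ∀ z ∈ closedBall (0 : ℂ) 1, ContDiffAt ℝ ∞ (fun w => h (φ w)) z := fun z hz =>
    (hh z hz).comp z (sd_at hφ hz)
  obtain ⟨N, hN⟩ := close hφ hf hmorse hbd hmax
  set t : ℝ := (N : ℝ) + 1 with ht_def
  have ht : 0 < t := by positivity
  obtain ⟨B, hB0, hB⟩ := ae_nondeg ht hφ.patch (fun z hz => hh z (ball_subset_closedBall hz))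
  have hC0 := Pool.Agent.Y977.RB.null (Av h t φ) (ball 0 1) isOpen_ball (fun z hz =>
    (Av_smooth ht (sd_at hφ (ball_subset_closedBall hz)) (rh_pos hφ hz)
      (hh z (ball_subset_closedBall hz))).contDiffWithinAt)
  set C : Set E4 := {y : E4 | ∃ r : ℝ, ∃ z ∈ ball (0 : ℂ) 1, y = r • Av h t φ z} with hCdef
  obtain ⟨a, ha, haBC⟩ : ∃ a ∈ ball (0 : E4) (1 / t), a ∉ B ∪ C := by
    by_contra hcon
    push Not at hcon
    have h1 : volume (ball (0 : E4) (1 / t)) ≤ volume (B ∪ C) := measure_mono hcon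
    rw [measure_union_null hB0 hC0] at h1
    exact absurd (measure_ball_pos volume (0 : E4) (by positivity : 0 < 1 / t)) (not_lt.mpr h1)
  have haB : a ∉ B := fun h => haBC (Or.inl h)
  have haC : a ∉ C := fun h => haBC (Or.inr h)
  have han : ‖a‖ ≤ 1 / t := (by simpa using ha : ‖a‖ < 1 / t).le
  have hcount := hN t a le_rfl han
  -- the function `H`
  set H : E4 → ℝ := fun x => h x + ⟪a, x⟫ with hH
  have hHs : ContDiffOn ℝ ∞ H V := hs.add (contDiff_const.inner ℝ contDiff_id).contDiffOn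
  have hHc : ConvexOn ℝ (closedBall (0 : E4) 1) H := by
    refine hc.add ?_
    refine ⟨convex_closedBall _ _, fun x _ y _ α β _ _ _ => ?_⟩
    simp only [inner_add_right, inner_smul_right, smul_eq_mul]
    exact le_rfl
  obtain ⟨q, hR, hq⟩ := exists_rad hV hVs hHs hHc ht
  have hqn : ∀ z ∈ closedBall (0 : ℂ) 1, φ z ≠ q := by
    intro z hz hzq
    have hzb : z ∈ ball (0 : ℂ) 1 := by
      rcases eq_or_lt_of_le (mem_closedBall.mp hz) with h1 | h1
      · exfalso
        have := hφ.bdry z h1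
        rw [hzq] at this
        exact absurd hR.lt (by rw [this]; exact lt_irrefl _)
      · exact h1
    apply haC
    refine ⟨1, z, hzb, ?_⟩
    rw [one_smul]
    refine eq_of_inner fun w => ?_
    have h1 := hq w
    have hhq : DifferentiableAt ℝ h q := by
      rw [← hzq]
      exact (hh z hz).differentiableAt (by simp)
    have h2 : fderiv ℝ H q w = fderiv ℝ h q w + ⟪a, w⟫ := by
      have h3 : HasFDerivAt (fun x : E4 => (⟪a, x⟫ : ℝ)) (innerSL ℝ a) q :=
        (innerSL ℝ a).hasFDerivAt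
      have h4 : HasFDerivAt H (fderiv ℝ h q + innerSL ℝ a) q := hhq.hasFDerivAt.add h3
      rw [h4.fderiv]
      simp
    rw [h2] at h1
    have hr := rh_pos hφ hzb
    have hr2 : 1 - ‖q‖ ^ 2 = rh φ z := by
      unfold rh
      rw [hzq]
    rw [hr2] at h1
    unfold Av
    rw [hzq, inner_sub_left, inner_neg_left, inner_smul_left, inner_gr]
    simp only [conj_trivial]
    have htr : t * rh φ z ≠ 0 := by positivity
    have h5 : (⟪a, w⟫ : ℝ) = -(2 * ⟪q, w⟫) / (t * rh φ z) - fderiv ℝ h q w := by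
      rw [h1]
      field_simp
      ring
    rw [h5]
    ring
  obtain ⟨hS, hfix⟩ := slice_pushG hR hφ hqn
  refine ⟨q, pushG (gfun H t) q, hR.diffeo, hqn, hS, ?_⟩
  set c : ℝ := (gfun H t q)⁻¹ with hcdef
  have hcpos : 0 < c := inv_pos.mpr hR.max_pos
  have hev : ∀ z ∈ ball (0 : ℂ) 1, (fun w => ‖pushG (gfun H t) q (φ w)‖ ^ 2) =ᶠ[𝓝 z]
      fun w => 1 - c * PP φ (fun w => h (φ w)) t a w := by
    intro z hz
    filter_upwards [isOpen_ball.mem_nhds hz] with w hw
    have hw' := ball_subset_closedBall hw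
    rw [push_normsq hR.lt (hqn w hw') (hR.frac_pos (hle w hw') (hqn w hw'))]
    have : gfun H t (φ w) = PP φ (fun w => h (φ w)) t a w := rfl
    rw [this, hcdef]
    ring
  have hPs : ∀ z ∈ ball (0 : ℂ) 1, ContDiffAt ℝ ∞ (PP φ (fun w => h (φ w)) t a) z := by
    intro z hz
    have h1 := sd_at hφ (ball_subset_closedBall hz)
    have h2 := hf z (ball_subset_closedBall hz)
    unfold PP
    exact (rh_smooth h1).mul (contDiffAt_const.mul (h2.add (contDiffAt_const.inner ℝ h1))).neg.exp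
  refine ⟨?_, ?_⟩
  · intro z hz hcr u hu
    obtain ⟨h1, h2, -⟩ := affine_calc hcpos (hPs z hz) (hev z hz)
    refine hB a haB z hz (h1 hcr) u fun v => ?_
    have h3 := hu v
    rw [h2 u v] at h3
    exact (mul_eq_zero.mp h3).resolve_left (neg_ne_zero.mpr hcpos.ne')
  · refine le_trans (encard_le_encard ?_) hcount
    rintro z ⟨hz, hzm⟩
    exact ⟨hz, (affine_calc hcpos (hPs z hz) (hev z hz)).2.2 hzm⟩

end Pool.Agent.Q196.SR
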