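import Pool.Agent.Y421.RB.Det
import Pool.Agent.Y475.RB.Jac
import Pool.Agent.Y692.RB.DG
import Pool.Agent.Y640.RB.Calc
import Pool.Agent.Y349.RB.CONT

/-!
The unit normal map of a surface in four-space and its Jacobian determinant.
-/

set_option autoImplicit false

namespace Pool.Agent.Q196.SR

open scoped ContDiff RealInnerProductSpace ENNReal Topology
open MeasureTheory Set Metric Filter Pool.Agent.Y503.RB

/-- Determinant of the second fundamental form with respect to the normal vector `n`. -/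
noncomputable def sffDet (φ : ℂ → E4) (n : E4) (z : ℂ) : ℝ :=
  sff φ n 1 1 z * sff φ n Complex.I Complex.I z - sff φ n 1 Complex.I z ^ 2

/-- The map `(x₀, x₁, θ, r) ↦ r n(θ, x₀ + i x₁)`. -/
noncomputable def nmap (N₁ N₂ : ℂ → E4) (x : E4) : E4 := x 3 • nor N₁ N₂ (x 2) (zc x)

theorem nor_deriv {φ N₁ N₂ : ℂ → E4} {U : Set ℂ} (hP : Patch φ U) (hF : Frame φ N₁ N₂ U)
    (θ : ℝ) {z : ℂ} (hz : z ∈ U) :
    ContDiffAt ℝ ∞ (fun q : ℝ × ℂ => nor N₁ N₂ q.1 q.2) (θ, z) ∧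
    ∃ A : ℝ × ℂ →L[ℝ] E4, HasFDerivAt (fun q : ℝ × ℂ => nor N₁ N₂ q.1 q.2) A (θ, z) ∧
      A (1, 0) = nor N₁ N₂ (θ + Real.pi / 2) z ∧
      (∀ v : ℂ, ⟪nor N₁ N₂ θ z, A (0, v)⟫ = (0 : ℝ)) ∧
      ∀ u v : ℂ, (⟪d1 φ u z, A (0, v)⟫ : ℝ) = -sff φ (nor N₁ N₂ θ z) v u z := by
  have hU := hP.isOpen.mem_nhds hz
  have cφ : ContDiffAt ℝ ∞ φ z := hP.smooth.contDiffAt hU
  have c1 : ContDiffAt ℝ ∞ N₁ z := hF.smooth₁.contDiffAt hU
  have c2 : ContDiffAt ℝ ∞ N₂ z := hF.smooth₂.contDiffAt hU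
  have dN1 : DifferentiableAt ℝ N₁ z := c1.differentiableAt (by simp)
  have dN2 : DifferentiableAt ℝ N₂ z := c2.differentiableAt (by simp)
  have ddφ : ∀ u : ℂ, DifferentiableAt ℝ (fun w => fderiv ℝ φ w u) z := by
    intro u
    have h1 : ContDiffAt ℝ 1 (fderiv ℝ φ) z := cφ.fderiv_right (by norm_cast)
    exact (h1.differentiableAt (by simp)).clm_apply (differentiableAt_const u)
  have cs : ContDiffAt ℝ ∞ (fun q : ℝ × ℂ => q.2) (θ, z) := contDiffAt_snd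
  have cf : ContDiffAt ℝ ∞ (fun q : ℝ × ℂ => q.1) (θ, z) := contDiffAt_fst
  have cN1 : ContDiffAt ℝ ∞ (fun q : ℝ × ℂ => N₁ q.2) (θ, z) :=
    ContDiffAt.comp (θ, z) (g := N₁) (f := fun q : ℝ × ℂ => q.2) c1 cs
  have cN2 : ContDiffAt ℝ ∞ (fun q : ℝ × ℂ => N₂ q.2) (θ, z) :=
    ContDiffAt.comp (θ, z) (g := N₂) (f := fun q : ℝ × ℂ => q.2) c2 cs
  have cN : ContDiffAt ℝ ∞ (fun q : ℝ × ℂ => nor N₁ N₂ q.1 q.2) (θ, z) := by
    unfold nor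
    exact ((Real.contDiff_cos.contDiffAt.comp (θ, z) cf).smul cN1).add
      ((Real.contDiff_sin.contDiffAt.comp (θ, z) cf).smul cN2)
  have H1 : HasFDerivAt (fun q : ℝ × ℂ => N₁ q.2)
      ((fderiv ℝ N₁ z).comp (ContinuousLinearMap.snd ℝ ℝ ℂ)) (θ, z) :=
    HasFDerivAt.comp (θ, z) (g := N₁) (f := fun q : ℝ × ℂ => q.2) dN1.hasFDerivAt hasFDerivAt_snd
  have H2 : HasFDerivAt (fun q : ℝ × ℂ => N₂ q.2)
      ((fderiv ℝ N₂ z).comp (ContinuousLinearMap.snd ℝ ℝ ℂ)) (θ, z) :=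
    HasFDerivAt.comp (θ, z) (g := N₂) (f := fun q : ℝ × ℂ => q.2) dN2.hasFDerivAt hasFDerivAt_snd
  have Hc : HasFDerivAt (fun q : ℝ × ℂ => Real.cos q.1)
      ((-Real.sin θ) • ContinuousLinearMap.fst ℝ ℝ ℂ) (θ, z) :=
    HasDerivAt.comp_hasFDerivAt (θ, z) (h₂ := Real.cos) (f := fun q : ℝ × ℂ => q.1)
      (Real.hasDerivAt_cos θ) hasFDerivAt_fst
  have Hs : HasFDerivAt (fun q : ℝ × ℂ => Real.sin q.1)
      ((Real.cos θ) • ContinuousLinearMap.fst ℝ ℝ ℂ) (θ, z) :=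
    HasDerivAt.comp_hasFDerivAt (θ, z) (h₂ := Real.sin) (f := fun q : ℝ × ℂ => q.1)
      (Real.hasDerivAt_sin θ) hasFDerivAt_fst
  obtain ⟨n', hn', hn'v, hn'1⟩ : ∃ n' : ℝ × ℂ →L[ℝ] E4,
      HasFDerivAt (fun q : ℝ × ℂ => nor N₁ N₂ q.1 q.2) n' (θ, z) ∧
      (∀ v : ℂ, n' (0, v) = Real.cos θ • fderiv ℝ N₁ z v + Real.sin θ • fderiv ℝ N₂ z v) ∧
      n' (1, 0) = nor N₁ N₂ (θ + Real.pi / 2) z := by
    refine ⟨_, (Hc.smul H1).add (Hs.smul H2), ?_, ?_⟩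
    · intro v
      simp
    · unfold nor
      rw [Real.cos_add_pi_div_two, Real.sin_add_pi_div_two]
      simp
  have o11 := Pool.Agent.Y692.RB.inner_const hP.isOpen hz dN1 dN1 (c := 1)
    fun w hw => Pool.Agent.Y692.RB.inner_self_one (hF.unit₁ w hw)
  have o22 := Pool.Agent.Y692.RB.inner_const hP.isOpen hz dN2 dN2 (c := 1)
    fun w hw => Pool.Agent.Y692.RB.inner_self_one (hF.unit₂ w hw)
  have o12 := Pool.Agent.Y692.RB.inner_const hP.isOpen hz dN1 dN2 hF.orth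
  have p1 : ∀ u v : ℂ, ⟪N₁ z, d2 φ v u z⟫ + ⟪fderiv ℝ N₁ z v, d1 φ u z⟫ = 0 := fun u v =>
    Pool.Agent.Y692.RB.inner_const hP.isOpen hz dN1 (ddφ u) (fun w hw => hF.norm₁ w hw u) v
  have p2 : ∀ u v : ℂ, ⟪N₂ z, d2 φ v u z⟫ + ⟪fderiv ℝ N₂ z v, d1 φ u z⟫ = 0 := fun u v =>
    Pool.Agent.Y692.RB.inner_const hP.isOpen hz dN2 (ddφ u) (fun w hw => hF.norm₂ w hw u) v
  refine ⟨cN, n', hn', hn'1, ?_, ?_⟩
  · intro v
    rw [hn'v]
    show ⟪Real.cos θ • N₁ z + Real.sin θ • N₂ z, _⟫ = (0 : ℝ)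
    have a1 := o11 v
    have a2 := o22 v
    have a3 := o12 v
    have c1 : ⟪fderiv ℝ N₁ z v, N₁ z⟫ = ⟪N₁ z, fderiv ℝ N₁ z v⟫ := real_inner_comm _ _
    have c2 : ⟪fderiv ℝ N₂ z v, N₂ z⟫ = ⟪N₂ z, fderiv ℝ N₂ z v⟫ := real_inner_comm _ _
    have c3 : ⟪fderiv ℝ N₁ z v, N₂ z⟫ = ⟪N₂ z, fderiv ℝ N₁ z v⟫ := real_inner_comm _ _
    rw [c1] at a1
    rw [c2] at a2
    rw [c3] at a3
    simp only [inner_add_left, inner_add_right, inner_smul_left, inner_smul_right,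
      conj_trivial]
    linear_combination (Real.cos θ ^ 2 / 2) * a1 + (Real.sin θ ^ 2 / 2) * a2 +
      (Real.cos θ * Real.sin θ) * a3
  · intro u v
    have b1 := p1 u v
    have b2 := p2 u v
    rw [hn'v, inner_add_right, inner_smul_right, inner_smul_right]
    have b3 : ⟪d1 φ u z, fderiv ℝ N₁ z v⟫ = ⟪fderiv ℝ N₁ z v, d1 φ u z⟫ := real_inner_comm _ _
    have b4 : ⟪d1 φ u z, fderiv ℝ N₂ z v⟫ = ⟪fderiv ℝ N₂ z v, d1 φ u z⟫ := real_inner_comm _ _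
    have b5 : sff φ (nor N₁ N₂ θ z) v u z = Real.cos θ * ⟪N₁ z, d2 φ v u z⟫ +
        Real.sin θ * ⟪N₂ z, d2 φ v u z⟫ := by
      show ⟪Real.cos θ • N₁ z + Real.sin θ • N₂ z, d2 φ v u z⟫ = _
      rw [inner_add_left, inner_smul_left, inner_smul_left]
      simp
    rw [b5, b3, b4]
    linear_combination (Real.cos θ) * b1 + (Real.sin θ) * b2

open Pool.Agent.Y421.RB in
/-- Jacobian determinant of `nmap`. -/
theorem ndet {φ N₁ N₂ : ℂ → E4} {U : Set ℂ} (hP : Patch φ U) (hF : Frame φ N₁ N₂ U)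
    {x : E4} (hx : zc x ∈ U) :
    ContDiffAt ℝ ∞ (nmap N₁ N₂) x ∧
    |(fderiv ℝ (nmap N₁ N₂) x).det| =
      |x 3| ^ 3 * (|sffDet φ (nor N₁ N₂ (x 2) (zc x)) (zc x)| / √(fffDet φ (zc x))) := by
  obtain ⟨hg, A, hA, hA1, hnA, hbA⟩ := nor_deriv hP hF (x 2) hx
  set n := nor N₁ N₂ (x 2) (zc x) with hn
  set m := nor N₁ N₂ (x 2 + Real.pi / 2) (zc x) with hm
  have hφ : ContDiffAt ℝ ∞ φ (zc x) := hP.smooth.contDiffAt (hP.isOpen.mem_nhds hx)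
  have hn1 : ‖n‖ = 1 := Pool.Agent.Y692.RB.nor_norm hF hx _
  have hm1 : ‖m‖ = 1 := Pool.Agent.Y692.RB.nor_norm hF hx _
  have hnm : (⟪n, m⟫ : ℝ) = 0 := by
    have h1 := Pool.Agent.Y692.RB.nor_inner hF hx (x 2) (x 2 + Real.pi / 2)
    rw [Real.cos_add_pi_div_two, Real.sin_add_pi_div_two] at h1
    rw [hn, hm, h1]
    ring
  have hnt : ∀ v, (⟪n, d1 φ v (zc x)⟫ : ℝ) = 0 := fun v => Pool.Agent.Y692.RB.nor_tan hF hx _ v
  have hmt : ∀ v, (⟪m, d1 φ v (zc x)⟫ : ℝ) = 0 := fun v => Pool.Agent.Y692.RB.nor_tan hF hx _ v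
  have hgQ : ContDiffAt ℝ ∞ (fun x : E4 => nor N₁ N₂ (x 2) (zc x)) x := by
    have h1 : ContDiffAt ℝ ∞ (fun q : ℝ × ℂ => nor N₁ N₂ q.1 q.2) (Q x) := by
      rw [Q_apply]; exact hg
    exact h1.comp x Q.contDiff.contDiffAt
  have hP3 : ContDiffAt ℝ ∞ (fun x : E4 => (EuclideanSpace.proj (3 : Fin 4) : E4 →L[ℝ] ℝ) x) x :=
    (EuclideanSpace.proj (3 : Fin 4) : E4 →L[ℝ] ℝ).contDiff.contDiffAt
  refine ⟨hP3.smul hgQ, ?_⟩
  have hgd : HasFDerivAt (fun q : ℝ × ℂ => nor N₁ N₂ q.1 q.2) A (Q x) := by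
    rw [Q_apply]; exact hA
  have hgd' : HasFDerivAt (fun x : E4 => nor N₁ N₂ (x 2) (zc x)) (A.comp Q) x :=
    HasFDerivAt.comp (g := fun q : ℝ × ℂ => nor N₁ N₂ q.1 q.2) (f := Q) x hgd Q.hasFDerivAt
  have hder := ((EuclideanSpace.proj (3 : Fin 4) : E4 →L[ℝ] ℝ).hasFDerivAt (x := x)).smul hgd'
  have hcm : fderiv ℝ (nmap N₁ N₂) x = _ := hder.fderiv
  have hval : ∀ v, fderiv ℝ (nmap N₁ N₂) x v = x 3 • A (Q v) + v 3 • n := by
    intro v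
    rw [hcm]
    rfl
  rw [det_eq, hval, hval, hval, hval, Q0, Q1, Q2, Q3]
  have e0 : (EuclideanSpace.single (0 : Fin 4) (1 : ℝ)) 3 = 0 := by simp
  have e1 : (EuclideanSpace.single (1 : Fin 4) (1 : ℝ)) 3 = 0 := by simp
  have e2 : (EuclideanSpace.single (2 : Fin 4) (1 : ℝ)) 3 = 0 := by simp
  have e3 : (EuclideanSpace.single (3 : Fin 4) (1 : ℝ)) 3 = 1 := by simp
  have e4 : A ((0 : ℝ), (0 : ℂ)) = 0 := map_zero A
  rw [e0, e1, e2, e3, e4, zero_smul, add_zero, add_zero, add_zero, smul_zero, zero_add, one_smul,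
    det_scale, abs_mul, abs_pow]
  congr 1
  have J := Pool.Agent.Y475.RB.jac (d1 φ 1 (zc x)) (d1 φ Complex.I (zc x)) n m n (A (0, 1))
    (A (0, Complex.I)) ((1 : ℝ) • m) (A (0, 1)) (A (0, Complex.I)) (A (1, 0)) 0 0 0 1
    hn1 hm1 hn1 hnm (hnt 1) (hnt Complex.I) (hmt 1) (hmt Complex.I) (hnA 1) (hnA Complex.I) rfl
    (by rw [zero_smul, add_zero]) (by rw [zero_smul, add_zero])
    (by rw [zero_smul, add_zero, one_smul, hA1]) (hnA 1) (hnA Complex.I)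
    (by rw [hA1]; exact hnm)
  have hsym : sff φ n Complex.I 1 (zc x) = sff φ n 1 Complex.I (zc x) := by
    unfold sff
    rw [Pool.Agent.Y640.RB.sym φ (zc x) hφ Complex.I 1]
  rw [hbA, hbA, hbA, hbA, hsym] at J
  have hFpos : 0 < fffDet φ (zc x) := Pool.Agent.Y421.RB.fffDet_pos (hP.imm _ hx)
  have hF1 : ⟪d1 φ 1 (zc x), d1 φ 1 (zc x)⟫ * ⟪d1 φ Complex.I (zc x), d1 φ Complex.I (zc x)⟫ -
      ⟪d1 φ 1 (zc x), d1 φ Complex.I (zc x)⟫ ^ 2 = fffDet φ (zc x) := rfl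
  have hE1 : -sff φ n 1 1 (zc x) * -sff φ n Complex.I Complex.I (zc x) -
      -sff φ n 1 Complex.I (zc x) * -sff φ n 1 Complex.I (zc x) = sffDet φ n (zc x) := by
    unfold sffDet
    ring
  rw [hF1] at J
  have J' : (cols (A (0, 1)) (A (0, Complex.I)) (A (1, 0)) n).det ^ 2 * fffDet φ (zc x) =
      (sffDet φ n (zc x)) ^ 2 := by
    rw [J, ← hE1]
    ring
  have hs0 : 0 < √(fffDet φ (zc x)) := Real.sqrt_pos.mpr hFpos
  rw [eq_div_iff hs0.ne']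
  refine (sq_eq_sq₀ (by positivity) (by positivity)).mp ?_
  rw [mul_pow, sq_abs, sq_abs, Real.sq_sqrt hFpos.le]
  exact J'

end Pool.Agent.Q196.SR
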