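import Pool.Agent.Y503.RB.Core
import Pool.Agent.Y503.RB.Loc
import Pool.Agent.Y919.RB.FUB
import Pool.Agent.Q196.SR.NMap

/-!
A good direction: integral geometry for the unit normal map.
-/

set_option autoImplicit false

namespace Pool.Agent.Q196.SR

open scoped ContDiff RealInnerProductSpace ENNReal Topology
open MeasureTheory Set Metric Filter Pool.Agent.Y503.RB

/-- A point with few preimages. -/
theorem core_abs {ι : Type} [Countable ι] (F : ι → E4 → E4) (R P Q : ι → Set E4)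
    (hP : ∀ i, IsOpen (P i)) (hF : ∀ i, ContDiffOn ℝ ∞ (F i) (P i))
    (hd : ∀ i, ∀ x ∈ P i, (fderiv ℝ (F i) x).det ≠ 0)
    (hQ : ∀ i, MeasurableSet (Q i)) (hQP : ∀ i, Q i ⊆ P i)
    (hFR : ∀ i, ∀ x ∈ R i, DifferentiableAt ℝ (F i) x)
    (Z : Set E4) (hZ : volume Z = 0) (m : ℕ)
    (hT : ∑' i, ∫⁻ x in Q i, ENNReal.ofReal |(fderiv ℝ (F i) x).det| <
      ((m + 1 : ℕ) : ℝ≥0∞) * ENNReal.ofReal (Real.pi ^ 2 / 2)) :
    ∃ y : E4, 0 < ‖y‖ ∧ ‖y‖ < 1 ∧ y ∉ Z ∧
      (∀ i, ∀ x ∈ R i, F i x = y → (fderiv ℝ (F i) x).det ≠ 0) ∧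
      ∀ s : Finset (ι × E4), (∀ p ∈ s, p.2 ∈ Q p.1 ∧ F p.1 p.2 = y) → s.card ≤ m := by
  classical
  choose c hc1 hc2 hc3 using fun i => count2 (F i) (P i) (hP i) (hF i) (hd i) (Q i) (hQ i) (hQP i)
  let C : E4 → ℝ≥0∞ := fun y => ∑' i, c i y
  have hCm : Measurable C := Measurable.ennreal_tsum hc1
  have hCi : ∫⁻ y, C y ≤ ∑' i, ∫⁻ x in Q i, ENNReal.ofReal |(fderiv ℝ (F i) x).det| := by
    rw [lintegral_tsum (fun i => (hc1 i).aemeasurable)]
    exact ENNReal.tsum_le_tsum hc2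
  let B : Set E4 := {y | ((m + 1 : ℕ) : ℝ≥0∞) ≤ C y}
  let S : ι → Set E4 := fun i => F i '' {x | x ∈ R i ∧ (fderiv ℝ (F i) x).det = 0}
  have hS : ∀ i, volume (S i) = 0 := by
    intro i
    refine addHaar_image_eq_zero_of_det_fderivWithin_eq_zero volume
      (f' := fun x => fderiv ℝ (F i) x) ?_ (fun x hx => hx.2)
    intro x hx
    exact (hFR i x hx.1).hasFDerivAt.hasFDerivWithinAt
  have hex : ∃ y ∈ ball (0 : E4) 1, y ∉ B ∪ (Z ∪ ((⋃ i, S i) ∪ {0})) := by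
    by_contra hc
    push Not at hc
    have h1 : volume (ball (0 : E4) 1) ≤ volume B := by
      calc volume (ball (0 : E4) 1) ≤ volume (B ∪ (Z ∪ ((⋃ i, S i) ∪ {0}))) :=
            measure_mono hc
        _ ≤ volume B + volume (Z ∪ ((⋃ i, S i) ∪ {0})) := measure_union_le _ _
        _ = volume B := by
            have : volume (Z ∪ ((⋃ i, S i) ∪ {0})) = 0 := by
              rw [measure_union_null_iff, measure_union_null_iff, measure_iUnion_null_iff]
              exact ⟨hZ, hS, measure_singleton _⟩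
            rw [this, add_zero]
    have h2 := (mul_meas_ge_le_lintegral hCm ((m + 1 : ℕ) : ℝ≥0∞)).trans hCi
    rw [volume_ball_E4] at h1
    have h5 : ((m + 1 : ℕ) : ℝ≥0∞) * ENNReal.ofReal (Real.pi ^ 2 / 2) ≤
        ((m + 1 : ℕ) : ℝ≥0∞) * volume B := mul_le_mul_right h1 _
    exact absurd (h5.trans h2) (not_le.mpr hT)
  obtain ⟨y, hy, hyn⟩ := hex
  simp only [mem_union, not_or, mem_iUnion, not_exists] at hyn
  obtain ⟨hB, hZn, hSn, h0⟩ := hyn
  have hy0 : y ≠ 0 := h0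
  refine ⟨y, norm_pos_iff.mpr hy0, by simpa using hy, hZn, ?_, ?_⟩
  · intro i x hx hxy hd
    exact hSn i ⟨x, ⟨hx, hd⟩, hxy⟩
  · intro s hs
    by_contra hcard
    push Not at hcard
    apply hB
    show ((m + 1 : ℕ) : ℝ≥0∞) ≤ C y
    have h1 : (s.card : ℝ≥0∞) = ∑ i ∈ s.image Prod.fst,
        (((s.filter (fun p => p.1 = i)).card : ℕ) : ℝ≥0∞) := by
      rw [Finset.card_eq_sum_card_image Prod.fst s]
      push_cast
      rfl
    have h2 : ∀ i, (((s.filter (fun p => p.1 = i)).card : ℕ) : ℝ≥0∞) ≤ c i y := by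
      intro i
      have h3 : ((s.filter (fun p => p.1 = i)).image Prod.snd).card =
          (s.filter (fun p => p.1 = i)).card := by
        refine Finset.card_image_of_injOn ?_
        intro a ha b hb hab
        have ha' := (Finset.mem_filter.mp ha).2
        have hb' := (Finset.mem_filter.mp hb).2
        exact Prod.ext (ha'.trans hb'.symm) hab
      rw [← h3]
      refine hc3 i y _ fun x hx => ?_
      obtain ⟨p, hp, rfl⟩ := Finset.mem_image.mp hx
      obtain ⟨hp1, rfl⟩ := Finset.mem_filter.mp hp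
      exact hs p hp1
    calc ((m + 1 : ℕ) : ℝ≥0∞) ≤ (s.card : ℝ≥0∞) := by exact_mod_cast hcard
      _ ≤ ∑ i ∈ s.image Prod.fst, c i y := by
          rw [h1]
          exact Finset.sum_le_sum fun i _ => h2 i
      _ ≤ ∑' i, c i y := ENNReal.sum_le_tsum _

/-- `II_n` is negative definite at `φ z`. -/
def NegDef (φ : ℂ → E4) (n : E4) (z : ℂ) : Prop := sff φ n 1 1 z < 0 ∧ 0 < sffDet φ n z

open Classical in
/-- The determinant of `II_n` times the area density if `II_n` is negative definite, otherwise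
`0`. -/
noncomputable def ndens (φ : ℂ → E4) (n : E4) (z : ℂ) : ℝ :=
  if NegDef φ n z then sffDet φ n z / √(fffDet φ z) else 0

/-- Integral of `ndens` over the circle of unit normal vectors at `φ z`. -/
noncomputable def ncurvAt (φ : ℂ → E4) (z : ℂ) : ℝ≥0∞ :=
  ⨆ (L : ℂ →ₗᵢ[ℝ] E4) (_ : ∀ w v : ℂ, ⟪L w, d1 φ v z⟫ = 0),
    ∫⁻ θ in Ico 0 (2 * Real.pi),
      ENNReal.ofReal (ndens φ (L ⟨Real.cos θ, Real.sin θ⟩) z)

theorem ncurv_le {φ N₁ N₂ : ℂ → E4} {U : Set ℂ} (hfr : Frame φ N₁ N₂ U) {z : ℂ} (hz : z ∈ U) :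
    ∫⁻ θ in Ico 0 (2 * Real.pi), ENNReal.ofReal (ndens φ (nor N₁ N₂ θ z) z) ≤ ncurvAt φ z := by
  have u1 := hfr.unit₁ z hz
  have u2 := hfr.unit₂ z hz
  have o := hfr.orth z hz
  have o1 := hfr.norm₁ z hz
  have o2 := hfr.norm₂ z hz
  have i11 : ⟪N₁ z, N₁ z⟫ = (1 : ℝ) := by rw [real_inner_self_eq_norm_sq, u1]; norm_num
  have i22 : ⟪N₂ z, N₂ z⟫ = (1 : ℝ) := by rw [real_inner_self_eq_norm_sq, u2]; norm_num
  have o' : ⟪N₂ z, N₁ z⟫ = (0 : ℝ) := by rw [real_inner_comm]; exact o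
  let L0 : ℂ →ₗᵢ[ℝ] E4 :=
    { toFun := fun w => w.re • N₁ z + w.im • N₂ z
      map_add' := by
        intro a b
        simp only [Complex.add_re, Complex.add_im, add_smul]
        abel
      map_smul' := by
        intro r a
        simp only [Complex.real_smul, Complex.mul_re, Complex.mul_im, Complex.ofReal_re,
          Complex.ofReal_im, zero_mul, sub_zero, add_zero, RingHom.id_apply, smul_add,
          smul_smul]
      norm_map' := by
        intro w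
        have h1 : ‖w.re • N₁ z + w.im • N₂ z‖ ^ 2 = ‖w‖ ^ 2 := by
          rw [← real_inner_self_eq_norm_sq, ← Complex.normSq_eq_norm_sq, Complex.normSq_apply]
          simp only [inner_add_left, inner_add_right, real_inner_smul_left,
            real_inner_smul_right, i11, i22, o, o']
          ring
        exact (sq_eq_sq₀ (norm_nonneg _) (norm_nonneg _)).1 h1 }
  have hL0 : ∀ w v : ℂ, ⟪L0 w, d1 φ v z⟫ = (0 : ℝ) := by
    intro w v
    show ⟪w.re • N₁ z + w.im • N₂ z, d1 φ v z⟫ = (0 : ℝ)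
    rw [inner_add_left, real_inner_smul_left, real_inner_smul_left, o1, o2]
    ring
  exact le_iSup₂_of_le L0 hL0 le_rfl

theorem c_sff {φ N₁ N₂ : ℂ → E4} {U : Set ℂ} (h : Patch φ U) (hF : Frame φ N₁ N₂ U) (u v : ℂ) :
    ContinuousOn (fun q : ℝ × ℂ => sff φ (nor N₁ N₂ q.1 q.2) u v q.2) (univ ×ˢ U) := by
  unfold sff
  exact (Pool.Agent.Y349.RB.c_nor hF).inner (Pool.Agent.Y349.RB.c_snd (Pool.Agent.Y349.RB.c_d2 h u v))

theorem c_sffDet {φ N₁ N₂ : ℂ → E4} {U : Set ℂ} (h : Patch φ U) (hF : Frame φ N₁ N₂ U) :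
    ContinuousOn (fun q : ℝ × ℂ => sffDet φ (nor N₁ N₂ q.1 q.2) q.2) (univ ×ˢ U) := by
  unfold sffDet
  exact ((c_sff h hF 1 1).mul (c_sff h hF Complex.I Complex.I)).sub
    ((c_sff h hF 1 Complex.I).pow 2)

/-- The set of pairs with negative definite second fundamental form. -/
def nset (φ N₁ N₂ : ℂ → E4) (U : Set ℂ) : Set (ℝ × ℂ) :=
  {q | q.2 ∈ U ∧ NegDef φ (nor N₁ N₂ q.1 q.2) q.2}

theorem isOpen_nset {φ N₁ N₂ : ℂ → E4} {U : Set ℂ} (h : Patch φ U) (hF : Frame φ N₁ N₂ U) :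
    IsOpen (nset φ N₁ N₂ U) := by
  have hO : IsOpen ((univ : Set ℝ) ×ˢ U) := isOpen_univ.prod h.isOpen
  have h1 := (c_sff h hF 1 1).isOpen_inter_preimage hO isOpen_Iio (t := Iio 0)
  have h2 := (c_sffDet h hF).isOpen_inter_preimage hO isOpen_Ioi (t := Ioi 0)
  have h3 : nset φ N₁ N₂ U = (univ ×ˢ U ∩ (fun q : ℝ × ℂ => sff φ (nor N₁ N₂ q.1 q.2) 1 1 q.2) ⁻¹'
      Iio 0) ∩ (univ ×ˢ U ∩ (fun q : ℝ × ℂ => sffDet φ (nor N₁ N₂ q.1 q.2) q.2) ⁻¹' Ioi 0) := by
    ext q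
    simp only [nset, NegDef, mem_ofPred_eq, mem_inter_iff, mem_prod, mem_univ, true_and,
      mem_preimage, mem_Iio, mem_Ioi]
    tauto
  rw [h3]
  exact h1.inter h2

/-- The density is measurable. -/
theorem aem_ndens {φ N₁ N₂ : ℂ → E4} {U : Set ℂ} (h : Patch φ U) (hF : Frame φ N₁ N₂ U) :
    AEMeasurable (fun q : ℝ × ℂ => ENNReal.ofReal (ndens φ (nor N₁ N₂ q.1 q.2) q.2))
      (volume.restrict (Ico 0 (2 * Real.pi) ×ˢ U)) := by
  classical
  have hO : IsOpen ((univ : Set ℝ) ×ˢ U) := isOpen_univ.prod h.isOpen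
  have hc : ContinuousOn (fun q : ℝ × ℂ => sffDet φ (nor N₁ N₂ q.1 q.2) q.2 / √(fffDet φ q.2))
      (univ ×ˢ U) := by
    refine (c_sffDet h hF).div (Pool.Agent.Y349.RB.c_snd (Pool.Agent.Y349.RB.c_fffDet h)).sqrt
      fun q hq => ?_
    exact (Real.sqrt_pos.2 (Pool.Agent.Y349.RB.det_pos h hq.2)).ne'
  have h1 : AEMeasurable ((nset φ N₁ N₂ U).indicator
      (fun q : ℝ × ℂ => ENNReal.ofReal (sffDet φ (nor N₁ N₂ q.1 q.2) q.2 / √(fffDet φ q.2))))
      (volume.restrict ((univ : Set ℝ) ×ˢ U)) := by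
    refine AEMeasurable.indicator ?_ (isOpen_nset h hF).measurableSet
    exact (hc.aemeasurable hO.measurableSet).ennreal_ofReal
  have h2 := h1.mono_measure (Measure.restrict_mono
    (prod_mono (subset_univ (Ico 0 (2 * Real.pi))) (subset_refl U)) le_rfl)
  refine h2.congr ?_
  have hm : MeasurableSet (Ico 0 (2 * Real.pi) ×ˢ U) := measurableSet_Ico.prod h.isOpen.measurableSet
  filter_upwards [ae_restrict_mem hm] with q hq
  unfold indicator nset ndens
  by_cases hn : NegDef φ (nor N₁ N₂ q.1 q.2) q.2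
  · simp [hn, hq.2]
  · simp [hn]

end Pool.Agent.Q196.SR
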