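import Pool.Agent.Q196.SR.Ray

/-!
The pushed disc.
-/

set_option autoImplicit false

namespace Pool.Agent.Q196.SR

open scoped ContDiff RealInnerProductSpace ENNReal Topology
open MeasureTheory Set Metric Filter Pool.Agent.Y503.RB

theorem curve_deriv {F : Type*} [NormedAddCommGroup F] [NormedSpace ℝ F] {φ : ℂ → F} {z : ℂ}
    (hs : DifferentiableAt ℝ φ z) (u : ℂ) :
    HasDerivAt (fun s : ℝ => φ (z + (s : ℝ) • u)) (fderiv ℝ φ z u) 0 := by
  have h1 : HasDerivAt (fun s : ℝ => z + s • u) u 0 := by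
    simpa using ((hasDerivAt_id (0 : ℝ)).smul_const u).const_add z
  have h2 : HasFDerivAt φ (fderiv ℝ φ z) (z + (0 : ℝ) • u) := by
    simpa using hs.hasFDerivAt
  exact h2.comp_hasDerivAt 0 h1

theorem push_imm_aux {g : E4 → ℝ} {q : E4} (h : Rad g q) {p : ℝ → E4} {p' : E4}
    (hp : HasDerivAt p p' 0) (hx : ‖p 0‖ ≤ 1) (hne : p 0 ≠ q)
    (h0 : HasDerivAt (fun s => pushG g q (p s)) 0 0) : p' = 0 := by
  have hg : HasFDerivAt g (fderiv ℝ g (p 0)) (p 0) :=
    ((h.smooth _ hx).differentiableAt (by simp)).hasFDerivAt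
  have hA : HasDerivAt (fun s => g (p s)) (fderiv ℝ g (p 0) p') 0 := hg.comp_hasDerivAt 0 hp
  have hpos := h.frac_pos hx hne
  have hev1 : ∀ᶠ s in 𝓝 (0 : ℝ), p s ≠ q := hp.continuousAt.eventually_ne hne
  have hfr : HasDerivAt (fun s => 1 - g (p s) / g q) (-(fderiv ℝ g (p 0) p' / g q)) 0 := by
    simpa using (hA.div_const (g q)).const_sub 1
  have hev2 : ∀ᶠ s in 𝓝 (0 : ℝ), 0 < 1 - g (p s) / g q :=
    hfr.continuousAt.eventually (lt_mem_nhds hpos)
  have hN : (fun s => ‖pushG g q (p s)‖ ^ 2) =ᶠ[𝓝 0] fun s => 1 - g (p s) / g q := by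
    filter_upwards [hev1, hev2] with s h1 h2
    exact push_normsq h.lt h1 h2
  have hN' : HasDerivAt (fun s => ‖pushG g q (p s)‖ ^ 2) 0 0 := by
    have := h0.norm_sq
    simpa using this
  have hz : -(fderiv ℝ g (p 0) p' / g q) = 0 := (hfr.congr_of_eventuallyEq hN).unique hN'
  have hz' : fderiv ℝ g (p 0) p' = 0 := by
    have hq := h.max_pos
    have : fderiv ℝ g (p 0) p' / g q = 0 := by linarith
    rcases div_eq_zero_iff.mp this with h1 | h1
    · exact h1
    · exact absurd h1 hq.ne'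
  rw [hz] at hfr
  have hS : HasDerivAt (fun s => (√(1 - g (p s) / g q))⁻¹) 0 0 := by
    have h1 := (hfr.sqrt hpos.ne').fun_inv (Real.sqrt_pos.mpr hpos).ne'
    simpa using h1
  have hE : HasDerivAt (fun s => ex q (p s)) 0 0 := by
    have h1 := hS.smul h0
    simp only [smul_zero, zero_smul, add_zero] at h1
    refine h1.congr_of_eventuallyEq ?_
    filter_upwards [hev2] with s h2
    unfold pushG
    rw [Pi.smul_apply', smul_smul, inv_mul_cancel₀ (Real.sqrt_pos.mpr h2).ne', one_smul]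
  have hl : ∃ κ : ℝ, HasDerivAt (fun s => (lam q (p s))⁻¹) κ 0 := by
    have h1 : HasFDerivAt (lam q) (fderiv ℝ (lam q) (p 0)) (p 0) :=
      ((lam_smooth h.lt hne).differentiableAt (by simp)).hasFDerivAt
    have h2 := (h1.comp_hasDerivAt 0 hp).fun_inv (lam_pos h.lt hne).ne'
    exact ⟨_, h2⟩
  obtain ⟨κ, hκ⟩ := hl
  have hp2 : HasDerivAt p (κ • (ex q (p 0) - q)) 0 := by
    have h1 := (hκ.smul (hE.sub_const q)).const_add q
    simp only [smul_zero, zero_add] at h1
    refine h1.congr_of_eventuallyEq ?_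
    filter_upwards [hev1] with s h2
    exact eq_of_ex h.lt h2
  have hp3 : p' = κ • (ex q (p 0) - q) := hp.unique hp2
  have hp4 : p 0 - q = (lam q (p 0))⁻¹ • (ex q (p 0) - q) := by
    conv_lhs => rw [eq_of_ex h.lt hne]
    rw [add_sub_cancel_left]
  have hp5 : p' = (κ * lam q (p 0)) • (p 0 - q) := by
    rw [hp4, smul_smul, mul_assoc, mul_inv_cancel₀ (lam_pos h.lt hne).ne', mul_one, hp3]
  rw [hp5, map_smul, smul_eq_mul] at hz'
  rcases mul_eq_zero.mp hz' with h1 | h1
  · rw [hp5, h1, zero_smul]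
  · exact absurd h1 (h.dec _ hx hne).ne

theorem bd_ne {g : E4 → ℝ} {q : E4} (h : Rad g q) {x : E4} (hx : ‖x‖ = 1) : x ≠ q := by
  rintro rfl
  exact absurd h.lt (by rw [hx]; exact lt_irrefl _)

/-- The pushed disc is a slice disc with the same boundary. -/
theorem slice_pushG {g : E4 → ℝ} {q : E4} (h : Rad g q) {φ : ℂ → E4} (hφ : SliceDisc φ)
    (hq : ∀ z ∈ closedBall (0 : ℂ) 1, φ z ≠ q) :
    SliceDisc (fun w => pushG g q (φ w)) ∧ ∀ z ∈ sphere (0 : ℂ) 1, pushG g q (φ z) = φ z := by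
  obtain ⟨W, hW, hsub, hs⟩ := hφ.smooth
  obtain ⟨V, hV, hVsub, hgs⟩ := h.smoothOn
  have hle : ∀ z ∈ closedBall (0 : ℂ) 1, ‖φ z‖ ≤ 1 := by
    intro z hz
    rcases eq_or_lt_of_le (mem_closedBall.mp hz) with h1 | h1
    · exact (hφ.bdry z h1).le
    · exact (hφ.inside z h1).le
  have hat : ∀ z ∈ W, ContDiffAt ℝ ∞ φ z := fun z hz => hs.contDiffAt (hW.mem_nhds hz)
  have hfix : ∀ z ∈ sphere (0 : ℂ) 1, pushG g q (φ z) = φ z := fun z hz =>
    push_fix h (hφ.bdry z hz)
  have hns : ∀ z ∈ closedBall (0 : ℂ) 1, (fun w => ‖pushG g q (φ w)‖ ^ 2) =ᶠ[𝓝 z]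
      fun w => 1 - g (φ w) / g q := by
    intro z hz
    have hc : ContinuousAt φ z := (hat z (hsub hz)).continuousAt
    have hgc : ContinuousAt (fun w => 1 - g (φ w) / g q) z := by
      have h1 : ContinuousAt g (φ z) := (h.smooth _ (hle z hz)).continuousAt
      exact continuousAt_const.sub ((h1.comp hc).div_const _)
    filter_upwards [hc.eventually_ne (hq z hz),
      hgc.eventually (lt_mem_nhds (h.frac_pos (hle z hz) (hq z hz)))] with w h1 h2
    exact push_normsq h.lt h1 h2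
  refine ⟨⟨?_, ?_, ?_, ?_, ?_, ?_⟩, hfix⟩
  · -- smoothness
    set O : Set ℂ := {z | z ∈ W ∧ φ z ∈ V ∧ φ z ≠ q ∧ 0 < 1 - g (φ z) / g q} with hO
    have hO1 : IsOpen (W ∩ φ ⁻¹' (V ∩ {q}ᶜ)) :=
      hs.continuousOn.isOpen_inter_preimage hW (hV.inter isOpen_compl_singleton)
    have hgc : ContinuousOn (fun w => 1 - g (φ w) / g q) (W ∩ φ ⁻¹' (V ∩ {q}ᶜ)) := by
      refine continuousOn_const.sub (ContinuousOn.div_const ?_ _)
      exact hgs.continuousOn.comp (hs.continuousOn.mono inter_subset_left)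
        (fun w hw => hw.2.1)
    have hO2 := hgc.isOpen_inter_preimage hO1 isOpen_Ioi (t := Ioi 0)
    refine ⟨_, hO2, ?_, ?_⟩
    · intro z hz
      refine ⟨⟨hsub hz, hVsub (by simpa using hle z hz), hq z hz⟩, ?_⟩
      exact h.frac_pos (hle z hz) (hq z hz)
    · intro z hz
      obtain ⟨⟨h1, h2, h3⟩, h4⟩ := hz
      have h5 : ContDiffAt ℝ ∞ g (φ z) := hgs.contDiffAt (hV.mem_nhds h2)
      exact ((push_smooth h.lt h5 h3 h4).comp z (hat z h1)).contDiffWithinAt
  · -- injectivity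
    intro a ha b hb hab
    have ha1 := hle a ha
    have hb1 := hle b hb
    have hab' : pushG g q (φ a) = pushG g q (φ b) := hab
    have h1 := push_normsq h.lt (hq a ha) (h.frac_pos ha1 (hq a ha))
    have h2 := push_normsq h.lt (hq b hb) (h.frac_pos hb1 (hq b hb))
    rw [hab', h2] at h1
    have h3 : g (φ b) / g q = g (φ a) / g q := by linarith
    have h4 : g (φ a) = g (φ b) := by
      have := h.max_pos.ne'
      field_simp at h3
      exact h3.symm
    have h5 : ex q (φ a) = ex q (φ b) := by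
      have h6 : 0 < √(1 - g (φ b) / g q) := Real.sqrt_pos.mpr (h.frac_pos hb1 (hq b hb))
      unfold pushG at hab'
      rw [h4] at hab'
      exact smul_right_injective E4 h6.ne' hab'
    exact hφ.inj ha hb (h.inj ha1 (hq a ha) hb1 (hq b hb) h4 h5)
  · -- immersion
    intro z hz
    have hd1 : DifferentiableAt ℝ φ z := (hat z (hsub hz)).differentiableAt (by simp)
    have hd2 : DifferentiableAt ℝ (fun w => pushG g q (φ w)) z :=
      ((push_smooth h.lt (h.smooth _ (hle z hz)) (hq z hz)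
        (h.frac_pos (hle z hz) (hq z hz))).comp z (hat z (hsub hz))).differentiableAt (by simp)
    rw [injective_iff_map_eq_zero]
    intro u hu
    have h1 := curve_deriv hd1 u
    have h2 := curve_deriv hd2 u
    rw [hu] at h2
    have h3 := push_imm_aux h h1 (by simpa using hle z hz) (by simpa using hq z hz) h2
    exact (injective_iff_map_eq_zero _).mp (hφ.imm z hz) u h3
  · intro z hz
    have hz' := ball_subset_closedBall hz
    have h1 := push_normsq h.lt (hq z hz') (h.frac_pos (hle z hz') (hq z hz'))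
    have h2 : 0 < g (φ z) / g q := div_pos (h.pos _ (hφ.inside z hz)) h.max_pos
    show ‖pushG g q (φ z)‖ < 1
    nlinarith [norm_nonneg (pushG g q (φ z))]
  · intro z hz
    show ‖pushG g q (φ z)‖ = 1
    rw [hfix z hz]
    exact hφ.bdry z hz
  · intro z hz
    have hz' := sphere_subset_closedBall hz
    have hd1 : DifferentiableAt ℝ φ z := (hat z (hsub hz')).differentiableAt (by simp)
    have hg1 : DifferentiableAt ℝ g (φ z) := (h.smooth _ (hle z hz')).differentiableAt (by simp)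
    have hx := hφ.bdry z hz
    obtain ⟨c, hc, hcd⟩ := h.bd (φ z) hx
    have h1 : fderiv ℝ (fun w => ‖pushG g q (φ w)‖ ^ 2) z z =
        -(fderiv ℝ g (φ z) (fderiv ℝ φ z z) / g q) := by
      rw [(hns z hz').fderiv_eq]
      have h2 : HasFDerivAt (fun w => g (φ w)) ((fderiv ℝ g (φ z)).comp (fderiv ℝ φ z)) z :=
        hg1.hasFDerivAt.comp z hd1.hasFDerivAt
      have h3 : HasFDerivAt (fun w => 1 - g (φ w) / g q)
          (-((g q)⁻¹ • ((fderiv ℝ g (φ z)).comp (fderiv ℝ φ z)))) z := by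
        have := (h2.const_smul (g q)⁻¹).const_sub 1
        refine this.congr_of_eventuallyEq (Eventually.of_forall fun w => ?_)
        simp [div_eq_inv_mul]
      rw [h3.fderiv]
      simp [div_eq_inv_mul]
    rw [h1, hcd]
    have h2 := hφ.trans z hz
    have h3 : fderiv ℝ (fun w => ‖φ w‖ ^ 2) z z = 2 * ⟪φ z, fderiv ℝ φ z z⟫ := by
      rw [(hd1.hasFDerivAt.norm_sq).fderiv]
      simp
    rw [h3] at h2
    have h4 : 0 < c * ⟪φ z, fderiv ℝ φ z z⟫ / g q := by
      have := h.max_pos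
      have : 0 < (⟪φ z, fderiv ℝ φ z z⟫ : ℝ) := by linarith
      positivity
    have : -(-c * ⟪φ z, fderiv ℝ φ z z⟫ / g q) = c * ⟪φ z, fderiv ℝ φ z z⟫ / g q := by ring
    rw [this]
    exact h4

end Pool.Agent.Q196.SR
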