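import Pool.Agent.Y503.RB.All

/-!
The exit point of a ray and the push along the rays from an inner point.
-/

set_option autoImplicit false

namespace Pool.Agent.Q196.SR

open scoped ContDiff RealInnerProductSpace ENNReal Topology
open MeasureTheory Set Metric Filter Pool.Agent.Y503.RB

/-- The factor for which `q + lam q x • (x - q)` lies on the unit sphere. -/
noncomputable def lam (q x : E4) : ℝ :=
  (-⟪q, x - q⟫ + √(⟪q, x - q⟫ ^ 2 + ‖x - q‖ ^ 2 * (1 - ‖q‖ ^ 2))) / ‖x - q‖ ^ 2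

/-- The point in which the ray from `q` through `x` leaves the unit ball. -/
noncomputable def ex (q x : E4) : E4 := q + lam q x • (x - q)

/-- The map which turns the level sets of `g` (a function vanishing on the unit sphere, with
maximum at `q` and decreasing along the rays from `q`) into spheres around `0`. -/
noncomputable def pushG (g : E4 → ℝ) (q x : E4) : E4 := √(1 - g x / g q) • ex q x

theorem normsq_sub_pos {q x : E4} (hx : x ≠ q) : 0 < ‖x - q‖ ^ 2 := by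
  have : 0 < ‖x - q‖ := norm_pos_iff.mpr (sub_ne_zero.mpr hx)
  positivity

theorem one_sub_pos {q : E4} (hq : ‖q‖ < 1) : 0 < 1 - ‖q‖ ^ 2 := by
  nlinarith [norm_nonneg q]

theorem disc_pos {q x : E4} (hq : ‖q‖ < 1) (hx : x ≠ q) :
    0 < ⟪q, x - q⟫ ^ 2 + ‖x - q‖ ^ 2 * (1 - ‖q‖ ^ 2) := by
  have h1 := mul_pos (normsq_sub_pos hx) (one_sub_pos hq)
  positivity

theorem lam_root {q x : E4} (hq : ‖q‖ < 1) (hx : x ≠ q) :
    ‖x - q‖ ^ 2 * lam q x ^ 2 + 2 * ⟪q, x - q⟫ * lam q x = 1 - ‖q‖ ^ 2 := by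
  have hA := normsq_sub_pos hx
  have hS := Real.sq_sqrt (disc_pos hq hx).le
  have h1 : ‖x - q‖ ^ 2 * lam q x = -⟪q, x - q⟫ +
      √(⟪q, x - q⟫ ^ 2 + ‖x - q‖ ^ 2 * (1 - ‖q‖ ^ 2)) := by
    unfold lam
    rw [mul_comm, div_mul_cancel₀ _ hA.ne']
  set S := √(⟪q, x - q⟫ ^ 2 + ‖x - q‖ ^ 2 * (1 - ‖q‖ ^ 2)) with hSd
  set A := ‖x - q‖ ^ 2 with hAd
  set B : ℝ := ⟪q, x - q⟫ with hBd
  have h2 : A * (A * lam q x ^ 2 + 2 * B * lam q x - (1 - ‖q‖ ^ 2)) = 0 := by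
    have : A * (A * lam q x ^ 2 + 2 * B * lam q x - (1 - ‖q‖ ^ 2)) =
        (A * lam q x) ^ 2 + 2 * B * (A * lam q x) - A * (1 - ‖q‖ ^ 2) := by ring
    rw [this, h1]
    linear_combination hS
  rcases mul_eq_zero.mp h2 with h | h
  · exact absurd h hA.ne'
  · linarith

theorem lam_pos {q x : E4} (hq : ‖q‖ < 1) (hx : x ≠ q) : 0 < lam q x := by
  have hA := normsq_sub_pos hx
  unfold lam
  refine div_pos ?_ hA
  have h1 : |(⟪q, x - q⟫ : ℝ)| < √(⟪q, x - q⟫ ^ 2 + ‖x - q‖ ^ 2 * (1 - ‖q‖ ^ 2)) := by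
    rw [← Real.sqrt_sq_eq_abs]
    refine Real.sqrt_lt_sqrt (sq_nonneg _) ?_
    have := mul_pos hA (one_sub_pos hq)
    linarith
  have h2 := le_abs_self (⟪q, x - q⟫ : ℝ)
  linarith

theorem normsq_eq (q x : E4) : ‖x‖ ^ 2 = ‖q‖ ^ 2 + 2 * ⟪q, x - q⟫ + ‖x - q‖ ^ 2 := by
  have : x = q + (x - q) := by abel
  conv_lhs => rw [this]
  rw [@norm_add_sq_real]

theorem lam_key {q x : E4} (hq : ‖q‖ < 1) (hx : x ≠ q) :
    (lam q x - 1) * ((1 - ‖q‖ ^ 2) / lam q x + ‖x - q‖ ^ 2) = 1 - ‖x‖ ^ 2 := by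
  have h1 := lam_root hq hx
  have h2 := lam_pos hq hx
  have h3 := normsq_eq q x
  rw [div_add' _ _ _ h2.ne', mul_div_assoc', div_eq_iff h2.ne']
  rw [← h1]
  have h4 : 1 - ‖q‖ ^ 2 = ‖x - q‖ ^ 2 * lam q x ^ 2 + 2 * ⟪q, x - q⟫ * lam q x := h1.symm
  have h5 : 1 - ‖x‖ ^ 2 = (‖x - q‖ ^ 2 * lam q x ^ 2 + 2 * ⟪q, x - q⟫ * lam q x) -
      2 * ⟪q, x - q⟫ - ‖x - q‖ ^ 2 := by linarith
  rw [h5]
  ring

theorem lam_ge {q x : E4} (hq : ‖q‖ < 1) (hx : x ≠ q) (hx1 : ‖x‖ ≤ 1) : 1 ≤ lam q x := by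
  have h1 := lam_key hq hx
  have h2 := lam_pos hq hx
  have h3 : 0 < (1 - ‖q‖ ^ 2) / lam q x + ‖x - q‖ ^ 2 :=
    add_pos (div_pos (one_sub_pos hq) h2) (normsq_sub_pos hx)
  have h4 : 0 ≤ 1 - ‖x‖ ^ 2 := by nlinarith [norm_nonneg x]
  by_contra hc
  push Not at hc
  nlinarith

theorem lam_one {q x : E4} (hq : ‖q‖ < 1) (hx : x ≠ q) (hx1 : ‖x‖ = 1) : lam q x = 1 := by
  have h1 := lam_key hq hx
  have h2 := lam_pos hq hx
  have h3 : 0 < (1 - ‖q‖ ^ 2) / lam q x + ‖x - q‖ ^ 2 :=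
    add_pos (div_pos (one_sub_pos hq) h2) (normsq_sub_pos hx)
  rw [hx1] at h1
  have : lam q x - 1 = 0 := by
    rcases mul_eq_zero.mp (by linarith : (lam q x - 1) *
      ((1 - ‖q‖ ^ 2) / lam q x + ‖x - q‖ ^ 2) = 0) with h | h
    · exact h
    · exact absurd h h3.ne'
  linarith

theorem ex_norm {q x : E4} (hq : ‖q‖ < 1) (hx : x ≠ q) : ‖ex q x‖ = 1 := by
  have h1 := lam_root hq hx
  have h2 : ‖ex q x‖ ^ 2 = 1 := by
    unfold ex
    rw [@norm_add_sq_real, inner_smul_right, norm_smul, mul_pow, Real.norm_eq_abs, sq_abs]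
    linarith
  have h3 : 0 ≤ ‖ex q x‖ := norm_nonneg _
  nlinarith

theorem ex_eq_self {q x : E4} (hq : ‖q‖ < 1) (hx : x ≠ q) (hx1 : ‖x‖ = 1) : ex q x = x := by
  unfold ex
  rw [lam_one hq hx hx1, one_smul]
  abel

theorem eq_of_ex {q x : E4} (hq : ‖q‖ < 1) (hx : x ≠ q) :
    x = q + (lam q x)⁻¹ • (ex q x - q) := by
  have h2 := lam_pos hq hx
  unfold ex
  rw [add_sub_cancel_left, smul_smul, inv_mul_cancel₀ h2.ne', one_smul]
  abel

theorem lam_smooth {q x : E4} (hq : ‖q‖ < 1) (hx : x ≠ q) : ContDiffAt ℝ ∞ (lam q) x := by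
  have hv : ContDiffAt ℝ ∞ (fun x : E4 => x - q) x := contDiffAt_id.sub contDiffAt_const
  have hB : ContDiffAt ℝ ∞ (fun x : E4 => (⟪q, x - q⟫ : ℝ)) x := contDiffAt_const.inner ℝ hv
  have hA : ContDiffAt ℝ ∞ (fun x : E4 => ‖x - q‖ ^ 2) x := hv.norm_sq ℝ
  unfold lam
  refine ContDiffAt.div ?_ hA (normsq_sub_pos hx).ne'
  exact hB.neg.add (((hB.pow 2).add (hA.mul contDiffAt_const)).sqrt (disc_pos hq hx).ne')

theorem ex_smooth {q x : E4} (hq : ‖q‖ < 1) (hx : x ≠ q) : ContDiffAt ℝ ∞ (ex q) x :=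
  contDiffAt_const.add ((lam_smooth hq hx).smul (contDiffAt_id.sub contDiffAt_const))

/-- A function on the unit ball with maximum at `q`, decreasing along the rays from `q`. -/
structure Rad (g : E4 → ℝ) (q : E4) : Prop where
  lt : ‖q‖ < 1
  smoothOn : ∃ V : Set E4, IsOpen V ∧ closedBall 0 1 ⊆ V ∧ ContDiffOn ℝ ∞ g V
  pos : ∀ x, ‖x‖ < 1 → 0 < g x
  zero : ∀ x, ‖x‖ = 1 → g x = 0
  dec : ∀ x, ‖x‖ ≤ 1 → x ≠ q → fderiv ℝ g x (x - q) < 0
  bd : ∀ x, ‖x‖ = 1 → ∃ c : ℝ, 0 < c ∧ ∀ w : E4, fderiv ℝ g x w = -c * ⟪x, w⟫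

theorem Rad.smooth {g : E4 → ℝ} {q : E4} (h : Rad g q) (x : E4) (hx : ‖x‖ ≤ 1) :
    ContDiffAt ℝ ∞ g x := by
  obtain ⟨V, hV, hsub, hs⟩ := h.smoothOn
  exact hs.contDiffAt (hV.mem_nhds (hsub (by simpa using hx)))

theorem seg_norm {q e : E4} (hq : ‖q‖ < 1) (he : ‖e‖ = 1) {s : ℝ} (hs : s ∈ Icc (0 : ℝ) 1) :
    ‖q + s • (e - q)‖ ≤ 1 := by
  have h1 : q + s • (e - q) = (1 - s) • q + s • e := by
    rw [smul_sub, sub_smul, one_smul]
    abel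
  rw [h1]
  calc ‖(1 - s) • q + s • e‖ ≤ ‖(1 - s) • q‖ + ‖s • e‖ := norm_add_le _ _
    _ = (1 - s) * ‖q‖ + s * ‖e‖ := by
      rw [norm_smul, norm_smul, Real.norm_eq_abs, Real.norm_eq_abs,
        abs_of_nonneg (by linarith [hs.2]), abs_of_nonneg hs.1]
    _ ≤ 1 := by
      rw [he]
      nlinarith [hs.1, hs.2]

theorem Rad.anti {g : E4 → ℝ} {q : E4} (h : Rad g q) {e : E4} (he : ‖e‖ = 1) :
    StrictAntiOn (fun s : ℝ => g (q + s • (e - q))) (Icc 0 1) := by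
  have hne : e - q ≠ 0 := by
    intro h0
    rw [sub_eq_zero] at h0
    have := h.lt
    rw [← h0, he] at this
    exact lt_irrefl _ this
  have hd : ∀ s ∈ Icc (0 : ℝ) 1, HasDerivAt (fun s : ℝ => g (q + s • (e - q)))
      (fderiv ℝ g (q + s • (e - q)) (e - q)) s := by
    intro s hs
    have h1 : HasFDerivAt g (fderiv ℝ g (q + s • (e - q))) (q + s • (e - q)) :=
      ((h.smooth _ (seg_norm h.lt he hs)).differentiableAt (by simp)).hasFDerivAt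
    have h2 : HasDerivAt (fun s : ℝ => q + s • (e - q)) (e - q) s := by
      simpa using ((hasDerivAt_id s).smul_const (e - q)).const_add q
    exact h1.comp_hasDerivAt s h2
  refine strictAntiOn_of_deriv_neg (convex_Icc 0 1)
    (fun s hs => (hd s hs).continuousAt.continuousWithinAt) ?_
  intro s hs
  rw [interior_Icc] at hs
  have hs' : s ∈ Icc (0 : ℝ) 1 := ⟨hs.1.le, hs.2.le⟩
  rw [(hd s hs').deriv]
  have h3 : q + s • (e - q) ≠ q := by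
    intro h0
    have : s • (e - q) = 0 := by simpa using h0
    rcases smul_eq_zero.mp this with h4 | h4
    · exact hs.1.ne' h4
    · exact hne h4
  have h4 := h.dec _ (seg_norm h.lt he hs') h3
  rw [add_sub_cancel_left, map_smul, smul_eq_mul] at h4
  by_contra hc
  push Not at hc
  nlinarith [hs.1, mul_nonneg hs.1.le hc]

theorem inv_lam_mem {q x : E4} (hq : ‖q‖ < 1) (hx : x ≠ q) (hx1 : ‖x‖ ≤ 1) :
    (lam q x)⁻¹ ∈ Icc (0 : ℝ) 1 :=
  ⟨(inv_pos.mpr (lam_pos hq hx)).le, inv_le_one_of_one_le₀ (lam_ge hq hx hx1)⟩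

theorem Rad.lt_max {g : E4 → ℝ} {q : E4} (h : Rad g q) {x : E4} (hx1 : ‖x‖ ≤ 1) (hx : x ≠ q) :
    g x < g q := by
  have h1 := h.anti (ex_norm h.lt hx) (left_mem_Icc.mpr zero_le_one) (inv_lam_mem h.lt hx hx1)
    (inv_pos.mpr (lam_pos h.lt hx))
  simp only [zero_smul, add_zero] at h1
  rwa [← eq_of_ex h.lt hx] at h1

theorem Rad.inj {g : E4 → ℝ} {q : E4} (h : Rad g q) {x y : E4} (hx1 : ‖x‖ ≤ 1) (hx : x ≠ q)
    (hy1 : ‖y‖ ≤ 1) (hy : y ≠ q) (hg : g x = g y) (he : ex q x = ex q y) : x = y := by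
  have h1 := (h.anti (ex_norm h.lt hx)).injOn (inv_lam_mem h.lt hx hx1) (inv_lam_mem h.lt hy hy1)
    (by
      show g (q + (lam q x)⁻¹ • (ex q x - q)) = g (q + (lam q y)⁻¹ • (ex q x - q))
      rw [← eq_of_ex h.lt hx, he, ← eq_of_ex h.lt hy, hg])
  rw [eq_of_ex h.lt hx, eq_of_ex h.lt hy, h1, he]

theorem Rad.max_pos {g : E4 → ℝ} {q : E4} (h : Rad g q) : 0 < g q := h.pos q h.lt

theorem Rad.frac_pos {g : E4 → ℝ} {q : E4} (h : Rad g q) {x : E4} (hx1 : ‖x‖ ≤ 1) (hx : x ≠ q) :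
    0 < 1 - g x / g q := by
  have := (div_lt_one h.max_pos).mpr (h.lt_max hx1 hx)
  linarith

theorem push_normsq {g : E4 → ℝ} {q x : E4} (hq : ‖q‖ < 1) (hx : x ≠ q)
    (h0 : 0 < 1 - g x / g q) : ‖pushG g q x‖ ^ 2 = 1 - g x / g q := by
  unfold pushG
  rw [norm_smul, ex_norm hq hx, mul_one, Real.norm_eq_abs, sq_abs, Real.sq_sqrt h0.le]

theorem push_smooth {g : E4 → ℝ} {q x : E4} (hq : ‖q‖ < 1) (hg : ContDiffAt ℝ ∞ g x) (hx : x ≠ q)
    (h0 : 0 < 1 - g x / g q) : ContDiffAt ℝ ∞ (pushG g q) x := by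
  unfold pushG
  exact ((contDiffAt_const.sub (hg.div_const _)).sqrt h0.ne').smul (ex_smooth hq hx)

theorem push_fix {g : E4 → ℝ} {q : E4} (h : Rad g q) {x : E4} (hx : ‖x‖ = 1) :
    pushG g q x = x := by
  have hne : x ≠ q := by
    rintro rfl
    exact absurd h.lt (by rw [hx]; exact lt_irrefl _)
  unfold pushG
  rw [h.zero x hx, zero_div, sub_zero, Real.sqrt_one, one_smul, ex_eq_self h.lt hne hx]

end Pool.Agent.Q196.SR
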